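import Pool.Agent.N224.PJ.Main

set_option autoImplicit false

/-!
# Convergence in mean square, and the passage to standard Borel spaces
-/

open MeasureTheory Filter Topology
open scoped InnerProductSpace ENNReal

noncomputable section

namespace Pool.Agent.N224.PJ

section l2

variable {X : Type} [MeasurableSpace X] {μ : Measure X} [IsProbabilityMeasure μ] {T : Equiv.Perm X} {ℓ : ℕ}

theorem l2_of_conv (hmp : MeasurePreserving T μ μ) (hs : Measurable T.symm) (a : Fin ℓ → ℕ → ℤ)
    (hconv : ∀ f : Fin ℓ ⊕ Fin ℓ → X → ℂ, (∀ i, Measurable (f i)) → (∀ i, ∃ C : ℝ, ∀ x, ‖f i x‖ ≤ C) →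
      Tendsto (fun N => dav N fun n m => ∫ x, ∏ i, f i ((T ^ cc a n m i : Equiv.Perm X) x) ∂μ) atTop
        (𝓝 (∏ i, ∫ x, f i x ∂μ)))
    (f : Fin ℓ → X → ℝ) (hf : ∀ j, Measurable (f j)) (hb : ∀ j, ∃ C : ℝ, ∀ x, |f j x| ≤ C) :
    Tendsto (fun N : ℕ => ∫ x, (((1 / (N : ℝ)) * ∑ n ∈ Finset.range N,
      ∏ j, f j ((T ^ (a j n) : Equiv.Perm X) x)) - ∏ j, ∫ y, f j y ∂μ) ^ 2 ∂μ) atTop (𝓝 0) := by
  rw [← tendsto_add_atTop_iff_nat 1]
  choose C hC using hb
  set c : ℝ := ∏ j, ∫ y, f j y ∂μ with hc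
  set g : ℕ → X → ℝ := fun n x => ∏ j, f j ((T ^ (a j n) : Equiv.Perm X) x) with hg
  have hgm : ∀ n, Measurable (g n) := fun n =>
    Finset.measurable_prod _ fun j _ => (hf j).comp (mp_zpow hmp hs _).measurable
  have hgb : ∀ n x, |g n x| ≤ ∏ j, C j := by
    intro n x
    rw [hg, Finset.abs_prod]
    exact Finset.prod_le_prod (fun _ _ => abs_nonneg _) fun j _ => hC j _
  have hbi : ∀ (h : X → ℝ), Measurable h → (∃ D : ℝ, ∀ x, |h x| ≤ D) → Integrable h μ := by
    rintro h hm ⟨D, hD⟩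
    exact (MemLp.of_bound (p := 1) hm.aestronglyMeasurable D (Eventually.of_forall fun x => by
      rw [Real.norm_eq_abs]; exact hD x)).integrable le_rfl
  have hgi : ∀ n, Integrable (g n) μ := fun n => hbi _ (hgm n) ⟨_, hgb n⟩
  have hggi : ∀ n m, Integrable (fun x => g n x * g m x) μ := fun n m => by
    refine hbi _ ((hgm n).mul (hgm m)) ⟨(∏ j, C j) * (∏ j, C j), fun x => ?_⟩
    rw [abs_mul]
    exact mul_le_mul (hgb n x) (hgb m x) (abs_nonneg _) ((abs_nonneg _).trans (hgb n x))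
  -- the integral of a product of two terms
  have hnm : ∀ n m, ∫ x, (g n x - c) * (g m x - c) ∂μ =
      ∫ x, g n x * g m x ∂μ - c * ∫ x, g n x ∂μ - c * ∫ x, g m x ∂μ + c * c := by
    intro n m
    have h1 : ∀ x, (g n x - c) * (g m x - c) = g n x * g m x - c * g n x - c * g m x + c * c := by
      intro x; ring
    simp only [h1]
    rw [integral_add, integral_sub, integral_sub, integral_const_mul, integral_const_mul, integral_const]
    · simp
    · exact hggi n m
    · exact (hgi n).const_mul c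
    · exact (hggi n m).sub ((hgi n).const_mul c)
    · exact (hgi m).const_mul c
    · exact ((hggi n m).sub ((hgi n).const_mul c)).sub ((hgi m).const_mul c)
    · exact integrable_const _
  have hcc : ∀ n m, Integrable (fun x => (g n x - c) * (g m x - c)) μ := by
    intro n m
    have h1 : ∀ x, (g n x - c) * (g m x - c) = g n x * g m x - c * g n x - c * g m x + c * c := by
      intro x; ring
    simp only [h1]
    exact (((hggi n m).sub ((hgi n).const_mul c)).sub ((hgi m).const_mul c)).add (integrable_const _)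
  -- the mean square
  have hsq : ∀ N : ℕ, ∫ x, (((1 / ((N + 1 : ℕ) : ℝ)) * ∑ n ∈ Finset.range (N + 1), g n x) - c) ^ 2 ∂μ =
      (((N : ℝ) + 1) ^ 2)⁻¹ * ∑ n ∈ Finset.range (N + 1), ∑ m ∈ Finset.range (N + 1),
        ∫ x, (g n x - c) * (g m x - c) ∂μ := by
    intro N
    have h0 : ((N : ℝ) + 1) ≠ 0 := by positivity
    have h1 : ∀ x, (((1 / ((N + 1 : ℕ) : ℝ)) * ∑ n ∈ Finset.range (N + 1), g n x) - c) ^ 2 =
        (((N : ℝ) + 1) ^ 2)⁻¹ * ∑ n ∈ Finset.range (N + 1), ∑ m ∈ Finset.range (N + 1),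
          (g n x - c) * (g m x - c) := by
      intro x
      rw [← Finset.sum_mul_sum, Finset.sum_sub_distrib, Finset.sum_const, Finset.card_range, nsmul_eq_mul]
      push_cast
      field_simp
    simp only [h1]
    rw [integral_const_mul, integral_finsetSum _ fun n _ => integrable_finsetSum _ fun m _ => hcc n m]
    congr 1
    refine Finset.sum_congr rfl fun n _ => ?_
    rw [integral_finsetSum _ fun m _ => hcc n m]
  -- the complex versions
  have k1 := hconv (Sum.elim (fun j x => ((f j x : ℝ) : ℂ)) (fun j x => ((f j x : ℝ) : ℂ)))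
    (by rintro (j | j) <;> exact Complex.measurable_ofReal.comp (hf j))
    (by rintro (j | j) <;> exact ⟨C j, fun x => by simpa using hC j x⟩)
  have k2 := hconv (Sum.elim (fun j x => ((f j x : ℝ) : ℂ)) (fun _ _ => (1 : ℂ)))
    (by rintro (j | j); exacts [Complex.measurable_ofReal.comp (hf j), measurable_const])
    (by rintro (j | j); exacts [⟨C j, fun x => by simpa using hC j x⟩, ⟨1, fun x => by simp⟩])
  have k3 := hconv (Sum.elim (fun _ _ => (1 : ℂ)) (fun j x => ((f j x : ℝ) : ℂ)))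
    (by rintro (j | j); exacts [measurable_const, Complex.measurable_ofReal.comp (hf j)])
    (by rintro (j | j); exacts [⟨1, fun x => by simp⟩, ⟨C j, fun x => by simpa using hC j x⟩])
  have hof : ∀ h : X → ℝ, ∫ x, ((h x : ℝ) : ℂ) ∂μ = ((∫ x, h x ∂μ : ℝ) : ℂ) := fun h => integral_ofReal
  have hcC : (c : ℂ) = ∏ j, ∫ x, ((f j x : ℝ) : ℂ) ∂μ := by
    rw [hc, Complex.ofReal_prod]
    exact Finset.prod_congr rfl fun j _ => (hof (f j)).symm
  have e1 : ∀ n m, ∫ x, ∏ i, Sum.elim (fun j x => ((f j x : ℝ) : ℂ)) (fun j x => ((f j x : ℝ) : ℂ)) i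
      ((T ^ cc a n m i : Equiv.Perm X) x) ∂μ = ((∫ x, g n x * g m x ∂μ : ℝ) : ℂ) := by
    intro n m
    rw [← hof]
    congr 1
    funext x
    rw [Fintype.prod_sum_type]
    simp [cc, hg]
  have e2 : ∀ n m, ∫ x, ∏ i, Sum.elim (fun j x => ((f j x : ℝ) : ℂ)) (fun _ _ => (1 : ℂ)) i
      ((T ^ cc a n m i : Equiv.Perm X) x) ∂μ = ((∫ x, g n x ∂μ : ℝ) : ℂ) := by
    intro n m
    rw [← hof]
    congr 1
    funext x
    rw [Fintype.prod_sum_type]
    simp [cc, hg]
  have e3 : ∀ n m, ∫ x, ∏ i, Sum.elim (fun _ _ => (1 : ℂ)) (fun j x => ((f j x : ℝ) : ℂ)) i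
      ((T ^ cc a n m i : Equiv.Perm X) x) ∂μ = ((∫ x, g m x ∂μ : ℝ) : ℂ) := by
    intro n m
    rw [← hof]
    congr 1
    funext x
    rw [Fintype.prod_sum_type]
    simp [cc, hg]
  simp only [e1] at k1
  simp only [e2] at k2
  simp only [e3] at k3
  rw [Fintype.prod_sum_type] at k1 k2 k3
  simp only [Sum.elim_inl, Sum.elim_inr, integral_const, probReal_univ, one_smul, Finset.prod_const_one,
    mul_one, one_mul] at k1 k2 k3
  rw [← hcC] at k1 k2 k3
  have k4 := ((k1.sub (k2.const_mul (c : ℂ))).sub (k3.const_mul (c : ℂ))).add_const ((c : ℂ) * c)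
  have h5 : (c : ℂ) * c - c * c - c * c + c * c = 0 := by ring
  rw [h5] at k4
  have k5 := (Complex.continuous_re.tendsto 0).comp k4
  rw [Complex.zero_re] at k5
  refine k5.congr fun N => ?_
  have h6 : dav N (fun n m => ((∫ x, g n x * g m x ∂μ : ℝ) : ℂ)) -
      c * dav N (fun n _ => ((∫ x, g n x ∂μ : ℝ) : ℂ)) - c * dav N (fun _ m => ((∫ x, g m x ∂μ : ℝ) : ℂ)) +
      (c : ℂ) * c = ((∫ x, (((1 / ((N + 1 : ℕ) : ℝ)) * ∑ n ∈ Finset.range (N + 1), g n x) - c) ^ 2 ∂μ : ℝ) : ℂ) := by
    rw [hsq N]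
    simp only [hnm]
    rw [← dav_const N ((c : ℂ) * c)]
    unfold dav
    push_cast
    simp only [Finset.sum_add_distrib, Finset.sum_sub_distrib, ← Finset.mul_sum]
    ring
  show (dav N (fun n m => ((∫ x, g n x * g m x ∂μ : ℝ) : ℂ)) -
      c * dav N (fun n _ => ((∫ x, g n x ∂μ : ℝ) : ℂ)) - c * dav N (fun _ m => ((∫ x, g m x ∂μ : ℝ) : ℂ)) +
      (c : ℂ) * c).re = _
  rw [h6, Complex.ofReal_re]

end l2

section std

/-- every standard Borel space has a compact Polish topology with the same Borel sets -/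
theorem exists_compact_polish (X : Type) [MeasurableSpace X] [StandardBorelSpace X] :
    ∃ τ : TopologicalSpace X, @PolishSpace X τ ∧ @CompactSpace X τ ∧ @BorelSpace X τ _ := by
  have tr : ∀ (Y : Type) [TopologicalSpace Y] [PolishSpace Y] [CompactSpace Y] [MeasurableSpace Y]
      [BorelSpace Y] (_ : X ≃ᵐ Y), ∃ τ : TopologicalSpace X, @PolishSpace X τ ∧ @CompactSpace X τ ∧
      @BorelSpace X τ _ := by
    intro Y _ _ _ _ _ e
    let τ : TopologicalSpace X := TopologicalSpace.induced e inferInstance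
    have hi : IsInducing (e.toEquiv : X → Y) := ⟨rfl⟩
    let h : X ≃ₜ Y := e.toEquiv.toHomeomorphOfIsInducing hi
    refine ⟨τ, h.isClosedEmbedding.polishSpace, h.symm.compactSpace, ⟨?_⟩⟩
    have h1 : MeasurableSpace.comap e (borel Y) = @borel X τ := borel_comap.symm
    rw [← h1, ← BorelSpace.measurable_eq (α := Y)]
    exact e.measurableEmbedding.comap_eq.symm
  by_cases hcount : Countable X
  · rcases finite_or_infinite X with hfin | hinf
    · let τ : TopologicalSpace X := ⊥
      have hd : DiscreteTopology X := ⟨rfl⟩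
      refine ⟨τ, inferInstance, inferInstance, ⟨?_⟩⟩
      rw [borel_eq_top_of_discrete]
      exact le_antisymm le_top fun s _ => (Set.to_countable s).measurableSet
    · -- a convergent sequence with its limit
      let u : ℕ → ℝ := fun n => 1 / ((n : ℝ) + 1)
      have hu : Tendsto u atTop (𝓝 0) := tendsto_one_div_add_atTop_nhds_zero_nat
      let K : Set ℝ := insert 0 (Set.range u)
      have hK : IsCompact K := hu.isCompact_insert_range
      have hc : CompactSpace K := isCompact_iff_compactSpace.1 hK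
      have hp : PolishSpace K := hK.isClosed.polishSpace
      have hKc : Countable K := (Set.countable_range u).insert 0
      have huinj : Function.Injective u := by
        intro m n hmn
        have h1 : (1 : ℝ) / ((m : ℝ) + 1) = 1 / ((n : ℝ) + 1) := hmn
        have h2 : ((m : ℝ) + 1) = (n : ℝ) + 1 := by
          rwa [one_div, one_div, inv_inj] at h1
        exact_mod_cast add_right_cancel h2
      have hKi : Infinite K := ((Set.infinite_range_of_injective huinj).mono (Set.subset_insert _ _)).to_subtype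
      obtain ⟨e⟩ := nonempty_equiv_of_countable (α := X) (β := K)
      refine tr K ⟨e, ?_, ?_⟩
      · exact fun s _ => (Set.to_countable _).measurableSet
      · exact fun s _ => (Set.to_countable _).measurableSet
  · have hB : ¬ Countable (Set.Icc (0 : ℝ) 1) := fun h =>
      absurd (Cardinal.Real.Icc_countable_iff.1 (Set.countable_coe_iff.1 h)) (by norm_num)
    have hp : PolishSpace (Set.Icc (0 : ℝ) 1) := isClosed_Icc.polishSpace
    exact tr (Set.Icc (0 : ℝ) 1) (PolishSpace.measurableEquivOfNotCountable hcount hB)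

/-- joint ergodicity for transformations with property `J` on standard Borel spaces -/
theorem joint_std {X : Type} [MeasurableSpace X] [StandardBorelSpace X] {μ : Measure X} [IsProbabilityMeasure μ]
    {T : Equiv.Perm X} {ℓ : ℕ} (a : Fin ℓ → ℕ → ℤ) (ha : GE a) (hT : Ergodic T μ) (hs : Measurable T.symm)
    (hJ : ∀ ν : Measure (Fin ℓ ⊕ Fin ℓ → X), NI μ T ν → ν = Measure.pi fun _ => μ)
    (f : Fin ℓ → X → ℝ) (hf : ∀ j, Measurable (f j)) (hb : ∀ j, ∃ C : ℝ, ∀ x, |f j x| ≤ C) :
    Tendsto (fun N : ℕ => ∫ x, (((1 / (N : ℝ)) * ∑ n ∈ Finset.range N,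
      ∏ j, f j ((T ^ (a j n) : Equiv.Perm X) x)) - ∏ j, ∫ y, f j y ∂μ) ^ 2 ∂μ) atTop (𝓝 0) := by
  obtain ⟨τ, hp, hc, hB⟩ := exists_compact_polish X
  exact l2_of_conv hT.toMeasurePreserving hs a (conv_all ha hT hs hJ) f hf hb

end std

end Pool.Agent.N224.PJ
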