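import Pool.Agent.N224.PJ.Red

set_option autoImplicit false

/-!
# Squares of integer parts of fractional powers have growing gaps
-/

open MeasureTheory Filter Topology

noncomputable section

namespace Pool.Agent.N224.PJ

/-- integer part of a fractional power -/
def fl (c : ℝ) (n : ℕ) : ℤ := ⌊((n + 1 : ℕ) : ℝ) ^ c⌋

theorem fl_nonneg (c : ℝ) (n : ℕ) : 0 ≤ fl c n := Int.floor_nonneg.2 (by positivity)

/-- equal integer parts are close -/
theorem fl_close {c : ℝ} (hc : 0 < c) {N p q : ℕ} (hpq : p ≤ q) (hq : q ≤ N) (h : fl c p = fl c q) :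
    ((q : ℝ) - p) ≤ max 1 (((N : ℝ) + 1) ^ (1 - c) / c) := by
  have hx : (1 : ℝ) ≤ ((p + 1 : ℕ) : ℝ) := by exact_mod_cast Nat.succ_le_succ (Nat.zero_le p)
  have hy : (1 : ℝ) ≤ ((q + 1 : ℕ) : ℝ) := by exact_mod_cast Nat.succ_le_succ (Nat.zero_le q)
  have hxy : ((p + 1 : ℕ) : ℝ) ≤ ((q + 1 : ℕ) : ℝ) := by exact_mod_cast Nat.succ_le_succ hpq
  have hyN : ((q + 1 : ℕ) : ℝ) ≤ (N : ℝ) + 1 := by exact_mod_cast Nat.succ_le_succ hq
  set x : ℝ := ((p + 1 : ℕ) : ℝ) with hxd
  set y : ℝ := ((q + 1 : ℕ) : ℝ) with hyd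
  have hd : (q : ℝ) - p = y - x := by
    rw [hxd, hyd]
    push_cast
    ring
  have hlt : y ^ c - x ^ c < 1 := by
    have h1 : y ^ c < (fl c q : ℝ) + 1 := Int.lt_floor_add_one _
    have h2 : (fl c p : ℝ) ≤ x ^ c := Int.floor_le _
    rw [h] at h2
    linarith
  have hx0 : 0 < x := by linarith
  have hy0 : 0 < y := by linarith
  rw [hd]
  rcases le_or_gt 1 c with h1 | h1
  · refine le_trans ?_ (le_max_left _ _)
    have e1 : 1 + c * ((y - x) / x) ≤ (1 + (y - x) / x) ^ c :=
      one_add_mul_self_le_rpow_one_add (by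
        have : 0 ≤ (y - x) / x := div_nonneg (by linarith) hx0.le
        linarith) h1
    have e2 : 1 + (y - x) / x = y / x := by field_simp; ring
    rw [e2, Real.div_rpow hy0.le hx0.le, le_div_iff₀ (by positivity)] at e1
    have e3 : x ≤ x ^ c := by
      calc x = x ^ (1 : ℝ) := (Real.rpow_one x).symm
        _ ≤ x ^ c := Real.rpow_le_rpow_of_exponent_le hx h1
    have e4 : c * ((y - x) / x) * x ^ c ≤ 1 := by nlinarith
    have e5 : (y - x) ≤ c * ((y - x) / x) * x ^ c := by
      have h5 : (y - x) / x * x = y - x := by field_simp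
      have h6 : 0 ≤ (y - x) / x := div_nonneg (by linarith) hx0.le
      have h7 : (y - x) / x * x ≤ (y - x) / x * x ^ c := mul_le_mul_of_nonneg_left e3 h6
      have h8 : (y - x) / x * x ^ c ≤ c * ((y - x) / x * x ^ c) :=
        le_mul_of_one_le_left (mul_nonneg h6 (by positivity)) h1
      nlinarith
    linarith
  · refine le_trans ?_ (le_max_right _ _)
    have e1 : (1 + (x / y - 1)) ^ c ≤ 1 + c * (x / y - 1) :=
      rpow_one_add_le_one_add_mul_self (by
        have : 0 ≤ x / y := by positivity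
        linarith) hc.le h1.le
    have e2 : 1 + (x / y - 1) = x / y := by ring
    rw [e2, Real.div_rpow hx0.le hy0.le, div_le_iff₀ (by positivity)] at e1
    have e3 : c * ((y - x) / y) * y ^ c ≤ y ^ c - x ^ c := by
      have : (y - x) / y = 1 - x / y := by field_simp
      rw [this]
      nlinarith
    have e4 : y ^ c = y * y ^ (c - 1) := by
      rw [Real.rpow_sub_one hy0.ne']
      field_simp
    have e5 : ((N : ℝ) + 1) ^ (c - 1) ≤ y ^ (c - 1) :=
      Real.rpow_le_rpow_of_nonpos hy0 hyN (by linarith)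
    have hN0 : (0 : ℝ) < (N : ℝ) + 1 := by positivity
    have e6 : c * (y - x) * ((N : ℝ) + 1) ^ (c - 1) ≤ 1 := by
      have h5 : c * ((y - x) / y) * y ^ c = c * (y - x) * y ^ (c - 1) := by
        rw [e4]
        field_simp
      rw [h5] at e3
      have h6 : c * (y - x) * ((N : ℝ) + 1) ^ (c - 1) ≤ c * (y - x) * y ^ (c - 1) :=
        mul_le_mul_of_nonneg_left e5 (mul_nonneg hc.le (by linarith))
      linarith
    rw [le_div_iff₀ hc]
    have e7 : ((N : ℝ) + 1) ^ (1 - c) * ((N : ℝ) + 1) ^ (c - 1) = 1 := by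
      rw [← Real.rpow_add hN0]
      have : (1 - c) + (c - 1) = 0 := by ring
      rw [this, Real.rpow_zero]
    have e8 : 0 < ((N : ℝ) + 1) ^ (1 - c) := by positivity
    calc (y - x) * c = (c * (y - x) * ((N : ℝ) + 1) ^ (c - 1)) * ((N : ℝ) + 1) ^ (1 - c) := by
          rw [mul_assoc (c * (y - x)), mul_comm (((N : ℝ) + 1) ^ (c - 1)), e7]
          ring
      _ ≤ 1 * ((N : ℝ) + 1) ^ (1 - c) := by gcongr
      _ = ((N : ℝ) + 1) ^ (1 - c) := one_mul _

open Classical in
/-- values are taken with uniform density zero -/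
theorem fl_unif {c : ℝ} (hc : 0 < c) (ε : ℝ) (hε : 0 < ε) : ∀ᶠ N : ℕ in atTop, ∀ k : ℤ,
    (((Finset.range (N + 1)).filter fun n => fl c n = k).card : ℝ) ≤ ε * ((N : ℝ) + 1) := by
  have h1 : Tendsto (fun N : ℕ => ((N : ℝ) + 1) ^ (-c)) atTop (𝓝 0) :=
    (tendsto_rpow_neg_atTop hc).comp (tendsto_atTop_add_const_right _ 1 tendsto_natCast_atTop_atTop)
  have h2 : Tendsto (fun N : ℕ => 1 / ((N : ℝ) + 1)) atTop (𝓝 0) := tendsto_one_div_add_atTop_nhds_zero_nat
  have h3 := (h1.div_const c).add (h2.const_mul 2)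
  rw [zero_div, mul_zero, add_zero] at h3
  filter_upwards [h3.eventually_lt_const hε] with N hN k
  have hN0 : (0 : ℝ) < (N : ℝ) + 1 := by positivity
  set S := (Finset.range (N + 1)).filter fun n => fl c n = k with hS
  rcases S.eq_empty_or_nonempty with he | hne
  · rw [he]
    simp only [Finset.card_empty, Nat.cast_zero]
    positivity
  · set p := S.min' hne with hp
    set M : ℝ := max 1 (((N : ℝ) + 1) ^ (1 - c) / c) with hM
    have hM0 : 0 ≤ M := le_trans zero_le_one (le_max_left _ _)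
    have hsub : S ⊆ Finset.Icc p (p + ⌊M⌋₊) := by
      intro q hq
      rw [Finset.mem_Icc]
      have hpS := S.min'_mem hne
      have hpq : p ≤ q := S.min'_le q hq
      refine ⟨hpq, ?_⟩
      have a1 := (Finset.mem_filter.1 hpS).2
      have a2 := (Finset.mem_filter.1 hq)
      have a3 : q ≤ N := by
        have := Finset.mem_range.1 a2.1
        omega
      have a4 := fl_close hc hpq a3 (a1.trans a2.2.symm)
      have a5 : ((q - p : ℕ) : ℝ) ≤ M := by
        rw [Nat.cast_sub hpq]
        exact a4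
      have a6 := Nat.le_floor a5
      omega
    have hcard := Finset.card_le_card hsub
    rw [Nat.card_Icc] at hcard
    have h4 : (S.card : ℝ) ≤ M + 1 := by
      have h5 : S.card ≤ ⌊M⌋₊ + 1 := by omega
      have h6 : (S.card : ℝ) ≤ (⌊M⌋₊ : ℝ) + 1 := by exact_mod_cast h5
      linarith [Nat.floor_le hM0]
    have h5 : M ≤ 1 + ((N : ℝ) + 1) ^ (1 - c) / c := by
      refine max_le ?_ ?_
      · have : 0 ≤ ((N : ℝ) + 1) ^ (1 - c) / c := by positivity
        linarith
      · linarith
    have h6 : ((N : ℝ) + 1) ^ (1 - c) = ((N : ℝ) + 1) ^ (-c) * ((N : ℝ) + 1) := by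
      have e : (1 : ℝ) - c = -c + 1 := by ring
      rw [e, Real.rpow_add hN0, Real.rpow_one]
    have h7 : (((N : ℝ) + 1) ^ (-c) / c + 2 * (1 / ((N : ℝ) + 1))) * ((N : ℝ) + 1) ≤ ε * ((N : ℝ) + 1) := by
      gcongr
    have h8 : (((N : ℝ) + 1) ^ (-c) / c + 2 * (1 / ((N : ℝ) + 1))) * ((N : ℝ) + 1) =
        ((N : ℝ) + 1) ^ (1 - c) / c + 2 := by
      rw [h6]
      field_simp
    rw [h8] at h7
    linarith

open Classical in
theorem sq_unif {c : ℝ} (hc : 0 < c) (ε : ℝ) (hε : 0 < ε) : ∀ᶠ N : ℕ in atTop, ∀ v : ℤ,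
    (((Finset.range (N + 1)).filter fun n => fl c n ^ 2 = v).card : ℝ) ≤ ε * ((N : ℝ) + 1) := by
  filter_upwards [fl_unif hc ε hε] with N hN v
  rcases ((Finset.range (N + 1)).filter fun n => fl c n ^ 2 = v).eq_empty_or_nonempty with he | ⟨m, hm⟩
  · rw [he]
    simp only [Finset.card_empty, Nat.cast_zero]
    positivity
  · refine le_trans ?_ (hN (fl c m))
    have hm' := (Finset.mem_filter.1 hm).2
    have hsub : ((Finset.range (N + 1)).filter fun n => fl c n ^ 2 = v) ⊆
        ((Finset.range (N + 1)).filter fun n => fl c n = fl c m) := by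
      intro n hn
      have hn' := Finset.mem_filter.1 hn
      refine Finset.mem_filter.2 ⟨hn'.1, ?_⟩
      have h1 : fl c n ^ 2 = fl c m ^ 2 := by rw [hn'.2, hm']
      exact (sq_eq_sq₀ (fl_nonneg c n) (fl_nonneg c m)).1 h1
    exact_mod_cast Finset.card_le_card hsub

/-- the gaps between different exponents at the same time tend to infinity -/
theorem gap_inf {c d : ℝ} (hc : 0 < c) (hcd : c < d) (D : ℤ) : ∀ᶠ n : ℕ in atTop, D ≤ fl d n ^ 2 - fl c n ^ 2 := by
  have h1 : Tendsto (fun n : ℕ => ((n + 1 : ℕ) : ℝ) ^ (d - c)) atTop atTop :=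
    (tendsto_rpow_atTop (by linarith)).comp (tendsto_natCast_atTop_atTop.comp (tendsto_add_atTop_nat 1))
  filter_upwards [h1.eventually_ge_atTop (|(D : ℝ)| + 3)] with n hn
  have hx : (1 : ℝ) ≤ ((n + 1 : ℕ) : ℝ) := by exact_mod_cast Nat.succ_le_succ (Nat.zero_le n)
  set x : ℝ := ((n + 1 : ℕ) : ℝ) with hxd
  have hx0 : 0 < x := by linarith
  have h2 : x ^ d = x ^ c * x ^ (d - c) := by
    rw [← Real.rpow_add hx0]
    congr 1
    ring
  have h3 : 1 ≤ x ^ c := Real.one_le_rpow hx hc.le
  have h4 : x ^ d - x ^ c ≥ |(D : ℝ)| + 2 := by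
    rw [h2]
    nlinarith [abs_nonneg (D : ℝ)]
  have h5 : x ^ d < (fl d n : ℝ) + 1 := Int.lt_floor_add_one _
  have h6 : (fl c n : ℝ) ≤ x ^ c := Int.floor_le _
  have h7 : |(D : ℝ)| + 1 ≤ (fl d n : ℝ) - fl c n := by linarith
  have h8 : |D| + 1 ≤ fl d n - fl c n := by exact_mod_cast h7
  have h9 := fl_nonneg c n
  have h10 := le_abs_self D
  have h11 := abs_nonneg D
  nlinarith

/-- the squares -/
def fsq {k : ℕ} (c : Fin k → ℝ) : Fin k → ℕ → ℤ := fun i n => fl (c i) n ^ 2

open Classical in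
theorem bad_fsq {k : ℕ} (c : Fin k → ℝ) (hc : ∀ i, 0 < c i) (hinj : Function.Injective c) : BadZero (fsq c) := by
  intro D
  set w : Fin k × Fin k → ℕ → ℝ := fun q n => if q.1 ≠ q.2 ∧ |fsq c q.1 n - fsq c q.2 n| < D then 1 else 0 with hw
  set u : (Fin k × Fin k) × ℤ → ℕ → ℕ → ℝ := fun q n m => if fsq c q.1.2 m = fsq c q.1.1 n + q.2 then 1 else 0 with hu
  have hw0 : ∀ q n, 0 ≤ w q n := by
    intro q n
    simp only [hw]
    split_ifs <;> norm_num
  have hu0 : ∀ q n m, 0 ≤ u q n m := by
    intro q n m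
    simp only [hu]
    split_ifs <;> norm_num
  set S : Finset ((Fin k × Fin k) × ℤ) := Finset.univ ×ˢ Finset.Ioo (-D) D with hS
  have hbound : ∀ n m, (if ∃ i j : Fin k ⊕ Fin k, i ≠ j ∧ |cc (fsq c) n m i - cc (fsq c) n m j| < D then (1 : ℝ)
      else 0) ≤ ∑ q : Fin k × Fin k, w q n + ∑ q : Fin k × Fin k, w q m + ∑ q ∈ S, u q n m := by
    intro n m
    have s1 : 0 ≤ ∑ q : Fin k × Fin k, w q n := Finset.sum_nonneg fun q _ => hw0 _ _
    have s2 : 0 ≤ ∑ q : Fin k × Fin k, w q m := Finset.sum_nonneg fun q _ => hw0 _ _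
    have s3 : 0 ≤ ∑ q ∈ S, u q n m := Finset.sum_nonneg fun q _ => hu0 _ _ _
    have hcross : ∀ i j : Fin k, |fsq c i n - fsq c j m| < D → 1 ≤ ∑ q ∈ S, u q n m := by
      intro i j hlt
      have hmem : ((i, j), fsq c j m - fsq c i n) ∈ S := by
        simp only [hS, Finset.mem_product, Finset.mem_univ, true_and, Finset.mem_Ioo]
        rw [abs_lt] at hlt
        exact ⟨by linarith [hlt.2], by linarith [hlt.1]⟩
      have h2 := Finset.single_le_sum (f := fun q => u q n m) (fun q _ => hu0 _ _ _) hmem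
      have h3 : u ((i, j), fsq c j m - fsq c i n) n m = 1 := by
        simp only [hu]
        rw [if_pos]
        ring
      rw [h3] at h2
      exact h2
    split_ifs with h
    · obtain ⟨i, j, hij, hlt⟩ := h
      rcases i with i | i <;> rcases j with j | j
      · have h2 := Finset.single_le_sum (f := fun q : Fin k × Fin k => w q n) (fun q _ => hw0 _ _)
          (Finset.mem_univ (i, j))
        have h3 : w (i, j) n = 1 := by
          simp only [hw]
          rw [if_pos]
          exact ⟨fun h => hij (by rw [h]), hlt⟩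
        rw [h3] at h2
        linarith
      · linarith [hcross i j hlt]
      · have hlt' : |fsq c j n - fsq c i m| < D := by
          rw [abs_sub_comm]
          exact hlt
        linarith [hcross j i hlt']
      · have h2 := Finset.single_le_sum (f := fun q : Fin k × Fin k => w q m) (fun q _ => hw0 _ _)
          (Finset.mem_univ (i, j))
        have h3 : w (i, j) m = 1 := by
          simp only [hw]
          rw [if_pos]
          exact ⟨fun h => hij (by rw [h]), hlt⟩
        rw [h3] at h2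
        linarith
    · linarith
  -- each term
  have tw : ∀ q, Tendsto (fun N => davr N fun n _ => w q n) atTop (𝓝 0) := by
    intro q
    have hz : Tendsto (w q) atTop (𝓝 0) := by
      refine tendsto_const_nhds.congr' ?_
      by_cases hq : q.1 = q.2
      · exact Eventually.of_forall fun n => by simp [hw, hq]
      · rcases lt_or_gt_of_ne (fun h => hq (hinj h) : c q.1 ≠ c q.2) with hlt | hlt
        · filter_upwards [gap_inf (hc q.1) hlt D] with n hn
          simp only [hw]
          rw [if_neg]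
          rintro ⟨_, h⟩
          rw [abs_sub_comm, abs_lt] at h
          have := h.2
          unfold fsq at this
          omega
        · filter_upwards [gap_inf (hc q.2) hlt D] with n hn
          simp only [hw]
          rw [if_neg]
          rintro ⟨_, h⟩
          rw [abs_lt] at h
          have := h.2
          unfold fsq at this
          omega
    have h1 := (hz.cesaro).comp (tendsto_add_atTop_nat 1)
    refine h1.congr fun N => ?_
    unfold davr
    simp only [Function.comp, Finset.sum_const, Finset.card_range, nsmul_eq_mul]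
    rw [← Finset.mul_sum]
    have h : ((N : ℝ) + 1) ≠ 0 := by positivity
    push_cast
    field_simp
  have tw' : ∀ q, Tendsto (fun N => davr N fun _ m => w q m) atTop (𝓝 0) := by
    intro q
    refine (tw q).congr fun N => ?_
    unfold davr
    rw [Finset.sum_comm]
  have tu : ∀ q, Tendsto (fun N => davr N (u q)) atTop (𝓝 0) := by
    intro q
    rw [Metric.tendsto_nhds]
    intro ε hε
    filter_upwards [sq_unif (hc q.1.2) (ε / 2) (by positivity)] with N hN
    have hN0 : (0 : ℝ) < (N : ℝ) + 1 := by positivity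
    have hnn : 0 ≤ davr N (u q) := by
      have := davr_mono N (F := fun _ _ => (0 : ℝ)) (G := u q) (fun n m => hu0 q n m)
      rwa [davr_const] at this
    rw [Real.dist_eq, sub_zero, abs_of_nonneg hnn]
    have h1 : ∑ n ∈ Finset.range (N + 1), ∑ m ∈ Finset.range (N + 1), u q n m ≤
        ((N : ℝ) + 1) * (ε / 2 * ((N : ℝ) + 1)) := by
      have h2 : ∀ n ∈ Finset.range (N + 1), ∑ m ∈ Finset.range (N + 1), u q n m ≤ ε / 2 * ((N : ℝ) + 1) := by
        intro n _
        simp only [hu, Finset.sum_boole]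
        exact hN (fsq c q.1.1 n + q.2)
      refine (Finset.sum_le_sum h2).trans ?_
      rw [Finset.sum_const, Finset.card_range, nsmul_eq_mul]
      push_cast
      exact le_rfl
    calc davr N (u q) ≤ (((N : ℝ) + 1) ^ 2)⁻¹ * (((N : ℝ) + 1) * (ε / 2 * ((N : ℝ) + 1))) := by
          unfold davr
          gcongr
      _ = ε / 2 := by field_simp
      _ < ε := by linarith
  have hlim : Tendsto (fun N => ∑ q : Fin k × Fin k, davr N (fun n _ => w q n) +
      ∑ q : Fin k × Fin k, davr N (fun _ m => w q m) + ∑ q ∈ S, davr N (u q)) atTop (𝓝 0) := by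
    have a1 := tendsto_finsetSum (Finset.univ : Finset (Fin k × Fin k)) fun q _ => tw q
    have a2 := tendsto_finsetSum (Finset.univ : Finset (Fin k × Fin k)) fun q _ => tw' q
    have a3 := tendsto_finsetSum S fun q _ => tu q
    have := (a1.add a2).add a3
    simpa using this
  refine squeeze_zero (fun N => ?_) (fun N => ?_) hlim
  · have := davr_mono N (F := fun _ _ => (0 : ℝ)) (G := fun n m => (if ∃ i j : Fin k ⊕ Fin k, i ≠ j ∧
      |cc (fsq c) n m i - cc (fsq c) n m j| < D then (1 : ℝ) else 0)) (fun n m => by split_ifs <;> norm_num)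
    rwa [davr_const] at this
  · have h1 := davr_mono N hbound
    rw [davr_add, davr_add, davr_sum, davr_sum, davr_sum] at h1
    exact h1

end Pool.Agent.N224.PJ
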