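import Pool.Agent.N224.PJ.Sys

set_option autoImplicit false

/-!
# Weak limits of measures on a product with given marginals, and the averaged off-diagonal measures
-/

open MeasureTheory Filter Topology
open scoped InnerProductSpace ENNReal

noncomputable section

namespace Pool.Agent.N224.PJ

open SM345.SPA (TT)

section lim

variable {X : Type} [TopologicalSpace X] [PolishSpace X] [CompactSpace X] [MeasurableSpace X] [BorelSpace X]
  {ι : Type} [Fintype ι] {μ : Measure X} [IsProbabilityMeasure μ]

/-- replacing one factor -/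
theorem replace_one [DecidableEq ι] (Q : Measure (ι → X)) [IsProbabilityMeasure Q] (i : ι)
    (hQ : Q.map (fun x => x i) = μ) (f : ι → X → ℂ) (hf : ∀ j, Measurable (f j)) (C : ι → ℝ)
    (hC : ∀ j x, ‖f j x‖ ≤ C j) (g : X → ℂ) (hg : Measurable g) (D : ℝ) (hgD : ∀ x, ‖g x‖ ≤ D) :
    ‖∫ x, ∏ j, f j (x j) ∂Q - ∫ x, ∏ j, Function.update f i g j (x j) ∂Q‖ ≤
      (∏ j ∈ Finset.univ.erase i, C j) * ∫ x, ‖f i x - g x‖ ∂μ := by
  have hC0 : ∀ j, 0 ≤ C j := fun j => by
    obtain ⟨x⟩ : Nonempty (ι → X) := Q.nonempty_of_neZero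
    exact (norm_nonneg _).trans (hC j (x j))
  have hD0 : 0 ≤ D := by
    obtain ⟨x⟩ : Nonempty (ι → X) := Q.nonempty_of_neZero
    exact (norm_nonneg _).trans (hgD (x i))
  have hupd : ∀ j, Measurable (Function.update f i g j) := by
    intro j
    by_cases h : j = i
    · subst h; rw [Function.update_self]; exact hg
    · rw [Function.update_of_ne h]; exact hf j
  have hm1 : Measurable fun x : ι → X => ∏ j, f j (x j) :=
    Finset.measurable_prod _ fun j _ => (hf j).comp (measurable_pi_apply j)
  have hm2 : Measurable fun x : ι → X => ∏ j, Function.update f i g j (x j) :=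
    Finset.measurable_prod _ fun j _ => (hupd j).comp (measurable_pi_apply j)
  have hi1 : Integrable (fun x : ι → X => ∏ j, f j (x j)) Q := by
    refine (MemLp.of_bound (p := 1) hm1.aestronglyMeasurable (∏ j, C j) (Eventually.of_forall fun x => ?_)).integrable
      le_rfl
    rw [norm_prod]
    exact Finset.prod_le_prod (fun _ _ => norm_nonneg _) fun j _ => hC j _
  have hi2 : Integrable (fun x : ι → X => ∏ j, Function.update f i g j (x j)) Q := by
    refine (MemLp.of_bound (p := 1) hm2.aestronglyMeasurable (∏ j, (C j + D))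
      (Eventually.of_forall fun x => ?_)).integrable le_rfl
    rw [norm_prod]
    refine Finset.prod_le_prod (fun _ _ => norm_nonneg _) fun j _ => ?_
    by_cases h : j = i
    · subst h; rw [Function.update_self]; linarith [hgD (x j), hC0 j]
    · rw [Function.update_of_ne h]; linarith [hC j (x j)]
  rw [← integral_sub hi1 hi2]
  have hdi : Integrable (fun x => ‖f i x - g x‖) μ := by
    refine (MemLp.of_bound (p := 1) ((hf i).sub hg).norm.aestronglyMeasurable (C i + D)
      (Eventually.of_forall fun x => ?_)).integrable le_rfl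
    show ‖‖f i x - g x‖‖ ≤ _
    rw [norm_norm]
    exact (norm_sub_le _ _).trans (by linarith [hC i x, hgD x])
  have hdQ : Integrable (fun x : ι → X => ‖f i (x i) - g (x i)‖) Q := by
    rw [← hQ] at hdi
    exact (integrable_map_measure hdi.aestronglyMeasurable (measurable_pi_apply i).aemeasurable).1 hdi
  have h1 : ∀ x : ι → X, ‖∏ j, f j (x j) - ∏ j, Function.update f i g j (x j)‖ ≤
      (∏ j ∈ Finset.univ.erase i, C j) * ‖f i (x i) - g (x i)‖ := by
    intro x
    rw [← Finset.mul_prod_erase Finset.univ (fun j => f j (x j)) (Finset.mem_univ i),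
      ← Finset.mul_prod_erase Finset.univ (fun j => Function.update f i g j (x j)) (Finset.mem_univ i),
      Function.update_self]
    have h2 : ∏ j ∈ Finset.univ.erase i, Function.update f i g j (x j) =
        ∏ j ∈ Finset.univ.erase i, f j (x j) := by
      refine Finset.prod_congr rfl fun j hj => ?_
      rw [Function.update_of_ne (Finset.ne_of_mem_erase hj)]
    rw [h2, ← sub_mul, norm_mul, mul_comm]
    gcongr
    rw [norm_prod]
    exact Finset.prod_le_prod (fun _ _ => norm_nonneg _) fun j _ => hC j _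
  refine (norm_integral_le_integral_norm _).trans ?_
  refine (integral_mono (hi1.sub hi2).norm (hdQ.const_mul _) h1).trans ?_
  rw [integral_const_mul]
  refine le_of_eq ?_
  congr 1
  rw [← hQ, integral_map (measurable_pi_apply i).aemeasurable]
  exact ((hf i).sub hg).norm.aestronglyMeasurable

theorem prod_limit_aux [DecidableEq ι] {𝒰 : Filter ℕ} (P : ℕ → ProbabilityMeasure (ι → X))
    (ν : ProbabilityMeasure (ι → X))
    (hP : Tendsto P 𝒰 (𝓝 ν)) (hm : ∀ N i, (P N : Measure (ι → X)).map (fun x => x i) = μ)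
    (hν : ∀ i, (ν : Measure (ι → X)).map (fun x => x i) = μ) (s : Finset ι) :
    ∀ f : ι → X → ℂ, (∀ i, Measurable (f i)) → (∀ i, ∃ C : ℝ, ∀ x, ‖f i x‖ ≤ C) → (∀ i ∉ s, Continuous (f i)) →
    Tendsto (fun N => ∫ x, ∏ i, f i (x i) ∂(P N : Measure (ι → X))) 𝒰
      (𝓝 (∫ x, ∏ i, f i (x i) ∂(ν : Measure (ι → X)))) := by
  induction s using Finset.induction with
  | empty =>
    intro f _ _ hc
    have hc' : Continuous fun x : ι → X => ∏ i, f i (x i) :=
      continuous_finset_prod _ fun i _ => (hc i (by simp)).comp (continuous_apply i)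
    have h1 := (ProbabilityMeasure.tendsto_iff_forall_integral_rclike_tendsto ℂ).1 hP
      (BoundedContinuousFunction.mkOfCompact ⟨_, hc'⟩)
    exact h1
  | insert i s his ih =>
    intro f hf hb hc
    choose C hC using hb
    set C' : ι → ℝ := fun j => max (C j) 1 with hC'
    have hC1 : ∀ j x, ‖f j x‖ ≤ C' j := fun j x => (hC j x).trans (le_max_left _ _)
    set K : ℝ := ∏ j ∈ Finset.univ.erase i, C' j with hK
    have hK0 : 0 < K := Finset.prod_pos fun j _ => lt_of_lt_of_le one_pos (le_max_right _ _)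
    have hfi : Integrable (f i) μ := (MemLp.of_bound (p := 1) (hf i).aestronglyMeasurable (C i)
      (Eventually.of_forall (hC i))).integrable le_rfl
    rw [Metric.tendsto_nhds]
    intro ε hε
    obtain ⟨g, hg1, hg2⟩ := hfi.exists_boundedContinuous_integral_sub_le (ε := ε / (4 * K)) (by positivity)
    have hgm : Measurable g := g.continuous.measurable
    have hgD : ∀ x, ‖g x‖ ≤ ‖g‖ := g.norm_coe_le_norm
    have hih := ih (Function.update f i g) (by
        intro j
        by_cases h : j = i
        · subst h; rw [Function.update_self]; exact hgm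
        · rw [Function.update_of_ne h]; exact hf j) (by
        intro j
        by_cases h : j = i
        · subst h; rw [Function.update_self]; exact ⟨_, hgD⟩
        · rw [Function.update_of_ne h]; exact ⟨_, hC j⟩) (by
        intro j hj
        by_cases h : j = i
        · subst h; rw [Function.update_self]; exact g.continuous
        · rw [Function.update_of_ne h]; exact hc j (by simp [h, hj]))
    rw [Metric.tendsto_nhds] at hih
    filter_upwards [hih (ε / 2) (by positivity)] with N hN
    have e1 := replace_one (μ := μ) (P N : Measure (ι → X)) i (hm N i) f hf C' hC1 g hgm _ hgD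
    have e2 := replace_one (μ := μ) (ν : Measure (ι → X)) i (hν i) f hf C' hC1 g hgm _ hgD
    have e3 : K * ∫ x, ‖f i x - g x‖ ∂μ ≤ ε / 4 := by
      calc K * ∫ x, ‖f i x - g x‖ ∂μ ≤ K * (ε / (4 * K)) := by gcongr
        _ = ε / 4 := by field_simp
    rw [← hK] at e1 e2
    rw [dist_eq_norm] at hN ⊢
    set a1 := ∫ x, ∏ i, f i (x i) ∂(P N : Measure (ι → X))
    set a2 := ∫ x, ∏ i, f i (x i) ∂(ν : Measure (ι → X))
    set b1 := ∫ x, ∏ j, Function.update f i g j (x j) ∂(P N : Measure (ι → X))
    set b2 := ∫ x, ∏ j, Function.update f i g j (x j) ∂(ν : Measure (ι → X))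
    have e4 : a1 - a2 = (a1 - b1) + (b1 - b2) - (a2 - b2) := by ring
    rw [e4]
    refine (norm_sub_le _ _).trans_lt ?_
    have := norm_add_le (a1 - b1) (b1 - b2)
    linarith

/-- the integrals of products of bounded measurable functions of one coordinate converge -/
theorem prod_limit {𝒰 : Filter ℕ} (P : ℕ → ProbabilityMeasure (ι → X))
    (ν : ProbabilityMeasure (ι → X))
    (hP : Tendsto P 𝒰 (𝓝 ν)) (hm : ∀ N i, (P N : Measure (ι → X)).map (fun x => x i) = μ)
    (hν : ∀ i, (ν : Measure (ι → X)).map (fun x => x i) = μ)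
    (f : ι → X → ℂ) (hf : ∀ i, Measurable (f i)) (hb : ∀ i, ∃ C : ℝ, ∀ x, ‖f i x‖ ≤ C) :
    Tendsto (fun N => ∫ x, ∏ i, f i (x i) ∂(P N : Measure (ι → X))) 𝒰
      (𝓝 (∫ x, ∏ i, f i (x i) ∂(ν : Measure (ι → X)))) := by
  classical
  exact prod_limit_aux P ν hP hm hν Finset.univ f hf hb (by simp)

/-- the marginals of the limit -/
theorem marg_limit {𝒰 : Filter ℕ} [𝒰.NeBot] (P : ℕ → ProbabilityMeasure (ι → X))
    (ν : ProbabilityMeasure (ι → X))
    (hP : Tendsto P 𝒰 (𝓝 ν)) (hm : ∀ N i, (P N : Measure (ι → X)).map (fun x => x i) = μ) (i : ι) :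
    (ν : Measure (ι → X)).map (fun x => x i) = μ := by
  have hpi : Measurable fun x : ι → X => x i := measurable_pi_apply i
  have : IsProbabilityMeasure ((ν : Measure (ι → X)).map (fun x => x i)) :=
    Measure.isProbabilityMeasure_map hpi.aemeasurable
  refine ext_of_forall_integral_eq_of_IsFiniteMeasure fun f => ?_
  have h1 := ProbabilityMeasure.tendsto_iff_forall_integral_tendsto.1 hP
    (f.compContinuous ⟨fun x : ι → X => x i, continuous_apply i⟩)
  have h2 : ∀ N, ∫ x, (f.compContinuous ⟨fun x : ι → X => x i, continuous_apply i⟩) x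
      ∂(P N : Measure (ι → X)) = ∫ x, f x ∂μ := by
    intro N
    rw [← hm N i, integral_map hpi.aemeasurable f.continuous.aestronglyMeasurable]
    rfl
  simp only [h2] at h1
  have h3 := tendsto_nhds_unique tendsto_const_nhds h1
  rw [h3, integral_map hpi.aemeasurable f.continuous.aestronglyMeasurable]
  rfl

end lim

section off

variable {X : Type} [MeasurableSpace X] {μ : Measure X} [IsProbabilityMeasure μ] {T : Equiv.Perm X}
  {ℓ : ℕ} (a : Fin ℓ → ℕ → ℤ)

/-- the exponents -/
def cc (n m : ℕ) : Fin ℓ ⊕ Fin ℓ → ℤ := Sum.elim (fun j => a j n) (fun j => a j m)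

/-- the off-diagonal maps -/
def offd (T : Equiv.Perm X) (n m : ℕ) (x : X) : Fin ℓ ⊕ Fin ℓ → X := fun i => (T ^ cc a n m i : Equiv.Perm X) x

theorem offd_meas (hT : MeasurePreserving T μ μ) (hs : Measurable T.symm) (n m : ℕ) :
    Measurable (offd a T n m) :=
  measurable_pi_lambda _ fun i => (mp_zpow hT hs _).measurable

/-- the averages of the off-diagonal measures -/
def PP (μ : Measure X) (T : Equiv.Perm X) (N : ℕ) : Measure (Fin ℓ ⊕ Fin ℓ → X) :=
  (((N : ℝ≥0∞) + 1) ^ 2)⁻¹ • ∑ n ∈ Finset.range (N + 1), ∑ m ∈ Finset.range (N + 1), μ.map (offd a T n m)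

theorem PP_apply (N : ℕ) (B : Set (Fin ℓ ⊕ Fin ℓ → X)) : PP a μ T N B =
    (((N : ℝ≥0∞) + 1) ^ 2)⁻¹ * ∑ n ∈ Finset.range (N + 1), ∑ m ∈ Finset.range (N + 1),
      μ.map (offd a T n m) B := by
  unfold PP
  rw [Measure.smul_apply, smul_eq_mul, Measure.finsetSum_apply]
  simp only [Measure.finsetSum_apply]

theorem avg_const (N : ℕ) (c : ℝ≥0∞) : (((N : ℝ≥0∞) + 1) ^ 2)⁻¹ * ∑ _n ∈ Finset.range (N + 1),
    ∑ _m ∈ Finset.range (N + 1), c = c := by
  simp only [Finset.sum_const, Finset.card_range, nsmul_eq_mul]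
  have h1 : ((N + 1 : ℕ) : ℝ≥0∞) = (N : ℝ≥0∞) + 1 := by push_cast; ring
  rw [h1, ← mul_assoc, ← mul_assoc, mul_assoc (_)⁻¹, ← sq, ENNReal.inv_mul_cancel, one_mul]
  · positivity
  · exact ENNReal.pow_ne_top (by simp)

theorem PP_prob (hT : MeasurePreserving T μ μ) (hs : Measurable T.symm) (N : ℕ) :
    IsProbabilityMeasure (PP a μ T N) := by
  constructor
  rw [PP_apply]
  have h : ∀ n m, μ.map (offd a T n m) Set.univ = 1 := by
    intro n m
    rw [Measure.map_apply (offd_meas a hT hs n m) MeasurableSet.univ, Set.preimage_univ, measure_univ]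
  simp only [h]
  exact avg_const N 1

theorem PP_marg (hT : MeasurePreserving T μ μ) (hs : Measurable T.symm) (N : ℕ) (i : Fin ℓ ⊕ Fin ℓ) :
    (PP a μ T N).map (fun x => x i) = μ := by
  ext A hA
  rw [Measure.map_apply (measurable_pi_apply i) hA, PP_apply]
  have h : ∀ n m, μ.map (offd a T n m) ((fun x => x i) ⁻¹' A) = μ A := by
    intro n m
    rw [Measure.map_apply (offd_meas a hT hs n m) (measurable_pi_apply i hA)]
    exact (mp_zpow hT hs (cc a n m i)).measure_preimage hA.nullMeasurableSet
  simp only [h]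
  exact avg_const N _

theorem PP_inv (hT : MeasurePreserving T μ μ) (hs : Measurable T.symm) (N : ℕ) {B : Set (Fin ℓ ⊕ Fin ℓ → X)}
    (hB : MeasurableSet B) : PP a μ T N ((fun x i => T (x i)) ⁻¹' B) = PP a μ T N B := by
  have hTm : Measurable fun (x : Fin ℓ ⊕ Fin ℓ → X) i => T (x i) :=
    measurable_pi_lambda _ fun i => hT.measurable.comp (measurable_pi_apply i)
  rw [PP_apply, PP_apply]
  congr 1
  refine Finset.sum_congr rfl fun n _ => Finset.sum_congr rfl fun m _ => ?_
  rw [Measure.map_apply (offd_meas a hT hs n m) (hTm hB), Measure.map_apply (offd_meas a hT hs n m) hB,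
    ← hT.measure_preimage ((offd_meas a hT hs n m) hB).nullMeasurableSet]
  congr 1
  ext x
  simp only [Set.mem_preimage]
  have : (fun i => T (offd a T n m x i)) = offd a T n m (T x) := by
    funext i
    unfold offd
    have h1 : T * T ^ cc a n m i = T ^ cc a n m i * T := by
      rw [← zpow_one_add, ← zpow_add_one, add_comm]
    exact congrArg (fun S : Equiv.Perm X => S x) h1
  rw [this]

theorem int_PP (hT : MeasurePreserving T μ μ) (hs : Measurable T.symm) (N : ℕ) (F : (Fin ℓ ⊕ Fin ℓ → X) → ℂ)
    (hF : Measurable F) (C : ℝ) (hC : ∀ x, ‖F x‖ ≤ C) :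
    ∫ y, F y ∂(PP a μ T N) = dav N fun n m => ∫ x, F (offd a T n m x) ∂μ := by
  unfold PP dav
  have hp : ∀ n m, IsProbabilityMeasure (μ.map (offd a T n m)) := fun n m =>
    Measure.isProbabilityMeasure_map (offd_meas a hT hs n m).aemeasurable
  have hi : ∀ n m, Integrable F (μ.map (offd a T n m)) := fun n m =>
    (MemLp.of_bound (p := 1) hF.aestronglyMeasurable C (Eventually.of_forall hC)).integrable le_rfl
  rw [integral_smul_measure, integral_finsetSum_measure]
  · have h1 : ((((N : ℝ≥0∞) + 1) ^ 2)⁻¹).toReal = (((N : ℝ) + 1) ^ 2)⁻¹ := by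
      rw [ENNReal.toReal_inv, ENNReal.toReal_pow, ENNReal.toReal_add (by simp) (by simp)]
      simp
    rw [h1, Complex.real_smul]
    push_cast
    congr 1
    refine Finset.sum_congr rfl fun n _ => ?_
    rw [integral_finsetSum_measure fun m _ => hi n m]
    refine Finset.sum_congr rfl fun m _ => ?_
    rw [integral_map (offd_meas a hT hs n m).aemeasurable hF.aestronglyMeasurable]
  · intro n _
    exact integrable_finsetSum_measure.2 fun m _ => hi n m

end off

end Pool.Agent.N224.PJ
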