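import Pool.Agent.N224.PJ.Wk

set_option autoImplicit false

/-!
# The limits of the averaged off-diagonal measures are nearly independent self-joinings
-/

open MeasureTheory Filter Topology
open scoped InnerProductSpace ENNReal

noncomputable section

namespace Pool.Agent.N224.PJ

open SM345.SPA (TT)

/-- nearly independent self-joinings -/
structure NI {X : Type} [MeasurableSpace X] (μ : Measure X) (T : Equiv.Perm X) {ι : Type} [Fintype ι]
    (ν : Measure (ι → X)) : Prop where
  prob : IsProbabilityMeasure ν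
  marg : ∀ i, ν.map (fun x => x i) = μ
  inv : ν.map (fun x i => T (x i)) = ν
  pair : ∀ i j, i ≠ j → ν.map (fun x => (x i, x j)) = μ.prod μ
  eig : ∀ (φ : ι → X → ℂ) (t : ι → ℝ), (∀ i, Measurable (φ i)) → (∀ i x, ‖φ i x‖ ≤ 1) →
    (∀ i, ∀ᵐ x ∂μ, φ i (T x) = Complex.exp (2 * (Real.pi : ℂ) * Complex.I * (t i : ℂ)) * φ i x) →
    (∃ i, Int.fract (t i) ≠ 0) → ∫ x, ∏ i, φ i (x i) ∂ν = 0

section main

variable {X : Type} [TopologicalSpace X] [PolishSpace X] [CompactSpace X] [MeasurableSpace X] [BorelSpace X]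
  {μ : Measure X} [IsProbabilityMeasure μ] {T : Equiv.Perm X} {ℓ : ℕ} {a : Fin ℓ → ℕ → ℤ}

omit [TopologicalSpace X] [PolishSpace X] [CompactSpace X] [BorelSpace X] [IsProbabilityMeasure μ] in
/-- the measure of a box as an integral of a product -/
theorem box_int {ι : Type} [Fintype ι] (Q : Measure (ι → X)) [IsProbabilityMeasure Q] (A : ι → Set X)
    (hA : ∀ i, MeasurableSet (A i)) :
    ∫ x, ∏ i, (A i).indicator (fun _ => (1 : ℂ)) (x i) ∂Q = ((Q.real (Set.univ.pi A) : ℝ) : ℂ) := by
  classical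
  have h1 : ∀ x : ι → X, ∏ i, (A i).indicator (fun _ => (1 : ℂ)) (x i) =
      (Set.univ.pi A).indicator (fun _ => (1 : ℂ)) x := by
    intro x
    by_cases hx : x ∈ Set.univ.pi A
    · rw [Set.indicator_of_mem hx]
      refine Finset.prod_eq_one fun i _ => ?_
      rw [Set.indicator_of_mem (hx i (Set.mem_univ i))]
    · rw [Set.indicator_of_notMem hx]
      simp only [Set.mem_univ_pi, not_forall] at hx
      obtain ⟨i, hi⟩ := hx
      exact Finset.prod_eq_zero (Finset.mem_univ i) (Set.indicator_of_notMem hi _)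
  simp only [h1]
  rw [integral_indicator (MeasurableSet.univ_pi hA), integral_const]
  simp

omit [TopologicalSpace X] [PolishSpace X] [CompactSpace X] [BorelSpace X] in
theorem int_PP_prod (hT : MeasurePreserving T μ μ) (hs : Measurable T.symm) (N : ℕ)
    (f : Fin ℓ ⊕ Fin ℓ → X → ℂ) (hf : ∀ i, Measurable (f i)) (hb : ∀ i, ∃ C : ℝ, ∀ x, ‖f i x‖ ≤ C) :
    ∫ x, ∏ i, f i (x i) ∂(PP a μ T N) = dav N fun n m => ∫ x, ∏ i, f i (offd a T n m x i) ∂μ := by
  choose C hC using hb
  refine int_PP a hT hs N (fun x => ∏ i, f i (x i)) (Finset.measurable_prod _ fun l _ =>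
      (hf l).comp (measurable_pi_apply l)) (∏ i, C i) fun x => ?_
  rw [norm_prod]
  exact Finset.prod_le_prod (fun _ _ => norm_nonneg _) fun l _ => hC l _

omit [TopologicalSpace X] [PolishSpace X] [CompactSpace X] [MeasurableSpace X] [BorelSpace X] in
/-- the hypotheses on bounded measurable families in the form used -/
theorem ind_bd {ι : Type} (A : ι → Set X) (i : ι) : ∃ C : ℝ, ∀ x, ‖(A i).indicator (fun _ => (1 : ℂ)) x‖ ≤ C := by
  refine ⟨1, fun x => ?_⟩
  by_cases hx : x ∈ A i
  · rw [Set.indicator_of_mem hx]; simp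
  · rw [Set.indicator_of_notMem hx]; simp

theorem limit_nearly (ha : GE a) (hT : Ergodic T μ) (hs : Measurable T.symm) {𝒰 : Filter ℕ} [𝒰.NeBot]
    (h𝒰 : 𝒰 ≤ atTop) (P : ℕ → ProbabilityMeasure (Fin ℓ ⊕ Fin ℓ → X))
    (hPP : ∀ N, (P N : Measure (Fin ℓ ⊕ Fin ℓ → X)) = PP a μ T N)
    (ν : ProbabilityMeasure (Fin ℓ ⊕ Fin ℓ → X)) (hP : Tendsto P 𝒰 (𝓝 ν)) :
    NI μ T (ν : Measure (Fin ℓ ⊕ Fin ℓ → X)) := by
  classical
  have hmp := hT.toMeasurePreserving
  have hm : ∀ N i, (P N : Measure (Fin ℓ ⊕ Fin ℓ → X)).map (fun x => x i) = μ := by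
    intro N i
    rw [hPP]
    exact PP_marg a hmp hs N i
  have hν : ∀ i, (ν : Measure (Fin ℓ ⊕ Fin ℓ → X)).map (fun x => x i) = μ := marg_limit P ν hP hm
  have hlim := prod_limit P ν hP hm hν
  have hTm : Measurable fun (x : Fin ℓ ⊕ Fin ℓ → X) i => T (x i) :=
    measurable_pi_lambda _ fun i => hmp.measurable.comp (measurable_pi_apply i)
  -- the values on boxes
  have hbox : ∀ A : Fin ℓ ⊕ Fin ℓ → Set X, (∀ i, MeasurableSet (A i)) →
      Tendsto (fun N => (((P N : Measure (Fin ℓ ⊕ Fin ℓ → X)).real (Set.univ.pi A) : ℝ) : ℂ)) 𝒰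
        (𝓝 (((ν : Measure (Fin ℓ ⊕ Fin ℓ → X)).real (Set.univ.pi A) : ℝ) : ℂ)) := by
    intro A hA
    have h1 := hlim (fun i => (A i).indicator (fun _ => (1 : ℂ)))
      (fun i => measurable_const.indicator (hA i)) (fun i => ind_bd A i)
    rw [box_int _ A hA] at h1
    refine h1.congr fun N => box_int _ A hA
  refine ⟨inferInstance, hν, ?_, ?_, ?_⟩
  · -- invariance
    have hp : IsProbabilityMeasure ((ν : Measure (Fin ℓ ⊕ Fin ℓ → X)).map
      (fun (x : Fin ℓ ⊕ Fin ℓ → X) i => T (x i))) := Measure.isProbabilityMeasure_map hTm.aemeasurable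
    refine ext_of_generate_finite _ generateFrom_pi.symm (isPiSystem_pi) ?_ ?_
    · rintro B ⟨A, hA, rfl⟩
      have hA' : ∀ i, MeasurableSet (A i) := fun i => hA i (Set.mem_univ i)
      rw [Measure.map_apply hTm (MeasurableSet.univ_pi hA')]
      have hpre : (fun (x : Fin ℓ ⊕ Fin ℓ → X) i => T (x i)) ⁻¹' Set.univ.pi A =
          Set.univ.pi fun i => T ⁻¹' (A i) := by
        ext x
        simp
      have h1 := hbox (fun i => T ⁻¹' (A i)) fun i => hmp.measurable (hA' i)
      have h2 := hbox A hA'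
      have h3 : ∀ N, (P N : Measure (Fin ℓ ⊕ Fin ℓ → X)).real (Set.univ.pi fun i => T ⁻¹' (A i)) =
          (P N : Measure (Fin ℓ ⊕ Fin ℓ → X)).real (Set.univ.pi A) := by
        intro N
        rw [← hpre, measureReal_def, measureReal_def, hPP, PP_inv a hmp hs N (MeasurableSet.univ_pi hA')]
      simp only [h3] at h1
      have h4 := tendsto_nhds_unique h1 h2
      rw [hpre]
      have h5 : (ν : Measure (Fin ℓ ⊕ Fin ℓ → X)).real (Set.univ.pi fun i => T ⁻¹' (A i)) =
          (ν : Measure (Fin ℓ ⊕ Fin ℓ → X)).real (Set.univ.pi A) := by exact_mod_cast h4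
      rwa [measureReal_def, measureReal_def, ENNReal.toReal_eq_toReal_iff' (measure_ne_top _ _)
        (measure_ne_top _ _)] at h5
    · rw [measure_univ, measure_univ]
  · -- pair independence
    intro i j hij
    have hpm : Measurable fun x : Fin ℓ ⊕ Fin ℓ → X => (x i, x j) :=
      (measurable_pi_apply i).prodMk (measurable_pi_apply j)
    have hp : IsProbabilityMeasure ((ν : Measure (Fin ℓ ⊕ Fin ℓ → X)).map (fun x => (x i, x j))) :=
      Measure.isProbabilityMeasure_map hpm.aemeasurable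
    refine (Measure.prod_eq fun s t hsm htm => ?_).symm
    rw [Measure.map_apply hpm (hsm.prod htm)]
    set A : Fin ℓ ⊕ Fin ℓ → Set X := fun l => if l = i then s else if l = j then t else Set.univ with hA
    have hAm : ∀ l, MeasurableSet (A l) := by
      intro l
      simp only [hA]
      split_ifs
      · exact hsm
      · exact htm
      · exact MeasurableSet.univ
    have hpre : (fun x : Fin ℓ ⊕ Fin ℓ → X => (x i, x j)) ⁻¹' s ×ˢ t = Set.univ.pi A := by
      ext x
      simp only [Set.mem_preimage, Set.mem_prod, Set.mem_univ_pi, hA]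
      constructor
      · rintro ⟨h1, h2⟩ l
        split_ifs with h3 h4
        · rw [h3]; exact h1
        · rw [h4]; exact h2
        · trivial
      · intro h
        refine ⟨by simpa using h i, ?_⟩
        have := h j
        simpa [hij.symm] using this
    have h1 := hbox A hAm
    have h2 := corr_fun hT hs (f := s.indicator (fun _ => (1 : ℂ))) (g := t.indicator (fun _ => (1 : ℂ)))
      (measurable_const.indicator hsm) (measurable_const.indicator htm) (C := 1) (D := 1)
      (fun x => by by_cases hx : x ∈ s <;> simp [hx]) (fun x => by by_cases hx : x ∈ t <;> simp [hx])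
      (fun n m => cc a n m j - cc a n m i) (fun θ hθ => lemk a ha hij θ hθ)
    have h3 : ∀ N, (((P N : Measure (Fin ℓ ⊕ Fin ℓ → X)).real (Set.univ.pi A) : ℝ) : ℂ) =
        dav N fun n m => ∫ x, s.indicator (fun _ => (1 : ℂ)) x *
          t.indicator (fun _ => (1 : ℂ)) ((T ^ (cc a n m j - cc a n m i) : Equiv.Perm X) x) ∂μ := by
      intro N
      rw [← box_int _ A hAm, hPP, int_PP_prod hmp hs N (fun l => (A l).indicator (fun _ => (1 : ℂ)))
        (fun l => measurable_const.indicator (hAm l)) (fun l => ind_bd A l)]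
      · congr 1
        funext n m
        have h4 := (mp_zpow hmp hs (cc a n m i))
        have e1 : ∫ x, s.indicator (fun _ => (1 : ℂ)) x *
          t.indicator (fun _ => (1 : ℂ)) ((T ^ (cc a n m j - cc a n m i) : Equiv.Perm X) x) ∂μ =
          ∫ x, s.indicator (fun _ => (1 : ℂ)) ((T ^ cc a n m i : Equiv.Perm X) x) *
          t.indicator (fun _ => (1 : ℂ)) ((T ^ (cc a n m j - cc a n m i) : Equiv.Perm X)
            ((T ^ cc a n m i : Equiv.Perm X) x)) ∂μ :=
          (h4.integral_comp' (f := (⟨T ^ cc a n m i, h4.measurable, by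
            have := (mp_zpow hmp hs (-(cc a n m i))).measurable
            rw [zpow_neg] at this
            exact this⟩ : X ≃ᵐ X)) (fun x => s.indicator (fun _ => (1 : ℂ)) x *
          t.indicator (fun _ => (1 : ℂ)) ((T ^ (cc a n m j - cc a n m i) : Equiv.Perm X) x))).symm
        rw [e1]
        congr 1
        funext x
        have e2 : (T ^ (cc a n m j - cc a n m i) : Equiv.Perm X) ((T ^ cc a n m i : Equiv.Perm X) x) =
            (T ^ cc a n m j : Equiv.Perm X) x := by
          rw [← Equiv.Perm.mul_apply, ← zpow_add, sub_add_cancel]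
        rw [e2]
        rw [Fintype.prod_eq_mul i j hij]
        · simp [hA, hij.symm, offd]
        · rintro l ⟨h5, h6⟩
          simp [hA, h5, h6]
    have h5 := h2.mono_left h𝒰
    have h6 := tendsto_nhds_unique (h1.congr h3) h5
    rw [hpre]
    have h7 : ∀ B : Set X, MeasurableSet B → ∫ x, B.indicator (fun _ => (1 : ℂ)) x ∂μ = ((μ.real B : ℝ) : ℂ) := by
      intro B hB
      rw [integral_indicator hB, integral_const]
      simp
    rw [h7 s hsm, h7 t htm] at h6
    have h8 : (ν : Measure (Fin ℓ ⊕ Fin ℓ → X)).real (Set.univ.pi A) = μ.real s * μ.real t := by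
      exact_mod_cast h6
    rw [measureReal_def, measureReal_def, measureReal_def, ← ENNReal.toReal_mul,
      ENNReal.toReal_eq_toReal_iff' (measure_ne_top _ _) (ENNReal.mul_ne_top (measure_ne_top _ _)
        (measure_ne_top _ _))] at h8
    exact h8
  · -- eigenfunctions
    intro φ t hφ hb hev ht
    have h1 := hlim φ hφ fun i => ⟨1, hb i⟩
    have h2 := lemW a ha t ht
    have h3 : ∀ N, ∫ x, ∏ i, φ i (x i) ∂(P N : Measure (Fin ℓ ⊕ Fin ℓ → X)) =
        (∫ x, ∏ i, φ i x ∂μ) * dav N fun n m =>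
          Complex.exp (2 * (Real.pi : ℂ) * Complex.I * ((∑ i, (cc a n m i : ℝ) * t i : ℝ) : ℂ)) := by
      intro N
      rw [hPP, int_PP_prod hmp hs N φ hφ (fun i => ⟨1, hb i⟩), ← dav_smul]
      · congr 1
        funext n m
        have h4 : ∀ᵐ x ∂μ, ∏ i, φ i (offd a T n m x i) = (∏ i, φ i x) *
            Complex.exp (2 * (Real.pi : ℂ) * Complex.I * ((∑ i, (cc a n m i : ℝ) * t i : ℝ) : ℂ)) := by
          have h5 : ∀ᵐ x ∂μ, ∀ i, φ i ((T ^ cc a n m i : Equiv.Perm X) x) =
              Complex.exp (2 * (Real.pi : ℂ) * Complex.I * ((cc a n m i : ℂ) * (t i : ℂ))) * φ i x :=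
            ae_all_iff.2 fun i => eig_zpow hmp hs (hev i) _
          filter_upwards [h5] with x hx
          have h6 : ∀ i, φ i (offd a T n m x i) =
              Complex.exp (2 * (Real.pi : ℂ) * Complex.I * ((cc a n m i : ℂ) * (t i : ℂ))) * φ i x := hx
          simp only [h6]
          rw [Finset.prod_mul_distrib, ← Complex.exp_sum, mul_comm]
          congr 2
          rw [← Finset.mul_sum]
          push_cast
          rfl
        rw [integral_congr_ae h4, integral_mul_const]
    have h4 := (h2.const_mul (∫ x, ∏ i, φ i x ∂μ)).mono_left h𝒰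
    rw [mul_zero] at h4
    exact tendsto_nhds_unique (h1.congr h3) h4

/-- with property `J` the averaged off-diagonal measures converge to the product measure -/
theorem conv_all (ha : GE a) (hT : Ergodic T μ) (hs : Measurable T.symm)
    (hJ : ∀ ν : Measure (Fin ℓ ⊕ Fin ℓ → X), NI μ T ν → ν = Measure.pi fun _ => μ)
    (f : Fin ℓ ⊕ Fin ℓ → X → ℂ) (hf : ∀ i, Measurable (f i)) (hb : ∀ i, ∃ C : ℝ, ∀ x, ‖f i x‖ ≤ C) :
    Tendsto (fun N => dav N fun n m => ∫ x, ∏ i, f i ((T ^ cc a n m i : Equiv.Perm X) x) ∂μ) atTop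
      (𝓝 (∏ i, ∫ x, f i x ∂μ)) := by
  have hmp := hT.toMeasurePreserving
  have hprob := PP_prob (μ := μ) (T := T) a hmp hs
  let P : ℕ → ProbabilityMeasure (Fin ℓ ⊕ Fin ℓ → X) := fun N => ⟨PP a μ T N, hprob N⟩
  have hm : ∀ N i, (P N : Measure (Fin ℓ ⊕ Fin ℓ → X)).map (fun x => x i) = μ :=
    fun N i => PP_marg a hmp hs N i
  choose C hC using hb
  have h0 : ∀ N, ∫ x, ∏ i, f i (x i) ∂(P N : Measure (Fin ℓ ⊕ Fin ℓ → X)) =
      dav N fun n m => ∫ x, ∏ i, f i ((T ^ cc a n m i : Equiv.Perm X) x) ∂μ := by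
    intro N
    refine int_PP a hmp hs N _ (Finset.measurable_prod _ fun l _ =>
        (hf l).comp (measurable_pi_apply l)) (∏ i, C i) fun x => ?_
    rw [norm_prod]
    exact Finset.prod_le_prod (fun _ _ => norm_nonneg _) fun l _ => hC l _
  rw [tendsto_iff_ultrafilter]
  intro 𝒰 h𝒰
  have hc : CompactSpace (ProbabilityMeasure (Fin ℓ ⊕ Fin ℓ → X)) := inferInstance
  obtain ⟨ν, _, hν⟩ := (isCompact_univ (X := ProbabilityMeasure (Fin ℓ ⊕ Fin ℓ → X))).ultrafilter_le_nhds
    (𝒰.map P) (by simp)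
  have hP : Tendsto P (𝒰 : Filter ℕ) (𝓝 ν) := hν
  have hNI := limit_nearly ha hT hs h𝒰 P (fun N => rfl) ν hP
  have hpi := hJ _ hNI
  have h1 := prod_limit P ν hP hm hNI.marg f hf fun i => ⟨C i, hC i⟩
  rw [hpi] at h1
  have h2 : ∫ x, ∏ i, f i (x i) ∂(Measure.pi fun _ : Fin ℓ ⊕ Fin ℓ => μ) = ∏ i, ∫ x, f i x ∂μ :=
    integral_fintype_prod_eq_prod f
  rw [h2] at h1
  exact h1.congr h0

end main

end Pool.Agent.N224.PJ
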