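import Pool.Agent.N224.PJ.Fin

set_option autoImplicit false

/-!
# The gaps of the off-diagonal measures tend to infinity
-/

open MeasureTheory Filter Topology
open scoped InnerProductSpace ENNReal

noncomputable section

namespace Pool.Agent.N224.PJ

open SM345.SPA (TT)

/-- the value `d` is taken with density zero -/
theorem dens_zero (k : ℕ → ℕ → ℤ)
    (hk : ∀ θ : TT, θ ≠ 0 → Tendsto (fun N => dav N fun n m => (fourier (k n m) θ : ℂ)) atTop (𝓝 0)) (d : ℤ) :
    Tendsto (fun N => dav N fun n m => if k n m = d then (1 : ℂ) else 0) atTop (𝓝 0) := by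
  have hI : ∀ z : ℤ, ∫ t in Set.Ioo (0 : ℝ) 1, Complex.exp (2 * (Real.pi : ℂ) * Complex.I * z * (t : ℂ)) =
      if z = 0 then 1 else 0 := by
    intro z
    by_cases hz : z = 0
    · subst hz
      simp
    · rw [if_neg hz, ← integral_Ioc_eq_integral_Ioo, ← intervalIntegral.integral_of_le zero_le_one]
      have hc : 2 * (Real.pi : ℂ) * Complex.I * z ≠ 0 := by
        have h1 : (z : ℂ) ≠ 0 := by exact_mod_cast hz
        have h2 : (Real.pi : ℂ) ≠ 0 := by exact_mod_cast Real.pi_ne_zero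
        exact mul_ne_zero (mul_ne_zero (mul_ne_zero two_ne_zero h2) Complex.I_ne_zero) h1
      rw [integral_exp_mul_complex hc]
      have h1 : Complex.exp (2 * (Real.pi : ℂ) * Complex.I * z) = 1 := by
        rw [Complex.exp_eq_one_iff]
        exact ⟨z, by ring⟩
      simp [h1]
  have h1 : Tendsto (fun N : ℕ => ∫ t in Set.Ioo (0 : ℝ) 1,
      dav N (fun n m => Complex.exp (2 * (Real.pi : ℂ) * Complex.I * ((k n m - d : ℤ) : ℂ) * (t : ℂ)))) atTop
      (𝓝 (∫ _ in Set.Ioo (0 : ℝ) 1, (0 : ℂ))) := by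
    refine tendsto_integral_of_dominated_convergence (fun _ => (1 : ℝ)) ?_ (integrable_const _) ?_ ?_
    · intro N
      refine Continuous.aestronglyMeasurable ?_
      unfold dav
      fun_prop
    · intro N
      refine Eventually.of_forall fun t => norm_dav_le _ _ _ fun n m => ?_
      have : 2 * (Real.pi : ℂ) * Complex.I * ((k n m - d : ℤ) : ℂ) * (t : ℂ) =
          ((2 * Real.pi * ((k n m - d : ℤ) : ℝ) * t : ℝ) : ℂ) * Complex.I := by push_cast; ring
      rw [this, Complex.norm_exp_ofReal_mul_I]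
    · refine (ae_restrict_mem measurableSet_Ioo).mono fun t ht => ?_
      have hθ : ((t : ℝ) : AddCircle (1 : ℝ)) ≠ 0 := by
        intro h
        rw [AddCircle.coe_eq_zero_iff] at h
        obtain ⟨z, hz⟩ := h
        have h2 : (z : ℝ) = t := by simpa using hz
        rw [← h2] at ht
        have h3 : (0 : ℤ) < z := by exact_mod_cast ht.1
        have h4 : z < 1 := by exact_mod_cast ht.2
        omega
      have h2 := (hk ((t : ℝ) : AddCircle (1 : ℝ)) hθ).const_mul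
        (Complex.exp (-(2 * (Real.pi : ℂ) * Complex.I * (d : ℂ) * (t : ℂ))))
      rw [mul_zero] at h2
      refine h2.congr fun N => ?_
      rw [← dav_smul]
      congr 1
      funext n m
      have e1 : (fourier (k n m) ((t : ℝ) : AddCircle (1 : ℝ)) : ℂ) =
        Complex.exp (2 * Real.pi * Complex.I * ((k n m : ℤ) : ℂ) * t / (1 : ℝ)) := fourier_coe_apply
      rw [e1, ← Complex.exp_add]
      congr 1
      push_cast
      ring
  rw [integral_zero] at h1
  refine h1.congr fun N => ?_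
  have hint : ∀ z : ℤ, IntegrableOn (fun t : ℝ => Complex.exp (2 * (Real.pi : ℂ) * Complex.I * (z : ℂ) * (t : ℂ)))
      (Set.Ioo (0 : ℝ) 1) := by
    intro z
    refine Measure.integrableOn_of_bounded (M := 1) (by simp) ?_ ?_
    · refine Continuous.aestronglyMeasurable ?_
      fun_prop
    · refine Eventually.of_forall fun t => ?_
      have : 2 * (Real.pi : ℂ) * Complex.I * (z : ℂ) * (t : ℂ) =
          ((2 * Real.pi * (z : ℝ) * t : ℝ) : ℂ) * Complex.I := by push_cast; ring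
      rw [this, Complex.norm_exp_ofReal_mul_I]
  unfold dav
  rw [integral_const_mul, integral_finsetSum _ fun n _ => integrable_finsetSum _ fun m _ => hint _]
  congr 1
  refine Finset.sum_congr rfl fun n _ => ?_
  rw [integral_finsetSum _ fun m _ => hint _]
  refine Finset.sum_congr rfl fun m _ => ?_
  rw [hI]
  simp only [sub_eq_zero]

/-- real double averages -/
def davr (N : ℕ) (F : ℕ → ℕ → ℝ) : ℝ :=
  (((N : ℝ) + 1) ^ 2)⁻¹ * ∑ n ∈ Finset.range (N + 1), ∑ m ∈ Finset.range (N + 1), F n m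

theorem davr_mono (N : ℕ) {F G : ℕ → ℕ → ℝ} (h : ∀ n m, F n m ≤ G n m) : davr N F ≤ davr N G := by
  unfold davr
  have h0 : (0 : ℝ) ≤ (((N : ℝ) + 1) ^ 2)⁻¹ := by positivity
  exact mul_le_mul_of_nonneg_left (Finset.sum_le_sum fun n _ => Finset.sum_le_sum fun m _ => h n m) h0

theorem davr_cast (N : ℕ) (F : ℕ → ℕ → ℝ) : ((davr N F : ℝ) : ℂ) = dav N fun n m => ((F n m : ℝ) : ℂ) := by
  unfold davr dav
  push_cast
  rfl

theorem davr_sum {κ : Type} (s : Finset κ) (N : ℕ) (F : κ → ℕ → ℕ → ℝ) :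
    davr N (fun n m => ∑ q ∈ s, F q n m) = ∑ q ∈ s, davr N (F q) := by
  unfold davr
  rw [← Finset.mul_sum]
  congr 1
  rw [Finset.sum_comm]
  simp only [Finset.sum_comm (s := s)]
  rw [Finset.sum_comm]

theorem davr_sub (N : ℕ) (F G : ℕ → ℕ → ℝ) : davr N (fun n m => F n m - G n m) = davr N F - davr N G := by
  unfold davr
  simp only [Finset.sum_sub_distrib]
  ring

theorem abs_davr_le (N : ℕ) (F : ℕ → ℕ → ℝ) : |davr N F| ≤ davr N fun n m => |F n m| := by
  unfold davr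
  have h0 : (0 : ℝ) ≤ (((N : ℝ) + 1) ^ 2)⁻¹ := by positivity
  rw [abs_mul, abs_of_nonneg h0]
  refine mul_le_mul_of_nonneg_left ?_ h0
  exact (Finset.abs_sum_le_sum_abs _ _).trans (Finset.sum_le_sum fun n _ => Finset.abs_sum_le_sum_abs _ _)

section

variable {ℓ : ℕ} {a : Fin ℓ → ℕ → ℤ}

open Classical in
/-- pairs with a small gap have density zero -/
theorem bad_zero (ha : GE a) (D : ℤ) :
    Tendsto (fun N => davr N fun n m =>
      if ∃ i j : Fin ℓ ⊕ Fin ℓ, i ≠ j ∧ |cc a n m i - cc a n m j| < D then (1 : ℝ) else 0) atTop (𝓝 0) := by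
  -- the finite set of (i, j, d)
  let S : Finset ((Fin ℓ ⊕ Fin ℓ) × (Fin ℓ ⊕ Fin ℓ) × ℤ) :=
    ((Finset.univ ×ˢ Finset.univ ×ˢ Finset.Ioo (-D) D).filter fun q => q.1 ≠ q.2.1)
  have h1 : Tendsto (fun N => ∑ q ∈ S, davr N fun n m => if cc a n m q.2.1 - cc a n m q.1 = q.2.2 then (1 : ℝ) else 0)
      atTop (𝓝 (∑ _q ∈ S, (0 : ℝ))) := by
    refine tendsto_finsetSum _ fun q hq => ?_
    have hq' : q.1 ≠ q.2.1 := (Finset.mem_filter.1 hq).2
    have h2 := dens_zero (fun n m => cc a n m q.2.1 - cc a n m q.1) (fun θ hθ => lemk a ha hq' θ hθ) q.2.2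
    have h3 := (Complex.continuous_re.tendsto 0).comp h2
    rw [Complex.zero_re] at h3
    refine h3.congr fun N => ?_
    simp only [Function.comp]
    rw [← Complex.ofReal_re (davr N _), davr_cast]
    congr 2
    funext n m
    split_ifs <;> simp
  rw [Finset.sum_const_zero] at h1
  refine squeeze_zero (fun N => ?_) (fun N => ?_) h1
  · unfold davr
    refine mul_nonneg (by positivity) (Finset.sum_nonneg fun n _ => Finset.sum_nonneg fun m _ => ?_)
    show (0 : ℝ) ≤ if ∃ i j : Fin ℓ ⊕ Fin ℓ, i ≠ j ∧ |cc a n m i - cc a n m j| < D then (1 : ℝ) else 0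
    split_ifs <;> norm_num
  · rw [← davr_sum]
    refine davr_mono N fun n m => ?_
    have hnn : ∀ q ∈ S, (0 : ℝ) ≤ if cc a n m q.2.1 - cc a n m q.1 = q.2.2 then (1 : ℝ) else 0 := by
      intro q _
      split_ifs <;> norm_num
    split_ifs with h
    · obtain ⟨i, j, hij, hlt⟩ := h
      have hmem : (i, j, cc a n m j - cc a n m i) ∈ S := by
        simp only [S, Finset.mem_filter, Finset.mem_product, Finset.mem_univ, true_and, Finset.mem_Ioo]
        rw [abs_lt] at hlt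
        exact ⟨⟨by linarith [hlt.2], by linarith [hlt.1]⟩, hij⟩
      have := Finset.single_le_sum hnn hmem
      simpa using this
    · exact Finset.sum_nonneg hnn

/-- exponents with large gaps -/
theorem exists_gap (D : ℤ) : ∃ c : Fin ℓ ⊕ Fin ℓ → ℤ, ∀ i j, i ≠ j → D ≤ |c i - c j| := by
  let e := Fintype.equivFin (Fin ℓ ⊕ Fin ℓ)
  refine ⟨fun i => |D| * ((e i : ℕ) : ℤ), fun i j hij => ?_⟩
  have h1 : (1 : ℤ) ≤ |((e i : ℕ) : ℤ) - ((e j : ℕ) : ℤ)| := by
    refine Int.one_le_abs ?_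
    intro h
    apply hij
    apply e.injective
    apply Fin.ext
    have : ((e i : ℕ) : ℤ) = ((e j : ℕ) : ℤ) := sub_eq_zero.1 h
    exact_mod_cast this
  rw [← mul_sub, abs_mul, abs_abs]
  nlinarith [le_abs_self D, abs_nonneg D]

end

section main

variable {X : Type} [TopologicalSpace X] [PolishSpace X] [CompactSpace X] [MeasurableSpace X] [BorelSpace X]
  {μ : Measure X} [IsProbabilityMeasure μ] {T : Equiv.Perm X} {ℓ : ℕ} {a : Fin ℓ → ℕ → ℤ}

theorem PP_box (hT : MeasurePreserving T μ μ) (hs : Measurable T.symm) (N : ℕ) (A : Fin ℓ ⊕ Fin ℓ → Set X)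
    (hA : ∀ i, MeasurableSet (A i)) :
    (PP a μ T N).real (Set.univ.pi A) = davr N fun n m => μ.real {x | ∀ i, (T ^ cc a n m i : Equiv.Perm X) x ∈ A i} := by
  have hp := PP_prob (μ := μ) (T := T) a hT hs N
  have h1 := box_int (PP a μ T N) A hA
  rw [int_PP_prod hT hs N (fun l => (A l).indicator (fun _ => (1 : ℂ)))
        (fun l => measurable_const.indicator (hA l)) (fun l => ind_bd A l)] at h1
  have h2 : ∀ n m, ∫ x, ∏ i, (A i).indicator (fun _ => (1 : ℂ)) (offd a T n m x i) ∂μ =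
      ((μ.real {x | ∀ i, (T ^ cc a n m i : Equiv.Perm X) x ∈ A i} : ℝ) : ℂ) := by
    intro n m
    have hp2 : IsProbabilityMeasure (μ.map (offd a T n m)) :=
      Measure.isProbabilityMeasure_map (offd_meas a hT hs n m).aemeasurable
    have h3 := box_int (μ.map (offd a T n m)) A hA
    have hM : Measurable fun x : (Fin ℓ ⊕ Fin ℓ → X) => ∏ i, (A i).indicator (fun _ => (1 : ℂ)) (x i) :=
      Finset.measurable_prod _ fun l _ => (measurable_const.indicator (hA l)).comp (measurable_pi_apply l)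
    rw [integral_map (offd_meas a hT hs n m).aemeasurable hM.aestronglyMeasurable] at h3
    rw [h3, measureReal_def, Measure.map_apply (offd_meas a hT hs n m) (MeasurableSet.univ_pi hA), measureReal_def]
    congr 3
    ext x
    simp [offd]
  simp only [h2] at h1
  rw [← davr_cast] at h1
  exact_mod_cast h1.symm

open Classical in
theorem limit_off (ha : GE a) (hT : MeasurePreserving T μ μ) (hs : Measurable T.symm) {𝒰 : Filter ℕ} [𝒰.NeBot]
    (h𝒰 : 𝒰 ≤ atTop) (P : ℕ → ProbabilityMeasure (Fin ℓ ⊕ Fin ℓ → X))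
    (hPP : ∀ N, (P N : Measure (Fin ℓ ⊕ Fin ℓ → X)) = PP a μ T N)
    (ν : ProbabilityMeasure (Fin ℓ ⊕ Fin ℓ → X)) (hP : Tendsto P 𝒰 (𝓝 ν)) (D : ℤ) (ε : ℝ) (hε : 0 < ε)
    (K : ℕ) (A : Fin K → Fin ℓ ⊕ Fin ℓ → Set X) (hA : ∀ k i, MeasurableSet (A k i)) :
    ∃ (S : Type) (_ : Fintype S) (_ : Nonempty S) (c : S → Fin ℓ ⊕ Fin ℓ → ℤ),
      (∀ s i j, i ≠ j → D ≤ |c s i - c s j|) ∧
      ∀ k, |(ν : Measure (Fin ℓ ⊕ Fin ℓ → X)).real (Set.univ.pi (A k)) -
        (1 / (Fintype.card S : ℝ)) * ∑ s, μ.real {x | ∀ i, (T ^ c s i : Equiv.Perm X) x ∈ A k i}| ≤ ε := by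
  have hm : ∀ N i, (P N : Measure (Fin ℓ ⊕ Fin ℓ → X)).map (fun x => x i) = μ := by
    intro N i
    rw [hPP]
    exact PP_marg a hT hs N i
  have hν : ∀ i, (ν : Measure (Fin ℓ ⊕ Fin ℓ → X)).map (fun x => x i) = μ := marg_limit P ν hP hm
  have hlim := prod_limit P ν hP hm hν
  have hbox : ∀ A : Fin ℓ ⊕ Fin ℓ → Set X, (∀ i, MeasurableSet (A i)) →
      Tendsto (fun N => (PP a μ T N).real (Set.univ.pi A)) 𝒰
        (𝓝 ((ν : Measure (Fin ℓ ⊕ Fin ℓ → X)).real (Set.univ.pi A))) := by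
    intro A hA
    have h1 := hlim (fun i => (A i).indicator (fun _ => (1 : ℂ)))
      (fun i => measurable_const.indicator (hA i)) (fun i => ind_bd A i)
    rw [box_int _ A hA] at h1
    have h2 : Tendsto (fun N => (((PP a μ T N).real (Set.univ.pi A) : ℝ) : ℂ)) 𝒰
        (𝓝 (((ν : Measure (Fin ℓ ⊕ Fin ℓ → X)).real (Set.univ.pi A) : ℝ) : ℂ)) := by
      refine h1.congr fun N => ?_
      rw [box_int _ A hA, hPP]
    have h3 := (Complex.continuous_re.tendsto _).comp h2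
    simpa [Function.comp_def] using h3
  obtain ⟨c0, hc0⟩ := exists_gap (ℓ := ℓ) D
  have hbad := (bad_zero ha D).mono_left h𝒰
  have hev : ∀ᶠ N in 𝒰, (∀ k, |(ν : Measure (Fin ℓ ⊕ Fin ℓ → X)).real (Set.univ.pi (A k)) -
      (PP a μ T N).real (Set.univ.pi (A k))| ≤ ε / 2) ∧ (davr N fun n m =>
      if ∃ i j : Fin ℓ ⊕ Fin ℓ, i ≠ j ∧ |cc a n m i - cc a n m j| < D then (1 : ℝ) else 0) ≤ ε / 2 := by
    refine (eventually_all.2 fun k => ?_).and ?_
    · have h1 := (Metric.tendsto_nhds.1 (hbox (A k) (hA k))) (ε / 2) (by positivity)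
      filter_upwards [h1] with N hN
      rw [Real.dist_eq, abs_sub_comm] at hN
      exact hN.le
    · exact (hbad.eventually_lt_const (by positivity : (0 : ℝ) < ε / 2)).mono fun N hN => hN.le
  obtain ⟨N, hN1, hN2⟩ := hev.exists
  set c' : ℕ → ℕ → Fin ℓ ⊕ Fin ℓ → ℤ := fun n m =>
    if ∃ i j : Fin ℓ ⊕ Fin ℓ, i ≠ j ∧ |cc a n m i - cc a n m j| < D then c0 else cc a n m with hc'
  refine ⟨Fin (N + 1) × Fin (N + 1), inferInstance, inferInstance, fun s => c' s.1 s.2, ?_, ?_⟩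
  · intro s i j hij
    simp only [hc']
    split_ifs with h
    · exact hc0 i j hij
    · push Not at h
      exact h i j hij
  · intro k
    have e1 : (1 / (Fintype.card (Fin (N + 1) × Fin (N + 1)) : ℝ)) * ∑ s : Fin (N + 1) × Fin (N + 1),
        μ.real {x | ∀ i, (T ^ c' s.1 s.2 i : Equiv.Perm X) x ∈ A k i} =
        davr N fun n m => μ.real {x | ∀ i, (T ^ c' n m i : Equiv.Perm X) x ∈ A k i} := by
      unfold davr
      rw [Fintype.sum_prod_type, Fintype.card_prod, Fintype.card_fin, Finset.sum_range]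
      push_cast
      rw [one_div, ← sq]
      congr 1
      refine Finset.sum_congr rfl fun n _ => ?_
      rw [Finset.sum_range]
    rw [e1]
    have e2 : |(PP a μ T N).real (Set.univ.pi (A k)) -
        davr N fun n m => μ.real {x | ∀ i, (T ^ c' n m i : Equiv.Perm X) x ∈ A k i}| ≤ ε / 2 := by
      rw [PP_box hT hs N (A k) (hA k), ← davr_sub]
      refine (abs_davr_le N _).trans (le_trans (davr_mono N fun n m => ?_) hN2)
      simp only [hc']
      split_ifs with h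
      · have b1 : (0 : ℝ) ≤ μ.real {x | ∀ i, (T ^ cc a n m i : Equiv.Perm X) x ∈ A k i} := measureReal_nonneg
        have b2 : μ.real {x | ∀ i, (T ^ cc a n m i : Equiv.Perm X) x ∈ A k i} ≤ 1 := measureReal_le_one
        have b3 : (0 : ℝ) ≤ μ.real {x | ∀ i, (T ^ c0 i : Equiv.Perm X) x ∈ A k i} := measureReal_nonneg
        have b4 : μ.real {x | ∀ i, (T ^ c0 i : Equiv.Perm X) x ∈ A k i} ≤ 1 := measureReal_le_one
        rw [abs_le]
        constructor <;> linarith
      · simp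
    have e3 := hN1 k
    rw [abs_le] at e2 e3 ⊢
    constructor <;> linarith [e2.1, e2.2, e3.1, e3.2]

/-- the condition on limits of off-diagonals -/
def OffLim {X : Type} [MeasurableSpace X] (μ : Measure X) (T : Equiv.Perm X) {ι : Type} [Fintype ι]
    (ν : Measure (ι → X)) : Prop :=
  ∀ (D : ℤ) (ε : ℝ), 0 < ε → ∀ (K : ℕ) (A : Fin K → ι → Set X), (∀ k i, MeasurableSet (A k i)) →
    ∃ (S : Type) (_ : Fintype S) (_ : Nonempty S) (c : S → ι → ℤ),
      (∀ s i j, i ≠ j → D ≤ |c s i - c s j|) ∧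
      ∀ k, |ν.real (Set.univ.pi (A k)) -
        (1 / (Fintype.card S : ℝ)) * ∑ s, μ.real {x | ∀ i, (T ^ c s i : Equiv.Perm X) x ∈ A k i}| ≤ ε

/-- convergence to the product measure when it is the only limit joining -/
theorem conv_off (ha : GE a) (hT : Ergodic T μ) (hs : Measurable T.symm)
    (hJ : ∀ ν : Measure (Fin ℓ ⊕ Fin ℓ → X), NI μ T ν → OffLim μ T ν → ν = Measure.pi fun _ => μ)
    (f : Fin ℓ ⊕ Fin ℓ → X → ℂ) (hf : ∀ i, Measurable (f i)) (hb : ∀ i, ∃ C : ℝ, ∀ x, ‖f i x‖ ≤ C) :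
    Tendsto (fun N => dav N fun n m => ∫ x, ∏ i, f i ((T ^ cc a n m i : Equiv.Perm X) x) ∂μ) atTop
      (𝓝 (∏ i, ∫ x, f i x ∂μ)) := by
  have hmp := hT.toMeasurePreserving
  have hprob := PP_prob (μ := μ) (T := T) a hmp hs
  let P : ℕ → ProbabilityMeasure (Fin ℓ ⊕ Fin ℓ → X) := fun N => ⟨PP a μ T N, hprob N⟩
  have hm : ∀ N i, (P N : Measure (Fin ℓ ⊕ Fin ℓ → X)).map (fun x => x i) = μ :=
    fun N i => PP_marg a hmp hs N i
  have h0 : ∀ N, ∫ x, ∏ i, f i (x i) ∂(P N : Measure (Fin ℓ ⊕ Fin ℓ → X)) =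
      dav N fun n m => ∫ x, ∏ i, f i ((T ^ cc a n m i : Equiv.Perm X) x) ∂μ :=
    fun N => int_PP_prod hmp hs N f hf hb
  rw [tendsto_iff_ultrafilter]
  intro 𝒰 h𝒰
  have hc : CompactSpace (ProbabilityMeasure (Fin ℓ ⊕ Fin ℓ → X)) := inferInstance
  obtain ⟨ν, _, hν⟩ := (isCompact_univ (X := ProbabilityMeasure (Fin ℓ ⊕ Fin ℓ → X))).ultrafilter_le_nhds
    (𝒰.map P) (by simp)
  have hP : Tendsto P (𝒰 : Filter ℕ) (𝓝 ν) := hν
  have hNI := limit_nearly ha hT hs h𝒰 P (fun N => rfl) ν hP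
  have hoff : OffLim μ T (ν : Measure (Fin ℓ ⊕ Fin ℓ → X)) := fun D ε hε K A hA =>
    limit_off ha hmp hs h𝒰 P (fun N => rfl) ν hP D ε hε K A hA
  have hpi := hJ _ hNI hoff
  have h1 := prod_limit P ν hP hm hNI.marg f hf hb
  rw [hpi] at h1
  have h2 : ∫ x, ∏ i, f i (x i) ∂(Measure.pi fun _ : Fin ℓ ⊕ Fin ℓ => μ) = ∏ i, ∫ x, f i x ∂μ :=
    integral_fintype_prod_eq_prod f
  rw [h2] at h1
  exact h1.congr h0

end main

/-- joint ergodicity when the product measure is the only limit joining, on standard Borel spaces -/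
theorem joint_std_off {X : Type} [MeasurableSpace X] [StandardBorelSpace X] {μ : Measure X}
    [IsProbabilityMeasure μ]
    {T : Equiv.Perm X} {ℓ : ℕ} (a : Fin ℓ → ℕ → ℤ) (ha : GE a) (hT : Ergodic T μ) (hs : Measurable T.symm)
    (hJ : ∀ ν : Measure (Fin ℓ ⊕ Fin ℓ → X), NI μ T ν → OffLim μ T ν → ν = Measure.pi fun _ => μ)
    (f : Fin ℓ → X → ℝ) (hf : ∀ j, Measurable (f j)) (hb : ∀ j, ∃ C : ℝ, ∀ x, |f j x| ≤ C) :
    Tendsto (fun N : ℕ => ∫ x, (((1 / (N : ℝ)) * ∑ n ∈ Finset.range N,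
      ∏ j, f j ((T ^ (a j n) : Equiv.Perm X) x)) - ∏ j, ∫ y, f j y ∂μ) ^ 2 ∂μ) atTop (𝓝 0) := by
  obtain ⟨τ, hp, hc, hB⟩ := exists_compact_polish X
  exact l2_of_conv hT.toMeasurePreserving hs a (conv_off ha hT hs hJ) f hf hb

end Pool.Agent.N224.PJ
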