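import Pool.Agent.N224.PJ.Rel

set_option autoImplicit false

/-!
# The sequence `n sin n` takes values in a bounded interval with density zero, uniformly
-/

open Filter Topology

noncomputable section

namespace Pool.Agent.N224.PJ

/-- `n sin n` -/
def nsn (n : ℕ) : ℝ := ((n + 1 : ℕ) : ℝ) * Real.sin ((n + 1 : ℕ) : ℝ)

theorem sin_half_ne (h : ℕ) (hh : 1 ≤ h) : Real.sin ((h : ℝ) / 2) ≠ 0 := by
  intro h0
  rw [Real.sin_eq_zero_iff] at h0
  obtain ⟨k, hk⟩ := h0
  have hpi := irrational_pi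
  have hk0 : k ≠ 0 := by
    rintro rfl
    have : (h : ℝ) = 0 := by
      have : (0 : ℝ) = (h : ℝ) / 2 := by simpa using hk
      linarith
    have h1 : (1 : ℝ) ≤ h := by exact_mod_cast hh
    linarith
  apply hpi
  refine ⟨(h : ℚ) / (2 * k), ?_⟩
  have hk1 : (k : ℝ) ≠ 0 := by exact_mod_cast hk0
  push_cast
  field_simp
  linarith

theorem exists_s (H : ℕ) : ∃ s : ℝ, 0 < s ∧ ∀ h : ℕ, 1 ≤ h → h ≤ H → s ≤ |Real.sin ((h : ℝ) / 2)| := by
  induction H with
  | zero => exact ⟨1, one_pos, fun h h1 h2 => by omega⟩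
  | succ H ih =>
    obtain ⟨s, hs, hH⟩ := ih
    refine ⟨min s |Real.sin (((H + 1 : ℕ) : ℝ) / 2)|, lt_min hs (abs_pos.2 (sin_half_ne _ (by omega))), ?_⟩
    intro h h1 h2
    rcases Nat.lt_or_ge h (H + 1) with h3 | h3
    · exact (min_le_left _ _).trans (hH h h1 (by omega))
    · have : h = H + 1 := by omega
      subst this
      exact min_le_right _ _

theorem s_int {H : ℕ} {s : ℝ} (hs : ∀ h : ℕ, 1 ≤ h → h ≤ H → s ≤ |Real.sin ((h : ℝ) / 2)|) (p q : ℕ)
    (hpq : p ≠ q) (h1 : p < q + H) (h2 : q < p + H) : s ≤ |Real.sin (((q : ℝ) - p) / 2)| := by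
  rcases Nat.lt_or_gt_of_ne hpq with h | h
  · have := hs (q - p) (by omega) (by omega)
    rwa [Nat.cast_sub h.le] at this
  · have := hs (p - q) (by omega) (by omega)
    rw [Nat.cast_sub h.le] at this
    rw [← abs_neg, ← Real.sin_neg]
    have e : -(((q : ℝ) - p) / 2) = ((p : ℝ) - q) / 2 := by ring
    rwa [e]

/-- three nearby large integers cannot have almost equal values of `n sin n` -/
theorem three {H : ℕ} {s : ℝ} (hs0 : 0 < s) (hs : ∀ h : ℕ, 1 ≤ h → h ≤ H → s ≤ |Real.sin ((h : ℝ) / 2)|)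
    {D y : ℝ} (p q r : ℕ) (hpq : p ≠ q) (hpr : p ≠ r) (hqr : q ≠ r)
    (h1 : p < q + H) (h2 : q < p + H) (h3 : p < r + H) (h4 : r < p + H) (h5 : q < r + H) (h6 : r < q + H)
    (hp : |(p : ℝ) * Real.sin p - y| ≤ D) (hq : |(q : ℝ) * Real.sin q - y| ≤ D)
    (hr : |(r : ℝ) * Real.sin r - y| ≤ D) : (p : ℝ) * s ^ 2 ≤ 2 * D + H := by
  have key : ∀ q : ℕ, p ≠ q → p < q + H → q < p + H → |(q : ℝ) * Real.sin q - y| ≤ D →
      2 * (p : ℝ) * s * |Real.cos (((q : ℝ) + p) / 2)| ≤ 2 * D + H := by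
    intro q hpq h1 h2 hq
    have e1 : Real.sin q - Real.sin p = 2 * Real.sin (((q : ℝ) - p) / 2) * Real.cos (((q : ℝ) + p) / 2) :=
      Real.sin_sub_sin q p
    have e2 : (p : ℝ) * (Real.sin q - Real.sin p) =
        ((q : ℝ) * Real.sin q - y) - ((p : ℝ) * Real.sin p - y) - ((q : ℝ) - p) * Real.sin q := by ring
    have e3 : |(p : ℝ) * (Real.sin q - Real.sin p)| ≤ D + D + H := by
      rw [e2]
      refine (abs_sub _ _).trans (add_le_add ((abs_sub _ _).trans (add_le_add hq hp)) ?_)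
      rw [abs_mul]
      have a1 : |(q : ℝ) - p| ≤ H := by
        rw [abs_le]
        have b1 : (p : ℝ) ≤ q + H := by exact_mod_cast h1.le
        have b2 : (q : ℝ) ≤ p + H := by exact_mod_cast h2.le
        constructor <;> linarith
      have a2 : |Real.sin q| ≤ 1 := Real.abs_sin_le_one _
      calc |(q : ℝ) - p| * |Real.sin q| ≤ H * 1 := mul_le_mul a1 a2 (abs_nonneg _) (by positivity)
        _ = H := mul_one _
    have e4 := s_int hs p q hpq h1 h2
    rw [e1, abs_mul, abs_mul, abs_mul, abs_of_nonneg (by positivity : (0 : ℝ) ≤ p), abs_two] at e3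
    have e5 : 2 * (p : ℝ) * s * |Real.cos (((q : ℝ) + p) / 2)| ≤
        (p : ℝ) * (2 * |Real.sin (((q : ℝ) - p) / 2)| * |Real.cos (((q : ℝ) + p) / 2)|) := by
      have : (p : ℝ) * (2 * |Real.sin (((q : ℝ) - p) / 2)| * |Real.cos (((q : ℝ) + p) / 2)|) =
        2 * (p : ℝ) * |Real.sin (((q : ℝ) - p) / 2)| * |Real.cos (((q : ℝ) + p) / 2)| := by ring
      rw [this]
      gcongr
    linarith
  have k1 := key q hpq h1 h2 hq
  have k2 := key r hpr h3 h4 hr
  have k3 := s_int hs q r hqr h5 h6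
  have e6 : Real.sin (((r : ℝ) - q) / 2) = Real.sin (((r : ℝ) + p) / 2) * Real.cos (((q : ℝ) + p) / 2) -
      Real.cos (((r : ℝ) + p) / 2) * Real.sin (((q : ℝ) + p) / 2) := by
    rw [← Real.sin_sub]
    congr 1
    ring
  have e7 : |Real.sin (((r : ℝ) - q) / 2)| ≤ |Real.cos (((q : ℝ) + p) / 2)| + |Real.cos (((r : ℝ) + p) / 2)| := by
    rw [e6]
    refine (abs_sub _ _).trans (add_le_add ?_ ?_)
    · rw [abs_mul]
      exact mul_le_of_le_one_left (abs_nonneg _) (Real.abs_sin_le_one _)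
    · rw [abs_mul]
      exact mul_le_of_le_one_right (abs_nonneg _) (Real.abs_sin_le_one _)
  have e8 : s ≤ |Real.cos (((q : ℝ) + p) / 2)| + |Real.cos (((r : ℝ) + p) / 2)| := k3.trans e7
  have hp0 : (0 : ℝ) ≤ 2 * (p : ℝ) * s := by positivity
  nlinarith [mul_le_mul_of_nonneg_left e8 hp0]

open Classical in
/-- uniform density zero -/
theorem unif (D : ℝ) (ε : ℝ) (hε : 0 < ε) : ∀ᶠ N : ℕ in atTop, ∀ y : ℝ,
    (((Finset.range (N + 1)).filter fun n => |nsn n - y| ≤ D).card : ℝ) ≤ ε * ((N : ℝ) + 1) := by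
  obtain ⟨H, hH⟩ := exists_nat_gt (4 / ε)
  have hH0 : 0 < (H : ℝ) := lt_trans (by positivity) hH
  have hHn : 0 < H := by exact_mod_cast hH0
  obtain ⟨s, hs0, hs⟩ := exists_s H
  obtain ⟨P0, hP0⟩ := exists_nat_gt ((2 * D + H) / s ^ 2)
  have hlim : ∀ᶠ N : ℕ in atTop, ((P0 : ℝ) + 2) ≤ ε / 2 * ((N : ℝ) + 1) := by
    obtain ⟨M, hM⟩ := exists_nat_gt (((P0 : ℝ) + 2) / (ε / 2))
    filter_upwards [eventually_ge_atTop M] with N hN
    have h1 : (M : ℝ) ≤ N := by exact_mod_cast hN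
    rw [div_lt_iff₀ (by positivity)] at hM
    nlinarith
  filter_upwards [hlim] with N hN y
  set S := (Finset.range (N + 1)).filter fun n => |nsn n - y| ≤ D with hS
  set S1 := S.filter fun n => P0 ≤ n with hS1
  have hsub : S ⊆ Finset.range P0 ∪ S1 := by
    intro n hn
    rw [Finset.mem_union, Finset.mem_range]
    by_cases h : n < P0
    · exact Or.inl h
    · exact Or.inr (Finset.mem_filter.2 ⟨hn, by omega⟩)
  have hfib : ∀ b ∈ Finset.range (N / H + 1), (S1.filter fun n => n / H = b).card ≤ 2 := by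
    intro b _
    by_contra hlt
    push Not at hlt
    obtain ⟨p, q, r, hp, hq, hr, hpq, hpr, hqr⟩ := Finset.two_lt_card_iff.1 hlt
    simp only [hS1, hS, Finset.mem_filter, nsn] at hp hq hr
    have dp := Nat.div_add_mod p H
    have dq := Nat.div_add_mod q H
    have dr := Nat.div_add_mod r H
    have mp := Nat.mod_lt p hHn
    have mq := Nat.mod_lt q hHn
    have mr := Nat.mod_lt r hHn
    rw [hp.2] at dp
    rw [hq.2] at dq
    rw [hr.2] at dr
    have h := three hs0 hs (D := D) (y := y) (p + 1) (q + 1) (r + 1) (by omega) (by omega) (by omega) (by omega)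
      (by omega) (by omega) (by omega) (by omega) (by omega) hp.1.1.2 hq.1.1.2 hr.1.1.2
    have h2 : (P0 : ℝ) ≤ p := by exact_mod_cast hp.1.2
    rw [div_lt_iff₀ (by positivity)] at hP0
    push_cast at h
    nlinarith [sq_nonneg s, mul_pos hs0 hs0]
  have hcard : S1.card ≤ 2 * (Finset.range (N / H + 1)).card := by
    refine Finset.card_le_mul_card_image_of_maps_to (f := fun n => n / H) ?_ 2 hfib
    intro n hn
    simp only [hS1, hS, Finset.mem_filter, Finset.mem_range] at hn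
    rw [Finset.mem_range]
    have : n / H ≤ N / H := Nat.div_le_div_right (by omega)
    omega
  rw [Finset.card_range] at hcard
  have hc := (Finset.card_le_card hsub).trans (Finset.card_union_le _ _)
  rw [Finset.card_range] at hc
  have h3 : (S.card : ℝ) ≤ P0 + 2 * ((N / H : ℕ) + 1) := by
    have : S.card ≤ P0 + 2 * (N / H + 1) := by omega
    exact_mod_cast this
  have h4 : ((N / H : ℕ) : ℝ) ≤ (N : ℝ) / H := Nat.cast_div_le
  have h5 : (N : ℝ) / H ≤ (ε / 4) * N := by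
    rw [div_le_iff₀ hH0]
    have h6 : 4 < ε * H := by
      rw [div_lt_iff₀ hε] at hH
      linarith
    have h7 : (0 : ℝ) ≤ N := by positivity
    nlinarith
  nlinarith

end Pool.Agent.N224.PJ
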