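import Pool.Agent.N224.PJ.Osc

set_option autoImplicit false

/-!
# Characteristic factors for averages along sequences with growing gaps
-/

open MeasureTheory Filter Topology

noncomputable section

namespace Pool.Agent.N224.PJ

open Classical in
/-- the gaps tend to infinity in density -/
def BadZero {ℓ : ℕ} (a : Fin ℓ → ℕ → ℤ) : Prop := ∀ D : ℤ, Tendsto (fun N => davr N fun n m =>
  if ∃ i j : Fin ℓ ⊕ Fin ℓ, i ≠ j ∧ |cc a n m i - cc a n m j| < D then (1 : ℝ) else 0) atTop (𝓝 0)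

section

variable {X : Type} {mP : MeasurableSpace X} [mX : MeasurableSpace X] {μ : Measure X} [IsProbabilityMeasure μ]
  {T : Equiv.Perm X} {ℓ : ℕ}

theorem rel_zero2 {a : Fin ℓ → ℕ → ℤ} (ha : BadZero a)
    (h : RM mP μ T) (f : Fin ℓ ⊕ Fin ℓ → X → ℝ)
    (hf : ∀ i, Measurable (f i)) (hb : ∀ i, ∃ C : ℝ, ∀ x, |f i x| ≤ C) (i0 : Fin ℓ ⊕ Fin ℓ)
    (h0 : ∀ B, MeasurableSet[mP] B → ∫ x in B, f i0 x ∂μ = 0) :
    Tendsto (fun N => davr N fun n m => ∫ x, ∏ i, f i ((T ^ cc a n m i : Equiv.Perm X) x) ∂μ) atTop (𝓝 0) := by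
  classical
  have hb' := hb
  choose C hC using hb
  set M : ℝ := max (∏ i, C i) 0 with hM
  have hM0 : 0 ≤ M := le_max_right _ _
  have hbd : ∀ n m, |∫ x, ∏ i, f i ((T ^ cc a n m i : Equiv.Perm X) x) ∂μ| ≤ M := by
    intro n m
    rw [← Real.norm_eq_abs]
    refine (norm_integral_le_of_norm_le_const (C := M) (Eventually.of_forall fun x => ?_)).trans ?_
    · rw [Real.norm_eq_abs, Finset.abs_prod]
      exact (Finset.prod_le_prod (fun _ _ => abs_nonneg _) fun i _ => hC i _).trans (le_max_left _ _)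
    · simp
  rw [Metric.tendsto_nhds]
  intro ε hε
  obtain ⟨D, hD⟩ := rm_idx h f hf hb' i0 h0 (ε / 2) (by positivity)
  have hbad := (ha D).const_mul M
  rw [mul_zero] at hbad
  filter_upwards [hbad.eventually_lt_const (by positivity : (0 : ℝ) < ε / 2)] with N hN
  rw [Real.dist_eq, sub_zero]
  refine lt_of_le_of_lt (abs_davr_le N _) ?_
  have h1 : davr N (fun n m => |∫ x, ∏ i, f i ((T ^ cc a n m i : Equiv.Perm X) x) ∂μ|) ≤
      davr N (fun n m => ε / 2 + M *
        (if ∃ i j : Fin ℓ ⊕ Fin ℓ, i ≠ j ∧ |cc a n m i - cc a n m j| < D then (1 : ℝ) else 0)) := by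
    refine davr_mono N fun n m => ?_
    split_ifs with hbd'
    · rw [mul_one]
      linarith [hbd n m]
    · push Not at hbd'
      rw [mul_zero, add_zero]
      exact hD _ hbd'
  rw [davr_add, davr_const, davr_smul] at h1
  linarith

/-- the factor is characteristic -/
theorem char_zero (hmp : MeasurePreserving T μ μ) (hs : Measurable T.symm) {a : Fin ℓ → ℕ → ℤ} (ha : BadZero a)
    (h : RM mP μ T) (f : Fin ℓ → X → ℝ)
    (hf : ∀ i, Measurable (f i)) (hb : ∀ i, ∃ C : ℝ, ∀ x, |f i x| ≤ C) (j0 : Fin ℓ)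
    (h0 : ∀ B, MeasurableSet[mP] B → ∫ x in B, f j0 x ∂μ = 0) :
    Tendsto (fun N : ℕ => ∫ x, ((1 / (N : ℝ)) * ∑ n ∈ Finset.range N,
      ∏ j, f j ((T ^ (a j n) : Equiv.Perm X) x)) ^ 2 ∂μ) atTop (𝓝 0) := by
  rw [← tendsto_add_atTop_iff_nat 1]
  have hrz := rel_zero2 ha h (Sum.elim f f) (by rintro (j | j) <;> exact hf j)
    (by rintro (j | j) <;> exact hb j) (Sum.inl j0) h0
  refine hrz.congr fun N => ?_
  choose C hC using hb
  have hint : ∀ n m, Integrable (fun x => ∏ i, Sum.elim f f i ((T ^ cc a n m i : Equiv.Perm X) x)) μ := by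
    intro n m
    refine bdd_int (Finset.measurable_prod _ fun i _ => ?_) ?_
    · rcases i with j | j <;> exact (hf j).comp (mp_zpow hmp hs _).measurable
    · refine ⟨∏ i, Sum.elim C C i, fun x => ?_⟩
      rw [Finset.abs_prod]
      refine Finset.prod_le_prod (fun _ _ => abs_nonneg _) fun i _ => ?_
      rcases i with j | j <;> exact hC j _
  have e2 : ∀ x, ((1 / ((N + 1 : ℕ) : ℝ)) * ∑ n ∈ Finset.range (N + 1),
      ∏ j, f j ((T ^ (a j n) : Equiv.Perm X) x)) ^ 2 = (((N : ℝ) + 1) ^ 2)⁻¹ * ∑ n ∈ Finset.range (N + 1),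
      ∑ m ∈ Finset.range (N + 1), ∏ i, Sum.elim f f i ((T ^ cc a n m i : Equiv.Perm X) x) := by
    intro x
    have h2 : ∑ n ∈ Finset.range (N + 1), ∑ m ∈ Finset.range (N + 1),
        ∏ i, Sum.elim f f i ((T ^ cc a n m i : Equiv.Perm X) x) =
        (∑ n ∈ Finset.range (N + 1), ∏ j, f j ((T ^ (a j n) : Equiv.Perm X) x)) *
        ∑ m ∈ Finset.range (N + 1), ∏ j, f j ((T ^ (a j m) : Equiv.Perm X) x) := by
      rw [Finset.sum_mul_sum]
      refine Finset.sum_congr rfl fun n _ => Finset.sum_congr rfl fun m _ => ?_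
      rw [Fintype.prod_sum_type]
      rfl
    rw [h2]
    push_cast
    rw [one_div, ← inv_pow]
    ring
  simp only [e2]
  unfold davr
  rw [integral_const_mul, integral_finsetSum _ fun n _ => integrable_finsetSum _ fun m _ => hint n m]
  congr 1
  refine Finset.sum_congr rfl fun n _ => ?_
  rw [integral_finsetSum _ fun m _ => hint n m]

theorem tele2 (hmp : MeasurePreserving T μ μ) (hs : Measurable T.symm) {a : Fin ℓ → ℕ → ℤ} (ha : BadZero a)
    (hmP : mP ≤ mX) (h : RM mP μ T)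
    (hJ : ∀ f : Fin ℓ → X → ℝ, (∀ j, Measurable[mP] (f j)) → (∀ j, ∃ C : ℝ, ∀ x, |f j x| ≤ C) →
      Tendsto (fun N : ℕ => ∫ x, (((1 / (N : ℝ)) * ∑ n ∈ Finset.range N,
        ∏ j, f j ((T ^ (a j n) : Equiv.Perm X) x)) - ∏ j, ∫ y, f j y ∂μ) ^ 2 ∂μ) atTop (𝓝 0))
    (s : Finset (Fin ℓ ⊕ Fin ℓ)) :
    ∀ F : Fin ℓ ⊕ Fin ℓ → X → ℝ, (∀ i, Measurable (F i)) → (∀ i, ∃ C : ℝ, ∀ x, |F i x| ≤ C) →
    (∀ i ∉ s, Measurable[mP] (F i)) →
    Tendsto (fun N => davr N fun n m => ∫ x, ∏ i, F i ((T ^ cc a n m i : Equiv.Perm X) x) ∂μ) atTop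
      (𝓝 (∏ i, ∫ x, F i x ∂μ)) := by
  classical
  induction s using Finset.induction with
  | empty =>
    intro F _ hb hF
    exact base_case hmp hs a hmP hJ F (fun i => hF i (by simp)) hb
  | insert i s his ih =>
    intro F hFm hb hF
    obtain ⟨g, hgm, hgb, hg0⟩ := exists_cond (μ := μ) hmP (F i) (hFm i) (hb i)
    have hgm' : Measurable g := hgm.mono hmP le_rfl
    have hupd : ∀ u : X → ℝ, Measurable u → ∀ j, Measurable (Function.update F i u j) := by
      intro u hu j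
      by_cases hj : j = i
      · subst hj; rw [Function.update_self]; exact hu
      · rw [Function.update_of_ne hj]; exact hFm j
    have hupdb : ∀ u : X → ℝ, (∃ C : ℝ, ∀ x, |u x| ≤ C) → ∀ j, ∃ C : ℝ, ∀ x,
        |Function.update F i u j x| ≤ C := by
      intro u hu j
      by_cases hj : j = i
      · subst hj; rw [Function.update_self]; exact hu
      · rw [Function.update_of_ne hj]; exact hb j
    have hdb : ∃ C : ℝ, ∀ x, |F i x - g x| ≤ C := by
      obtain ⟨C, hC⟩ := hb i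
      obtain ⟨D, hD⟩ := hgb
      exact ⟨C + D, fun x => (abs_sub _ _).trans (add_le_add (hC x) (hD x))⟩
    have h1 := ih (Function.update F i g) (hupd g hgm') (hupdb g hgb) (by
      intro j hj
      by_cases hji : j = i
      · subst hji; rw [Function.update_self]; exact hgm
      · rw [Function.update_of_ne hji]; exact hF j (by simp [hji, hj]))
    have h2 := rel_zero2 ha h (Function.update F i fun x => F i x - g x) (hupd _ ((hFm i).sub hgm'))
      (hupdb _ hdb) i (by rw [Function.update_self]; exact hg0)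
    have h3 := h1.add h2
    rw [add_zero] at h3
    have hint : ∀ u : X → ℝ, Measurable u → (∃ C : ℝ, ∀ x, |u x| ≤ C) → ∀ n m,
        Integrable (fun x => ∏ j, Function.update F i u j ((T ^ cc a n m j : Equiv.Perm X) x)) μ := by
      intro u hu hub n m
      refine bdd_int (Finset.measurable_prod _ fun j _ => (hupd u hu j).comp (mp_zpow hmp hs _).measurable) ?_
      choose C hC using hupdb u hub
      refine ⟨∏ j, C j, fun x => ?_⟩
      rw [Finset.abs_prod]
      exact Finset.prod_le_prod (fun _ _ => abs_nonneg _) fun j _ => hC j _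
    have e1 : ∏ j, ∫ x, Function.update F i g j x ∂μ = ∏ j, ∫ x, F j x ∂μ := by
      refine Finset.prod_congr rfl fun j _ => ?_
      by_cases hji : j = i
      · subst hji
        rw [Function.update_self]
        have h4 := hg0 Set.univ MeasurableSet.univ
        rw [Measure.restrict_univ, integral_sub (bdd_int (hFm j) (hb j)) (bdd_int hgm' hgb)] at h4
        linarith
      · rw [Function.update_of_ne hji]
    rw [e1] at h3
    refine h3.congr fun N => ?_
    rw [← davr_add]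
    congr 1
    funext n m
    rw [← integral_add (hint g hgm' hgb n m) (hint (fun x => F i x - g x) ((hFm i).sub hgm') hdb n m)]
    congr 1
    funext x
    have e2 : ∀ u : X → ℝ, ∏ j, Function.update F i u j ((T ^ cc a n m j : Equiv.Perm X) x) =
        u ((T ^ cc a n m i : Equiv.Perm X) x) *
          ∏ j ∈ Finset.univ.erase i, F j ((T ^ cc a n m j : Equiv.Perm X) x) := by
      intro u
      rw [← Finset.mul_prod_erase Finset.univ _ (Finset.mem_univ i), Function.update_self]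
      congr 1
      refine Finset.prod_congr rfl fun j hj => ?_
      rw [Function.update_of_ne (Finset.ne_of_mem_erase hj)]
    rw [e2, e2, ← Finset.mul_prod_erase Finset.univ (fun j => F j ((T ^ cc a n m j : Equiv.Perm X) x))
      (Finset.mem_univ i)]
    ring

/-- joint ergodicity on a characteristic factor gives joint ergodicity -/
theorem joint_rel2 (hmp : MeasurePreserving T μ μ) (hs : Measurable T.symm) {a : Fin ℓ → ℕ → ℤ} (ha : BadZero a)
    (hmP : mP ≤ mX) (h : RM mP μ T)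
    (hJ : ∀ f : Fin ℓ → X → ℝ, (∀ j, Measurable[mP] (f j)) → (∀ j, ∃ C : ℝ, ∀ x, |f j x| ≤ C) →
      Tendsto (fun N : ℕ => ∫ x, (((1 / (N : ℝ)) * ∑ n ∈ Finset.range N,
        ∏ j, f j ((T ^ (a j n) : Equiv.Perm X) x)) - ∏ j, ∫ y, f j y ∂μ) ^ 2 ∂μ) atTop (𝓝 0))
    (f : Fin ℓ → X → ℝ) (hf : ∀ j, Measurable (f j)) (hb : ∀ j, ∃ C : ℝ, ∀ x, |f j x| ≤ C) :
    Tendsto (fun N : ℕ => ∫ x, (((1 / (N : ℝ)) * ∑ n ∈ Finset.range N,
      ∏ j, f j ((T ^ (a j n) : Equiv.Perm X) x)) - ∏ j, ∫ y, f j y ∂μ) ^ 2 ∂μ) atTop (𝓝 0) :=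
  l2R hmp hs a (fun F hF hFb => tele2 hmp hs ha hmP h hJ Finset.univ F hF hFb (by simp)) f hf hb

end

/-- the multiples of the integer part of `n sin n` -/
def msn (ℓ : ℕ) : Fin ℓ → ℕ → ℤ := fun i n => (((i : ℕ) : ℤ) + 1) * ⌊nsn n⌋

open Classical in
theorem bad_msn (ℓ : ℕ) : BadZero (msn ℓ) := by
  intro D
  set D' : ℝ := |(D : ℝ)| + 1 with hD'
  set u : ℝ → ℕ → ℝ := fun y m => if |nsn m - y| ≤ D' then 1 else 0 with hu
  set Y : Fin ℓ × Fin ℓ → ℕ → ℝ := fun q n => ((((q.1 : ℕ) : ℝ) + 1) / (((q.2 : ℕ) : ℝ) + 1)) * (⌊nsn n⌋ : ℝ) with hY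
  have hfl : ∀ n, |nsn n - (⌊nsn n⌋ : ℝ)| ≤ 1 := by
    intro n
    rw [abs_le]
    constructor <;> linarith [Int.floor_le (nsn n), (Int.lt_floor_add_one (nsn n)).le]
  have hu0 : ∀ y m, 0 ≤ u y m := by
    intro y m
    simp only [hu]
    split_ifs <;> norm_num
  -- small multiples
  have hsmall : ∀ (i j : Fin ℓ) (n : ℕ), i ≠ j → |msn ℓ i n - msn ℓ j n| < D → u 0 n = 1 := by
    intro i j n hij hlt
    simp only [hu]
    rw [if_pos]
    have e1 : msn ℓ i n - msn ℓ j n = (((i : ℕ) : ℤ) - ((j : ℕ) : ℤ)) * ⌊nsn n⌋ := by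
      unfold msn
      ring
    rw [e1, abs_mul] at hlt
    have e2 : (1 : ℤ) ≤ |((i : ℕ) : ℤ) - ((j : ℕ) : ℤ)| := by
      refine Int.one_le_abs ?_
      intro h
      apply hij
      apply Fin.ext
      have : ((i : ℕ) : ℤ) = ((j : ℕ) : ℤ) := sub_eq_zero.1 h
      exact_mod_cast this
    have e3 : |⌊nsn n⌋| < D := lt_of_le_of_lt (le_mul_of_one_le_left (abs_nonneg _) e2) hlt
    have e4 : |(⌊nsn n⌋ : ℝ)| < D := by exact_mod_cast e3
    rw [sub_zero]
    have e5 : nsn n = (nsn n - (⌊nsn n⌋ : ℝ)) + (⌊nsn n⌋ : ℝ) := by ring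
    rw [e5]
    refine (abs_add_le _ _).trans ?_
    rw [hD']
    linarith [hfl n, le_abs_self (D : ℝ)]
  have hcross : ∀ (i j : Fin ℓ) (n m : ℕ), |msn ℓ i n - msn ℓ j m| < D → u (Y (i, j) n) m = 1 := by
    intro i j n m hlt
    simp only [hu]
    rw [if_pos]
    have hj : (0 : ℝ) < ((j : ℕ) : ℝ) + 1 := by positivity
    have e1 : |(((i : ℕ) : ℝ) + 1) * (⌊nsn n⌋ : ℝ) - (((j : ℕ) : ℝ) + 1) * (⌊nsn m⌋ : ℝ)| < D := by
      have : |((msn ℓ i n - msn ℓ j m : ℤ) : ℝ)| < D := by exact_mod_cast hlt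
      unfold msn at this
      push_cast at this
      exact this
    have e2 : nsn m - Y (i, j) n = (nsn m - (⌊nsn m⌋ : ℝ)) -
        ((((i : ℕ) : ℝ) + 1) * (⌊nsn n⌋ : ℝ) - (((j : ℕ) : ℝ) + 1) * (⌊nsn m⌋ : ℝ)) / (((j : ℕ) : ℝ) + 1) := by
      simp only [hY]
      field_simp
      ring
    rw [e2]
    refine (abs_sub _ _).trans ?_
    rw [abs_div, abs_of_pos hj]
    have e3 : |(((i : ℕ) : ℝ) + 1) * (⌊nsn n⌋ : ℝ) - (((j : ℕ) : ℝ) + 1) * (⌊nsn m⌋ : ℝ)| / (((j : ℕ) : ℝ) + 1) ≤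
        |(D : ℝ)| := by
      have hj1 : (1 : ℝ) ≤ ((j : ℕ) : ℝ) + 1 := by
        have : (0 : ℝ) ≤ ((j : ℕ) : ℝ) := by positivity
        linarith
      exact (div_le_self (abs_nonneg _) hj1).trans (e1.le.trans (le_abs_self _))
    rw [hD']
    linarith [hfl m]
  have hbound : ∀ n m, (if ∃ i j : Fin ℓ ⊕ Fin ℓ, i ≠ j ∧ |cc (msn ℓ) n m i - cc (msn ℓ) n m j| < D then (1 : ℝ)
      else 0) ≤ u 0 n + u 0 m + ∑ q : Fin ℓ × Fin ℓ, u (Y q n) m := by
    intro n m
    have hsum : 0 ≤ ∑ q : Fin ℓ × Fin ℓ, u (Y q n) m := Finset.sum_nonneg fun q _ => hu0 _ _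
    split_ifs with h
    · obtain ⟨i, j, hij, hlt⟩ := h
      rcases i with i | i <;> rcases j with j | j
      · have := hsmall i j n (fun h => hij (by rw [h])) hlt
        rw [this]
        linarith [hu0 0 m]
      · have h1 := hcross i j n m hlt
        have h2 := Finset.single_le_sum (f := fun q : Fin ℓ × Fin ℓ => u (Y q n) m) (fun q _ => hu0 _ _)
          (Finset.mem_univ (i, j))
        simp only [h1] at h2
        linarith [hu0 0 m, hu0 0 n]
      · have hlt' : |msn ℓ j n - msn ℓ i m| < D := by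
          rw [abs_sub_comm]
          exact hlt
        have h1 := hcross j i n m hlt'
        have h2 := Finset.single_le_sum (f := fun q : Fin ℓ × Fin ℓ => u (Y q n) m) (fun q _ => hu0 _ _)
          (Finset.mem_univ (j, i))
        simp only [h1] at h2
        linarith [hu0 0 m, hu0 0 n]
      · have := hsmall i j m (fun h => hij (by rw [h])) hlt
        rw [this]
        linarith [hu0 0 n]
    · linarith [hu0 0 n, hu0 0 m]
  rw [Metric.tendsto_nhds]
  intro ε hε
  set K : ℝ := 3 + (Fintype.card (Fin ℓ × Fin ℓ) : ℝ) with hK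
  have hK0 : 0 < K := by positivity
  filter_upwards [unif D' (ε / K) (by positivity)] with N hN
  have hN0 : (0 : ℝ) < (N : ℝ) + 1 := by positivity
  have hcnt : ∀ y, ∑ m ∈ Finset.range (N + 1), u y m ≤ ε / K * ((N : ℝ) + 1) := by
    intro y
    simp only [hu, Finset.sum_boole]
    exact hN y
  have hd1 : ∀ y : ℕ → ℝ, davr N (fun n m => u (y n) m) ≤ ε / K := by
    intro y
    unfold davr
    have h1 : ∑ n ∈ Finset.range (N + 1), ∑ m ∈ Finset.range (N + 1), u (y n) m ≤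
        ((N : ℝ) + 1) * (ε / K * ((N : ℝ) + 1)) := by
      refine (Finset.sum_le_sum fun n _ => hcnt (y n)).trans ?_
      rw [Finset.sum_const, Finset.card_range, nsmul_eq_mul]
      push_cast
      exact le_rfl
    calc (((N : ℝ) + 1) ^ 2)⁻¹ * ∑ n ∈ Finset.range (N + 1), ∑ m ∈ Finset.range (N + 1), u (y n) m
        ≤ (((N : ℝ) + 1) ^ 2)⁻¹ * (((N : ℝ) + 1) * (ε / K * ((N : ℝ) + 1))) := by gcongr
      _ = ε / K := by field_simp
  have hd2 : davr N (fun n _ => u 0 n) ≤ ε / K := by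
    have : davr N (fun n _ => u 0 n) = davr N (fun _ m => u 0 m) := by
      unfold davr
      rw [Finset.sum_comm]
    rw [this]
    exact hd1 fun _ => 0
  have h1 := davr_mono N hbound
  rw [davr_add, davr_add, davr_sum] at h1
  have h2 : ∑ q : Fin ℓ × Fin ℓ, davr N (fun n m => u (Y q n) m) ≤ (Fintype.card (Fin ℓ × Fin ℓ) : ℝ) * (ε / K) := by
    refine (Finset.sum_le_sum fun q _ => hd1 (Y q)).trans ?_
    rw [Finset.sum_const, Finset.card_univ, nsmul_eq_mul]
  have h3 := hd1 fun _ => 0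
  have hnn : 0 ≤ davr N fun n m => (if ∃ i j : Fin ℓ ⊕ Fin ℓ, i ≠ j ∧
      |cc (msn ℓ) n m i - cc (msn ℓ) n m j| < D then (1 : ℝ) else 0) := by
    have := davr_mono N (F := fun _ _ => (0 : ℝ)) (G := fun n m => (if ∃ i j : Fin ℓ ⊕ Fin ℓ, i ≠ j ∧
      |cc (msn ℓ) n m i - cc (msn ℓ) n m j| < D then (1 : ℝ) else 0)) (fun n m => by split_ifs <;> norm_num)
    rwa [davr_const] at this
  rw [Real.dist_eq, sub_zero, abs_of_nonneg hnn]
  have h4 : (2 + (Fintype.card (Fin ℓ × Fin ℓ) : ℝ)) * (ε / K) < ε := by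
    rw [mul_div_assoc', div_lt_iff₀ hK0, hK]
    nlinarith
  linarith

end Pool.Agent.N224.PJ
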