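import Pool.Agent.N224.PJ.Osc2

set_option autoImplicit false

/-!
# Reduction of mean convergence to a characteristic factor
-/

open MeasureTheory Filter Topology

noncomputable section

namespace Pool.Agent.N224.PJ

/-- the averages -/
def AA {X : Type} (T : Equiv.Perm X) {ℓ : ℕ} (a : Fin ℓ → ℕ → ℤ) (f : Fin ℓ → X → ℝ) (N : ℕ) (x : X) : ℝ :=
  (1 / (N : ℝ)) * ∑ n ∈ Finset.range N, ∏ j, f j ((T ^ (a j n) : Equiv.Perm X) x)

section

variable {X : Type} {mP : MeasurableSpace X} [mX : MeasurableSpace X] {μ : Measure X} [IsProbabilityMeasure μ]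
  {T : Equiv.Perm X} {ℓ : ℕ}

omit [IsProbabilityMeasure μ] in
theorem AA_meas (hmp : MeasurePreserving T μ μ) (hs : Measurable T.symm) (a : Fin ℓ → ℕ → ℤ) {f : Fin ℓ → X → ℝ}
    (hf : ∀ j, Measurable (f j)) (N : ℕ) : Measurable (AA T a f N) :=
  Measurable.const_mul (Finset.measurable_sum _ fun n _ => Finset.measurable_prod _ fun j _ =>
    (hf j).comp (mp_zpow hmp hs _).measurable) _

omit mX in
theorem AA_bdd (a : Fin ℓ → ℕ → ℤ) {f : Fin ℓ → X → ℝ} (hf : ∀ j, ∃ C : ℝ, ∀ x, |f j x| ≤ C) (N : ℕ) :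
    ∃ C : ℝ, ∀ x, |AA T a f N x| ≤ C := by
  choose C hC using hf
  refine ⟨|1 / (N : ℝ)| * (∑ _k ∈ Finset.range N, ∏ j, C j), fun x => ?_⟩
  unfold AA
  rw [abs_mul]
  refine mul_le_mul_of_nonneg_left ?_ (abs_nonneg _)
  refine (Finset.abs_sum_le_sum_abs _ _).trans (Finset.sum_le_sum fun n _ => ?_)
  rw [Finset.abs_prod]
  exact Finset.prod_le_prod (fun _ _ => abs_nonneg _) fun j _ => hC j _

theorem sq_int {u : X → ℝ} (hu : Measurable u) (hb : ∃ C : ℝ, ∀ x, |u x| ≤ C) :
    Integrable (fun x => u x ^ 2) μ := by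
  simp only [sq]
  exact bdd_int (hu.mul hu) (bdd_mul hb hb)

omit mX in
theorem bdd_sub {u v : X → ℝ} (hb : ∃ C : ℝ, ∀ x, |u x| ≤ C) (hb' : ∃ C : ℝ, ∀ x, |v x| ≤ C) :
    ∃ C : ℝ, ∀ x, |u x - v x| ≤ C := by
  obtain ⟨C, hC⟩ := hb
  obtain ⟨D, hD⟩ := hb'
  exact ⟨C + D, fun x => (abs_sub _ _).trans (add_le_add (hC x) (hD x))⟩

/-- replacing all functions by functions on the factor -/
theorem repl (hmp : MeasurePreserving T μ μ) (hs : Measurable T.symm) {a : Fin ℓ → ℕ → ℤ} (ha : BadZero a)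
    (hmP : mP ≤ mX) (h : RM mP μ T) (s : Finset (Fin ℓ)) :
    ∀ F : Fin ℓ → X → ℝ, (∀ i, Measurable (F i)) → (∀ i, ∃ C : ℝ, ∀ x, |F i x| ≤ C) →
    (∀ i ∉ s, Measurable[mP] (F i)) →
    ∃ G : Fin ℓ → X → ℝ, (∀ i, Measurable[mP] (G i)) ∧ (∀ i, ∃ C : ℝ, ∀ x, |G i x| ≤ C) ∧
      Tendsto (fun N : ℕ => ∫ x, (AA T a F N x - AA T a G N x) ^ 2 ∂μ) atTop (𝓝 0) := by
  classical
  induction s using Finset.induction with
  | empty =>
    intro F _ hb hF
    exact ⟨F, fun i => hF i (by simp), hb, by simp⟩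
  | insert i s his ih =>
    intro F hFm hb hF
    obtain ⟨g, hgm, hgb, hg0⟩ := exists_cond (μ := μ) hmP (F i) (hFm i) (hb i)
    have hgm' : Measurable g := hgm.mono hmP le_rfl
    have hupd : ∀ u : X → ℝ, Measurable u → ∀ j, Measurable (Function.update F i u j) := by
      intro u hu j
      by_cases hj : j = i
      · subst hj; rw [Function.update_self]; exact hu
      · rw [Function.update_of_ne hj]; exact hFm j
    have hupdb : ∀ u : X → ℝ, (∃ C : ℝ, ∀ x, |u x| ≤ C) → ∀ j, ∃ C : ℝ, ∀ x,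
        |Function.update F i u j x| ≤ C := by
      intro u hu j
      by_cases hj : j = i
      · subst hj; rw [Function.update_self]; exact hu
      · rw [Function.update_of_ne hj]; exact hb j
    have hdb : ∃ C : ℝ, ∀ x, |F i x - g x| ≤ C := bdd_sub (hb i) hgb
    obtain ⟨G, hG1, hG2, hG3⟩ := ih (Function.update F i g) (hupd g hgm') (hupdb g hgb) (by
      intro j hj
      by_cases hji : j = i
      · subst hji; rw [Function.update_self]; exact hgm
      · rw [Function.update_of_ne hji]; exact hF j (by simp [hji, hj]))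
    refine ⟨G, hG1, hG2, ?_⟩
    have hG1' : ∀ i, Measurable (G i) := fun i => (hG1 i).mono hmP le_rfl
    have h2 := char_zero hmp hs ha h (Function.update F i fun x => F i x - g x) (hupd _ ((hFm i).sub hgm'))
      (hupdb _ hdb) i (by rw [Function.update_self]; exact hg0)
    have h3 := (h2.const_mul 2).add (hG3.const_mul 2)
    rw [mul_zero, add_zero] at h3
    refine squeeze_zero (fun N => integral_nonneg fun x => sq_nonneg _) (fun N => ?_) h3
    have e1 : ∀ x, AA T a F N x - AA T a (Function.update F i g) N x =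
        AA T a (Function.update F i fun x => F i x - g x) N x := by
      intro x
      unfold AA
      rw [← mul_sub, ← Finset.sum_sub_distrib]
      congr 1
      refine Finset.sum_congr rfl fun n _ => ?_
      have e2 : ∀ u : X → ℝ, ∏ j, Function.update F i u j ((T ^ a j n : Equiv.Perm X) x) =
          u ((T ^ a i n : Equiv.Perm X) x) *
            ∏ j ∈ Finset.univ.erase i, F j ((T ^ a j n : Equiv.Perm X) x) := by
        intro u
        rw [← Finset.mul_prod_erase Finset.univ _ (Finset.mem_univ i), Function.update_self]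
        congr 1
        refine Finset.prod_congr rfl fun j hj => ?_
        rw [Function.update_of_ne (Finset.ne_of_mem_erase hj)]
      rw [e2, e2, ← Finset.mul_prod_erase Finset.univ (fun j => F j ((T ^ a j n : Equiv.Perm X) x))
        (Finset.mem_univ i)]
      ring
    have i1 : Integrable (fun x => AA T a (Function.update F i fun x => F i x - g x) N x ^ 2) μ :=
      sq_int (AA_meas hmp hs a (hupd _ ((hFm i).sub hgm')) N) (AA_bdd a (hupdb _ hdb) N)
    have i2 : Integrable (fun x => (AA T a (Function.update F i g) N x - AA T a G N x) ^ 2) μ :=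
      sq_int ((AA_meas hmp hs a (hupd g hgm') N).sub (AA_meas hmp hs a hG1' N))
        (bdd_sub (AA_bdd a (hupdb g hgb) N) (AA_bdd a hG2 N))
    have i3 : Integrable (fun x => (AA T a F N x - AA T a G N x) ^ 2) μ :=
      sq_int ((AA_meas hmp hs a hFm N).sub (AA_meas hmp hs a hG1' N))
        (bdd_sub (AA_bdd a hb N) (AA_bdd a hG2 N))
    show _ ≤ 2 * (∫ x, AA T a (Function.update F i fun x => F i x - g x) N x ^ 2 ∂μ) +
      2 * ∫ x, (AA T a (Function.update F i g) N x - AA T a G N x) ^ 2 ∂μ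
    rw [← integral_const_mul, ← integral_const_mul, ← integral_add (i1.const_mul 2) (i2.const_mul 2)]
    refine integral_mono i3 ((i1.const_mul 2).add (i2.const_mul 2)) fun x => ?_
    show (AA T a F N x - AA T a G N x) ^ 2 ≤ 2 * AA T a (Function.update F i fun x => F i x - g x) N x ^ 2 +
      2 * (AA T a (Function.update F i g) N x - AA T a G N x) ^ 2
    rw [← e1]
    nlinarith [sq_nonneg ((AA T a F N x - AA T a (Function.update F i g) N x) -
      (AA T a (Function.update F i g) N x - AA T a G N x))]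

/-- mean convergence is decided on the factor -/
theorem cauchy_red (hmp : MeasurePreserving T μ μ) (hs : Measurable T.symm) {a : Fin ℓ → ℕ → ℤ} (ha : BadZero a)
    (hmP : mP ≤ mX) (h : RM mP μ T)
    (hJ : ∀ f : Fin ℓ → X → ℝ, (∀ j, Measurable[mP] (f j)) → (∀ j, ∃ C : ℝ, ∀ x, |f j x| ≤ C) →
      ∀ ε : ℝ, 0 < ε → ∃ M : ℕ, ∀ N ≥ M, ∀ N' ≥ M, ∫ x, (AA T a f N x - AA T a f N' x) ^ 2 ∂μ ≤ ε)
    (f : Fin ℓ → X → ℝ) (hf : ∀ j, Measurable (f j)) (hb : ∀ j, ∃ C : ℝ, ∀ x, |f j x| ≤ C) :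
    ∀ ε : ℝ, 0 < ε → ∃ M : ℕ, ∀ N ≥ M, ∀ N' ≥ M, ∫ x, (AA T a f N x - AA T a f N' x) ^ 2 ∂μ ≤ ε := by
  intro ε hε
  obtain ⟨G, hG1, hG2, hG3⟩ := repl hmp hs ha hmP h Finset.univ f hf hb (by simp)
  have hG1' : ∀ i, Measurable (G i) := fun i => (hG1 i).mono hmP le_rfl
  obtain ⟨M1, hM1⟩ := hJ G hG1 hG2 (ε / 9) (by positivity)
  obtain ⟨M2, hM2⟩ := eventually_atTop.1 (hG3.eventually_lt_const (by positivity : (0 : ℝ) < ε / 9))
  refine ⟨max M1 M2, fun N hN N' hN' => ?_⟩
  have b1 := hM1 N ((le_max_left _ _).trans hN) N' ((le_max_left _ _).trans hN')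
  have b2 := (hM2 N ((le_max_right _ _).trans hN)).le
  have b3 := (hM2 N' ((le_max_right _ _).trans hN')).le
  have i1 : ∀ N, Integrable (fun x => (AA T a f N x - AA T a G N x) ^ 2) μ := fun N =>
    sq_int ((AA_meas hmp hs a hf N).sub (AA_meas hmp hs a hG1' N)) (bdd_sub (AA_bdd a hb N) (AA_bdd a hG2 N))
  have i2 : Integrable (fun x => (AA T a G N x - AA T a G N' x) ^ 2) μ :=
    sq_int ((AA_meas hmp hs a hG1' N).sub (AA_meas hmp hs a hG1' N')) (bdd_sub (AA_bdd a hG2 N) (AA_bdd a hG2 N'))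
  have i3 : Integrable (fun x => (AA T a f N x - AA T a f N' x) ^ 2) μ :=
    sq_int ((AA_meas hmp hs a hf N).sub (AA_meas hmp hs a hf N')) (bdd_sub (AA_bdd a hb N) (AA_bdd a hb N'))
  have h1 : ∫ x, (AA T a f N x - AA T a f N' x) ^ 2 ∂μ ≤ ∫ x, (3 * (AA T a f N x - AA T a G N x) ^ 2 +
      3 * (AA T a G N x - AA T a G N' x) ^ 2 + 3 * (AA T a f N' x - AA T a G N' x) ^ 2) ∂μ := by
    refine integral_mono i3 ((((i1 N).const_mul 3).add (i2.const_mul 3)).add ((i1 N').const_mul 3)) fun x => ?_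
    show (AA T a f N x - AA T a f N' x) ^ 2 ≤ 3 * (AA T a f N x - AA T a G N x) ^ 2 +
      3 * (AA T a G N x - AA T a G N' x) ^ 2 + 3 * (AA T a f N' x - AA T a G N' x) ^ 2
    have e : ∀ p q r : ℝ, (p + q + r) ^ 2 ≤ 3 * p ^ 2 + 3 * q ^ 2 + 3 * r ^ 2 := fun p q r => by
      nlinarith [sq_nonneg (p - q), sq_nonneg (p - r), sq_nonneg (q - r)]
    have := e (AA T a f N x - AA T a G N x) (AA T a G N x - AA T a G N' x) (-(AA T a f N' x - AA T a G N' x))
    rw [neg_sq] at this
    refine le_trans (le_of_eq ?_) this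
    ring
  rw [integral_add, integral_add, integral_const_mul, integral_const_mul, integral_const_mul] at h1
  · linarith
  · exact (i1 N).const_mul 3
  · exact i2.const_mul 3
  · exact ((i1 N).const_mul 3).add (i2.const_mul 3)
  · exact (i1 N').const_mul 3

end

end Pool.Agent.N224.PJ
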