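import Pool.Agent.N224.PJ.Off

set_option autoImplicit false

/-!
# Factors relative to which the transformation is mixing of all orders
-/

open MeasureTheory Filter Topology
open scoped InnerProductSpace ENNReal

noncomputable section

namespace Pool.Agent.N224.PJ

theorem davr_add (N : ℕ) (F G : ℕ → ℕ → ℝ) : davr N (fun n m => F n m + G n m) = davr N F + davr N G := by
  unfold davr
  simp only [Finset.sum_add_distrib]
  ring

theorem davr_smul (N : ℕ) (c : ℝ) (F : ℕ → ℕ → ℝ) : davr N (fun n m => c * F n m) = c * davr N F := by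
  unfold davr
  simp only [← Finset.mul_sum]
  ring

theorem davr_const (N : ℕ) (c : ℝ) : davr N (fun _ _ => c) = c := by
  unfold davr
  have h : ((N : ℝ) + 1) ≠ 0 := by positivity
  simp only [Finset.sum_const, Finset.card_range, nsmul_eq_mul]
  push_cast
  field_simp

section

/-- relative mixing of all orders -/
def RM {X : Type} (mP : MeasurableSpace X) [mX : MeasurableSpace X] (μ : Measure X) (T : Equiv.Perm X) : Prop :=
  ∀ (k : ℕ) (f : Fin k → X → ℝ), (∀ i, Measurable[mX] (f i)) → (∀ i, ∃ C : ℝ, ∀ x, |f i x| ≤ C) →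
    (∃ i, ∀ B, MeasurableSet[mP] B → ∫ x in B, f i x ∂μ = 0) → ∀ ε : ℝ, 0 < ε → ∃ D : ℤ,
      ∀ c : Fin k → ℤ, (∀ i j, i ≠ j → D ≤ |c i - c j|) → |∫ x, ∏ i, f i ((T ^ c i : Equiv.Perm X) x) ∂μ| ≤ ε

variable {X : Type} {mP : MeasurableSpace X} [mX : MeasurableSpace X] {μ : Measure X} [IsProbabilityMeasure μ]
  {T : Equiv.Perm X} {ℓ : ℕ}

/-- mean square convergence, real version -/
theorem l2R (hmp : MeasurePreserving T μ μ) (hs : Measurable T.symm) (a : Fin ℓ → ℕ → ℤ)
    (hconv : ∀ f : Fin ℓ ⊕ Fin ℓ → X → ℝ, (∀ i, Measurable (f i)) → (∀ i, ∃ C : ℝ, ∀ x, |f i x| ≤ C) →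
      Tendsto (fun N => davr N fun n m => ∫ x, ∏ i, f i ((T ^ cc a n m i : Equiv.Perm X) x) ∂μ) atTop
        (𝓝 (∏ i, ∫ x, f i x ∂μ)))
    (f : Fin ℓ → X → ℝ) (hf : ∀ j, Measurable (f j)) (hb : ∀ j, ∃ C : ℝ, ∀ x, |f j x| ≤ C) :
    Tendsto (fun N : ℕ => ∫ x, (((1 / (N : ℝ)) * ∑ n ∈ Finset.range N,
      ∏ j, f j ((T ^ (a j n) : Equiv.Perm X) x)) - ∏ j, ∫ y, f j y ∂μ) ^ 2 ∂μ) atTop (𝓝 0) := by
  rw [← tendsto_add_atTop_iff_nat 1]
  choose C hC using hb
  set c : ℝ := ∏ j, ∫ y, f j y ∂μ with hc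
  set g : ℕ → X → ℝ := fun n x => ∏ j, f j ((T ^ (a j n) : Equiv.Perm X) x) with hg
  have hgm : ∀ n, Measurable (g n) := fun n =>
    Finset.measurable_prod _ fun j _ => (hf j).comp (mp_zpow hmp hs _).measurable
  have hgb : ∀ n x, |g n x| ≤ ∏ j, C j := by
    intro n x
    rw [hg, Finset.abs_prod]
    exact Finset.prod_le_prod (fun _ _ => abs_nonneg _) fun j _ => hC j _
  have hbi : ∀ (h : X → ℝ), Measurable h → (∃ D : ℝ, ∀ x, |h x| ≤ D) → Integrable h μ := by
    rintro h hm ⟨D, hD⟩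
    exact (MemLp.of_bound (p := 1) hm.aestronglyMeasurable D (Eventually.of_forall fun x => by
      rw [Real.norm_eq_abs]; exact hD x)).integrable le_rfl
  have hgi : ∀ n, Integrable (g n) μ := fun n => hbi _ (hgm n) ⟨_, hgb n⟩
  have hggi : ∀ n m, Integrable (fun x => g n x * g m x) μ := fun n m => by
    refine hbi _ ((hgm n).mul (hgm m)) ⟨(∏ j, C j) * (∏ j, C j), fun x => ?_⟩
    rw [abs_mul]
    exact mul_le_mul (hgb n x) (hgb m x) (abs_nonneg _) ((abs_nonneg _).trans (hgb n x))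
  have hnm : ∀ n m, ∫ x, (g n x - c) * (g m x - c) ∂μ =
      ∫ x, g n x * g m x ∂μ - c * ∫ x, g n x ∂μ - c * ∫ x, g m x ∂μ + c * c := by
    intro n m
    have h1 : ∀ x, (g n x - c) * (g m x - c) = g n x * g m x - c * g n x - c * g m x + c * c := by
      intro x; ring
    simp only [h1]
    rw [integral_add, integral_sub, integral_sub, integral_const_mul, integral_const_mul, integral_const]
    · simp
    · exact hggi n m
    · exact (hgi n).const_mul c
    · exact (hggi n m).sub ((hgi n).const_mul c)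
    · exact (hgi m).const_mul c
    · exact ((hggi n m).sub ((hgi n).const_mul c)).sub ((hgi m).const_mul c)
    · exact integrable_const _
  have hcc : ∀ n m, Integrable (fun x => (g n x - c) * (g m x - c)) μ := by
    intro n m
    have h1 : ∀ x, (g n x - c) * (g m x - c) = g n x * g m x - c * g n x - c * g m x + c * c := by
      intro x; ring
    simp only [h1]
    exact (((hggi n m).sub ((hgi n).const_mul c)).sub ((hgi m).const_mul c)).add (integrable_const _)
  have hsq : ∀ N : ℕ, ∫ x, (((1 / ((N + 1 : ℕ) : ℝ)) * ∑ n ∈ Finset.range (N + 1), g n x) - c) ^ 2 ∂μ =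
      davr N fun n m => ∫ x, (g n x - c) * (g m x - c) ∂μ := by
    intro N
    have h0 : ((N : ℝ) + 1) ≠ 0 := by positivity
    have h1 : ∀ x, (((1 / ((N + 1 : ℕ) : ℝ)) * ∑ n ∈ Finset.range (N + 1), g n x) - c) ^ 2 =
        (((N : ℝ) + 1) ^ 2)⁻¹ * ∑ n ∈ Finset.range (N + 1), ∑ m ∈ Finset.range (N + 1),
          (g n x - c) * (g m x - c) := by
      intro x
      rw [← Finset.sum_mul_sum, Finset.sum_sub_distrib, Finset.sum_const, Finset.card_range, nsmul_eq_mul]
      push_cast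
      field_simp
    simp only [h1]
    unfold davr
    rw [integral_const_mul, integral_finsetSum _ fun n _ => integrable_finsetSum _ fun m _ => hcc n m]
    congr 1
    refine Finset.sum_congr rfl fun n _ => ?_
    rw [integral_finsetSum _ fun m _ => hcc n m]
  have k1 := hconv (Sum.elim f f) (by rintro (j | j) <;> exact hf j)
    (by rintro (j | j) <;> exact ⟨C j, fun x => hC j x⟩)
  have k2 := hconv (Sum.elim f (fun _ _ => (1 : ℝ)))
    (by rintro (j | j); exacts [hf j, measurable_const])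
    (by rintro (j | j); exacts [⟨C j, fun x => hC j x⟩, ⟨1, fun x => by simp⟩])
  have k3 := hconv (Sum.elim (fun _ _ => (1 : ℝ)) f)
    (by rintro (j | j); exacts [measurable_const, hf j])
    (by rintro (j | j); exacts [⟨1, fun x => by simp⟩, ⟨C j, fun x => hC j x⟩])
  have e1 : ∀ n m, ∫ x, ∏ i, Sum.elim f f i ((T ^ cc a n m i : Equiv.Perm X) x) ∂μ = ∫ x, g n x * g m x ∂μ := by
    intro n m
    congr 1
    funext x
    rw [Fintype.prod_sum_type]
    simp [cc, hg]
  have e2 : ∀ n m, ∫ x, ∏ i, Sum.elim f (fun _ _ => (1 : ℝ)) i ((T ^ cc a n m i : Equiv.Perm X) x) ∂μ =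
      ∫ x, g n x ∂μ := by
    intro n m
    congr 1
    funext x
    rw [Fintype.prod_sum_type]
    simp [cc, hg]
  have e3 : ∀ n m, ∫ x, ∏ i, Sum.elim (fun _ _ => (1 : ℝ)) f i ((T ^ cc a n m i : Equiv.Perm X) x) ∂μ =
      ∫ x, g m x ∂μ := by
    intro n m
    congr 1
    funext x
    rw [Fintype.prod_sum_type]
    simp [cc, hg]
  simp only [e1] at k1
  simp only [e2] at k2
  simp only [e3] at k3
  rw [Fintype.prod_sum_type] at k1 k2 k3
  simp only [Sum.elim_inl, Sum.elim_inr, integral_const, probReal_univ, one_smul, Finset.prod_const_one,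
    mul_one, one_mul] at k1 k2 k3
  rw [← hc] at k1 k2 k3
  have k4 := ((k1.sub (k2.const_mul c)).sub (k3.const_mul c)).add_const (c * c)
  have h5 : c * c - c * c - c * c + c * c = 0 := by ring
  rw [h5] at k4
  refine k4.congr fun N => ?_
  show _ = ∫ x, (((1 / ((N + 1 : ℕ) : ℝ)) * ∑ n ∈ Finset.range (N + 1), g n x) - c) ^ 2 ∂μ
  rw [hsq N]
  simp only [hnm]
  rw [davr_add, davr_sub, davr_sub, davr_smul, davr_smul, davr_const]

omit [IsProbabilityMeasure μ] in
/-- relative mixing for families with another index set -/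
theorem rm_idx (h : RM mP μ T) {ι : Type} [Fintype ι] (f : ι → X → ℝ)
    (hf : ∀ i, Measurable (f i)) (hb : ∀ i, ∃ C : ℝ, ∀ x, |f i x| ≤ C) (i0 : ι)
    (h0 : ∀ B, MeasurableSet[mP] B → ∫ x in B, f i0 x ∂μ = 0) (ε : ℝ) (hε : 0 < ε) : ∃ D : ℤ,
      ∀ c : ι → ℤ, (∀ i j, i ≠ j → D ≤ |c i - c j|) → |∫ x, ∏ i, f i ((T ^ c i : Equiv.Perm X) x) ∂μ| ≤ ε := by
  let e := Fintype.equivFin ι
  obtain ⟨D, hD⟩ := h (Fintype.card ι) (fun q => f (e.symm q)) (fun q => hf _) (fun q => hb _)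
    ⟨e i0, by simpa using h0⟩ ε hε
  refine ⟨D, fun c hc => ?_⟩
  have h1 := hD (fun q => c (e.symm q)) fun i j hij => hc _ _ fun h => hij (e.symm.injective h)
  have h2 : ∀ x, ∏ q, f (e.symm q) ((T ^ c (e.symm q) : Equiv.Perm X) x) =
      ∏ i, f i ((T ^ c i : Equiv.Perm X) x) := fun x =>
    Equiv.prod_comp e.symm fun i => f i ((T ^ c i : Equiv.Perm X) x)
  simpa only [h2] using h1

/-- the averages of a product one of whose factors has no conditional mean tend to zero -/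
theorem rel_zero {a : Fin ℓ → ℕ → ℤ} (ha : GE a)
    (h : RM mP μ T) (f : Fin ℓ ⊕ Fin ℓ → X → ℝ)
    (hf : ∀ i, Measurable (f i)) (hb : ∀ i, ∃ C : ℝ, ∀ x, |f i x| ≤ C) (i0 : Fin ℓ ⊕ Fin ℓ)
    (h0 : ∀ B, MeasurableSet[mP] B → ∫ x in B, f i0 x ∂μ = 0) :
    Tendsto (fun N => davr N fun n m => ∫ x, ∏ i, f i ((T ^ cc a n m i : Equiv.Perm X) x) ∂μ) atTop (𝓝 0) := by
  classical
  have hb' := hb
  choose C hC using hb
  set M : ℝ := max (∏ i, C i) 0 with hM
  have hM0 : 0 ≤ M := le_max_right _ _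
  have hbd : ∀ n m, |∫ x, ∏ i, f i ((T ^ cc a n m i : Equiv.Perm X) x) ∂μ| ≤ M := by
    intro n m
    rw [← Real.norm_eq_abs]
    refine (norm_integral_le_of_norm_le_const (C := M) (Eventually.of_forall fun x => ?_)).trans ?_
    · rw [Real.norm_eq_abs, Finset.abs_prod]
      exact (Finset.prod_le_prod (fun _ _ => abs_nonneg _) fun i _ => hC i _).trans (le_max_left _ _)
    · simp
  rw [Metric.tendsto_nhds]
  intro ε hε
  obtain ⟨D, hD⟩ := rm_idx h f hf hb' i0 h0 (ε / 2) (by positivity)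
  have hbad := (bad_zero ha D).const_mul M
  rw [mul_zero] at hbad
  filter_upwards [hbad.eventually_lt_const (by positivity : (0 : ℝ) < ε / 2)] with N hN
  rw [Real.dist_eq, sub_zero]
  refine lt_of_le_of_lt (abs_davr_le N _) ?_
  have h1 : davr N (fun n m => |∫ x, ∏ i, f i ((T ^ cc a n m i : Equiv.Perm X) x) ∂μ|) ≤
      davr N (fun n m => ε / 2 + M *
        (if ∃ i j : Fin ℓ ⊕ Fin ℓ, i ≠ j ∧ |cc a n m i - cc a n m j| < D then (1 : ℝ) else 0)) := by
    refine davr_mono N fun n m => ?_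
    split_ifs with hbd'
    · rw [mul_one]
      linarith [hbd n m]
    · push Not at hbd'
      rw [mul_zero, add_zero]
      exact hD _ hbd'
  rw [davr_add, davr_const, davr_smul] at h1
  linarith

/-- a bounded version of the conditional expectation -/
theorem exists_cond (hmP : mP ≤ mX) (f : X → ℝ) (hf : Measurable f)
    (hb : ∃ C : ℝ, ∀ x, |f x| ≤ C) : ∃ g : X → ℝ, Measurable[mP] g ∧ (∃ C : ℝ, ∀ x, |g x| ≤ C) ∧
      ∀ B, MeasurableSet[mP] B → ∫ x in B, (f x - g x) ∂μ = 0 := by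
  obtain ⟨C, hC⟩ := hb
  obtain ⟨x0⟩ : Nonempty X := μ.nonempty_of_neZero
  have hC0 : 0 ≤ C := (abs_nonneg _).trans (hC x0)
  have hfi : Integrable f μ := (MemLp.of_bound (p := 1) hf.aestronglyMeasurable C
    (Eventually.of_forall fun x => by rw [Real.norm_eq_abs]; exact hC x)).integrable le_rfl
  have hE : Measurable[mP] (μ[f | mP]) := stronglyMeasurable_condExp.measurable
  have hEb : ∀ᵐ x ∂μ, |(μ[f | mP]) x| ≤ C := by
    exact ae_bdd_abs_condExp_of_ae_bdd_abs (Eventually.of_forall hC)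
  refine ⟨fun x => max (-C) (min C ((μ[f | mP]) x)), ?_, ⟨C, fun x => ?_⟩, fun B hB => ?_⟩
  · exact Measurable.max measurable_const (Measurable.min measurable_const hE)
  · rw [abs_le]
    exact ⟨le_max_left _ _, max_le (by linarith) (min_le_left _ _)⟩
  · have h1 : ∀ᵐ x ∂μ, f x - max (-C) (min C ((μ[f | mP]) x)) = f x - (μ[f | mP]) x := by
      filter_upwards [hEb] with x hx
      rw [abs_le] at hx
      rw [min_eq_right hx.2, max_eq_right hx.1]
    rw [integral_congr_ae (ae_restrict_of_ae h1), integral_sub hfi.integrableOn integrable_condExp.integrableOn,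
      setIntegral_condExp hmP hfi hB, sub_self]

omit [IsProbabilityMeasure μ] in
theorem bdd_int [IsFiniteMeasure μ] {u : X → ℝ} (hu : Measurable u) (hb : ∃ C : ℝ, ∀ x, |u x| ≤ C) :
    Integrable u μ := by
  obtain ⟨C, hC⟩ := hb
  exact (MemLp.of_bound (p := 1) hu.aestronglyMeasurable C
    (Eventually.of_forall fun x => by rw [Real.norm_eq_abs]; exact hC x)).integrable le_rfl

omit [IsProbabilityMeasure μ] in
theorem bdd_mul {u v : X → ℝ} (hb : ∃ C : ℝ, ∀ x, |u x| ≤ C) (hb' : ∃ C : ℝ, ∀ x, |v x| ≤ C) :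
    ∃ C : ℝ, ∀ x, |u x * v x| ≤ C := by
  obtain ⟨C, hC⟩ := hb
  obtain ⟨D, hD⟩ := hb'
  refine ⟨C * D, fun x => ?_⟩
  rw [abs_mul]
  exact mul_le_mul (hC x) (hD x) (abs_nonneg _) ((abs_nonneg _).trans (hC x))

theorem abs_int_mul_le {u v : X → ℝ} (hu : Measurable u) (hub : ∃ C : ℝ, ∀ x, |u x| ≤ C) (hv : Measurable v)
    (hvb : ∃ C : ℝ, ∀ x, |v x| ≤ C) : |∫ x, u x * v x ∂μ| ≤ ∫ x, u x ^ 2 ∂μ + ∫ x, v x ^ 2 ∂μ := by
  have hu2 : Integrable (fun x => u x ^ 2) μ := by
    simp only [sq]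
    exact bdd_int (hu.mul hu) (bdd_mul hub hub)
  have hv2 : Integrable (fun x => v x ^ 2) μ := by
    simp only [sq]
    exact bdd_int (hv.mul hv) (bdd_mul hvb hvb)
  rw [← integral_add hu2 hv2]
  refine (abs_integral_le_integral_abs).trans (integral_mono (bdd_int (hu.mul hv) (bdd_mul hub hvb)).abs
    (hu2.add hv2) fun x => ?_)
  show |u x * v x| ≤ u x ^ 2 + v x ^ 2
  rw [abs_le]
  constructor <;> nlinarith [sq_nonneg (u x + v x), sq_nonneg (u x - v x), sq_nonneg (u x), sq_nonneg (v x)]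

theorem sq_int_le {u : X → ℝ} (hu : Measurable u) (hub : ∃ C : ℝ, ∀ x, |u x| ≤ C) :
    (∫ x, u x ∂μ) ^ 2 ≤ ∫ x, u x ^ 2 ∂μ := by
  have hu2 : Integrable (fun x => u x ^ 2) μ := by
    simp only [sq]
    exact bdd_int (hu.mul hu) (bdd_mul hub hub)
  have hui := bdd_int (μ := μ) hu hub
  set m := ∫ x, u x ∂μ with hm
  have h1 : 0 ≤ ∫ x, (u x - m) ^ 2 ∂μ := integral_nonneg fun x => sq_nonneg _
  have h2 : ∀ x, (u x - m) ^ 2 = u x ^ 2 - 2 * m * u x + m ^ 2 := fun x => by ring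
  simp only [h2] at h1
  have h3 : ∫ x, (u x ^ 2 - 2 * m * u x + m ^ 2) ∂μ = ∫ x, u x ^ 2 ∂μ - m ^ 2 := by
    rw [integral_add, integral_sub, integral_const_mul, integral_const, ← hm]
    · simp only [probReal_univ, one_smul]
      ring
    · exact hu2
    · exact hui.const_mul _
    · exact hu2.sub (hui.const_mul _)
    · exact integrable_const _
  rw [h3] at h1
  linarith

/-- the case of functions on the factor -/
theorem base_case (hmp : MeasurePreserving T μ μ) (hs : Measurable T.symm) (a : Fin ℓ → ℕ → ℤ) (hmP : mP ≤ mX)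
    (hJ : ∀ f : Fin ℓ → X → ℝ, (∀ j, Measurable[mP] (f j)) → (∀ j, ∃ C : ℝ, ∀ x, |f j x| ≤ C) →
      Tendsto (fun N : ℕ => ∫ x, (((1 / (N : ℝ)) * ∑ n ∈ Finset.range N,
        ∏ j, f j ((T ^ (a j n) : Equiv.Perm X) x)) - ∏ j, ∫ y, f j y ∂μ) ^ 2 ∂μ) atTop (𝓝 0))
    (F : Fin ℓ ⊕ Fin ℓ → X → ℝ) (hF : ∀ i, Measurable[mP] (F i)) (hb : ∀ i, ∃ C : ℝ, ∀ x, |F i x| ≤ C) :
    Tendsto (fun N => davr N fun n m => ∫ x, ∏ i, F i ((T ^ cc a n m i : Equiv.Perm X) x) ∂μ) atTop
      (𝓝 (∏ i, ∫ x, F i x ∂μ)) := by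
  have hFm : ∀ i, Measurable (F i) := fun i => (hF i).mono hmP le_rfl
  -- general facts on the averages
  set A : (Fin ℓ → X → ℝ) → ℕ → X → ℝ := fun f N x => (1 / ((N + 1 : ℕ) : ℝ)) * ∑ n ∈ Finset.range (N + 1),
    ∏ j, f j ((T ^ (a j n) : Equiv.Perm X) x) with hA
  have hprodm : ∀ f : Fin ℓ → X → ℝ, (∀ j, Measurable (f j)) → ∀ n,
      Measurable fun x => ∏ j, f j ((T ^ (a j n) : Equiv.Perm X) x) := fun f hf n =>
    Finset.measurable_prod _ fun j _ => (hf j).comp (mp_zpow hmp hs _).measurable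
  have hprodb : ∀ f : Fin ℓ → X → ℝ, (∀ j, ∃ C : ℝ, ∀ x, |f j x| ≤ C) → ∃ K : ℝ, ∀ n x,
      |∏ j, f j ((T ^ (a j n) : Equiv.Perm X) x)| ≤ K := by
    intro f hf
    choose C hC using hf
    refine ⟨∏ j, C j, fun n x => ?_⟩
    rw [Finset.abs_prod]
    exact Finset.prod_le_prod (fun _ _ => abs_nonneg _) fun j _ => hC j _
  have hAm : ∀ f : Fin ℓ → X → ℝ, (∀ j, Measurable (f j)) → ∀ N (c : ℝ), Measurable fun x => A f N x - c := by
    intro f hf N c
    refine Measurable.sub_const (Measurable.const_mul (Finset.measurable_sum _ fun n _ => hprodm f hf n) _) c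
  have hAb : ∀ f : Fin ℓ → X → ℝ, (∀ j, ∃ C : ℝ, ∀ x, |f j x| ≤ C) → ∀ N (c : ℝ), ∃ K : ℝ, ∀ x,
      |A f N x - c| ≤ K := by
    intro f hf N c
    obtain ⟨K, hK⟩ := hprodb f hf
    refine ⟨|1 / ((N + 1 : ℕ) : ℝ)| * (∑ _n ∈ Finset.range (N + 1), K) + |c|, fun x => ?_⟩
    refine (abs_sub _ _).trans (add_le_add ?_ le_rfl)
    rw [hA, abs_mul]
    refine mul_le_mul_of_nonneg_left ?_ (abs_nonneg _)
    exact (Finset.abs_sum_le_sum_abs _ _).trans (Finset.sum_le_sum fun n _ => hK n x)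
  set f : Fin ℓ → X → ℝ := fun j => F (Sum.inl j) with hf
  set g : Fin ℓ → X → ℝ := fun j => F (Sum.inr j) with hg
  set cf : ℝ := ∏ j, ∫ y, f j y ∂μ with hcf
  set cg : ℝ := ∏ j, ∫ y, g j y ∂μ with hcg
  have t1 : Tendsto (fun N => ∫ x, (A f N x - cf) ^ 2 ∂μ) atTop (𝓝 0) :=
    (hJ f (fun j => hF _) fun j => hb _).comp (tendsto_add_atTop_nat 1)
  have t2 : Tendsto (fun N => ∫ x, (A g N x - cg) ^ 2 ∂μ) atTop (𝓝 0) :=
    (hJ g (fun j => hF _) fun j => hb _).comp (tendsto_add_atTop_nat 1)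
  have hlin : ∀ (h : Fin ℓ → X → ℝ) (c : ℝ), (∀ j, Measurable (h j)) → (∀ j, ∃ C : ℝ, ∀ x, |h j x| ≤ C) →
      Tendsto (fun N => ∫ x, (A h N x - c) ^ 2 ∂μ) atTop (𝓝 0) →
      Tendsto (fun N => ∫ x, (A h N x - c) ∂μ) atTop (𝓝 0) := by
    intro h c hh hhb ht
    have h1 : Tendsto (fun N => Real.sqrt (∫ x, (A h N x - c) ^ 2 ∂μ)) atTop (𝓝 0) := by
      have := (Real.continuous_sqrt.tendsto 0).comp ht
      rwa [Real.sqrt_zero] at this
    refine squeeze_zero_norm (fun N => ?_) h1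
    rw [Real.norm_eq_abs]
    exact Real.abs_le_sqrt (sq_int_le (hAm h hh N c) (hAb h hhb N c))
  have t3 := hlin f cf (fun j => hFm _) (fun j => hb _) t1
  have t4 := hlin g cg (fun j => hFm _) (fun j => hb _) t2
  have t5 : Tendsto (fun N => ∫ x, (A f N x - cf) * (A g N x - cg) ∂μ) atTop (𝓝 0) := by
    have h1 := t1.add t2
    rw [add_zero] at h1
    refine squeeze_zero_norm (fun N => ?_) h1
    rw [Real.norm_eq_abs]
    exact abs_int_mul_le (hAm f (fun j => hFm _) N cf) (hAb f (fun j => hb _) N cf)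
      (hAm g (fun j => hFm _) N cg) (hAb g (fun j => hb _) N cg)
  have t6 := ((t5.add (t3.const_mul cg)).add (t4.const_mul cf)).add_const (cf * cg)
  have e0 : (0 : ℝ) + cg * 0 + cf * 0 + cf * cg = ∏ i, ∫ x, F i x ∂μ := by
    rw [Fintype.prod_sum_type]
    simp [hcf, hcg, hf, hg]
  rw [e0] at t6
  refine t6.congr fun N => ?_
  have i1 : Integrable (fun x => (A f N x - cf) * (A g N x - cg)) μ :=
    bdd_int ((hAm f (fun j => hFm _) N cf).mul (hAm g (fun j => hFm _) N cg))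
      (bdd_mul (hAb f (fun j => hb _) N cf) (hAb g (fun j => hb _) N cg))
  have i2 : Integrable (fun x => A f N x - cf) μ := bdd_int (hAm f (fun j => hFm _) N cf) (hAb f (fun j => hb _) N cf)
  have i3 : Integrable (fun x => A g N x - cg) μ := bdd_int (hAm g (fun j => hFm _) N cg) (hAb g (fun j => hb _) N cg)
  have e1 : ∫ x, A f N x * A g N x ∂μ = ∫ x, (A f N x - cf) * (A g N x - cg) ∂μ +
      cg * ∫ x, (A f N x - cf) ∂μ + cf * ∫ x, (A g N x - cg) ∂μ + cf * cg := by
    have h1 : ∀ x, A f N x * A g N x = (A f N x - cf) * (A g N x - cg) + cg * (A f N x - cf) +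
        cf * (A g N x - cg) + cf * cg := fun x => by ring
    simp only [h1]
    rw [integral_add, integral_add, integral_add, integral_const_mul, integral_const_mul, integral_const]
    · simp
    · exact i1
    · exact i2.const_mul _
    · exact i1.add (i2.const_mul _)
    · exact i3.const_mul _
    · exact (i1.add (i2.const_mul _)).add (i3.const_mul _)
    · exact integrable_const _
  rw [← e1]
  have e2 : ∀ x, A f N x * A g N x = (((N : ℝ) + 1) ^ 2)⁻¹ * ∑ n ∈ Finset.range (N + 1),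
      ∑ m ∈ Finset.range (N + 1), ∏ i, F i ((T ^ cc a n m i : Equiv.Perm X) x) := by
    intro x
    have h1 : ∀ n m, ∏ i, F i ((T ^ cc a n m i : Equiv.Perm X) x) =
        (∏ j, f j ((T ^ (a j n) : Equiv.Perm X) x)) * ∏ j, g j ((T ^ (a j m) : Equiv.Perm X) x) := by
      intro n m
      rw [Fintype.prod_sum_type]
      rfl
    have h2 : ∑ n ∈ Finset.range (N + 1), ∑ m ∈ Finset.range (N + 1),
        ∏ i, F i ((T ^ cc a n m i : Equiv.Perm X) x) =
        (∑ n ∈ Finset.range (N + 1), ∏ j, f j ((T ^ (a j n) : Equiv.Perm X) x)) *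
        ∑ m ∈ Finset.range (N + 1), ∏ j, g j ((T ^ (a j m) : Equiv.Perm X) x) := by
      rw [Finset.sum_mul_sum]
      exact Finset.sum_congr rfl fun n _ => Finset.sum_congr rfl fun m _ => h1 n m
    rw [h2]
    simp only [hA]
    push_cast
    rw [one_div, ← inv_pow]
    ring
  have i4 : ∀ n m, Integrable (fun x => ∏ i, F i ((T ^ cc a n m i : Equiv.Perm X) x)) μ := by
    intro n m
    refine bdd_int (Finset.measurable_prod _ fun i _ => (hFm i).comp (mp_zpow hmp hs _).measurable) ?_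
    choose C hC using hb
    refine ⟨∏ i, C i, fun x => ?_⟩
    rw [Finset.abs_prod]
    exact Finset.prod_le_prod (fun _ _ => abs_nonneg _) fun j _ => hC j _
  simp only [e2]
  unfold davr
  rw [integral_const_mul, integral_finsetSum _ fun n _ => integrable_finsetSum _ fun m _ => i4 n m]
  congr 1
  refine Finset.sum_congr rfl fun n _ => ?_
  rw [integral_finsetSum _ fun m _ => i4 n m]

/-- replacing the functions by their conditional expectations, one after the other -/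
theorem tele (hmp : MeasurePreserving T μ μ) (hs : Measurable T.symm) {a : Fin ℓ → ℕ → ℤ} (ha : GE a) (hmP : mP ≤ mX)
    (h : RM mP μ T)
    (hJ : ∀ f : Fin ℓ → X → ℝ, (∀ j, Measurable[mP] (f j)) → (∀ j, ∃ C : ℝ, ∀ x, |f j x| ≤ C) →
      Tendsto (fun N : ℕ => ∫ x, (((1 / (N : ℝ)) * ∑ n ∈ Finset.range N,
        ∏ j, f j ((T ^ (a j n) : Equiv.Perm X) x)) - ∏ j, ∫ y, f j y ∂μ) ^ 2 ∂μ) atTop (𝓝 0))
    (s : Finset (Fin ℓ ⊕ Fin ℓ)) :
    ∀ F : Fin ℓ ⊕ Fin ℓ → X → ℝ, (∀ i, Measurable (F i)) → (∀ i, ∃ C : ℝ, ∀ x, |F i x| ≤ C) →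
    (∀ i ∉ s, Measurable[mP] (F i)) →
    Tendsto (fun N => davr N fun n m => ∫ x, ∏ i, F i ((T ^ cc a n m i : Equiv.Perm X) x) ∂μ) atTop
      (𝓝 (∏ i, ∫ x, F i x ∂μ)) := by
  classical
  induction s using Finset.induction with
  | empty =>
    intro F _ hb hF
    exact base_case hmp hs a hmP hJ F (fun i => hF i (by simp)) hb
  | insert i s his ih =>
    intro F hFm hb hF
    obtain ⟨g, hgm, hgb, hg0⟩ := exists_cond (μ := μ) hmP (F i) (hFm i) (hb i)
    have hgm' : Measurable g := hgm.mono hmP le_rfl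
    have hupd : ∀ u : X → ℝ, Measurable u → ∀ j, Measurable (Function.update F i u j) := by
      intro u hu j
      by_cases hj : j = i
      · subst hj; rw [Function.update_self]; exact hu
      · rw [Function.update_of_ne hj]; exact hFm j
    have hupdb : ∀ u : X → ℝ, (∃ C : ℝ, ∀ x, |u x| ≤ C) → ∀ j, ∃ C : ℝ, ∀ x,
        |Function.update F i u j x| ≤ C := by
      intro u hu j
      by_cases hj : j = i
      · subst hj; rw [Function.update_self]; exact hu
      · rw [Function.update_of_ne hj]; exact hb j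
    have hdb : ∃ C : ℝ, ∀ x, |F i x - g x| ≤ C := by
      obtain ⟨C, hC⟩ := hb i
      obtain ⟨D, hD⟩ := hgb
      exact ⟨C + D, fun x => (abs_sub _ _).trans (add_le_add (hC x) (hD x))⟩
    have h1 := ih (Function.update F i g) (hupd g hgm') (hupdb g hgb) (by
      intro j hj
      by_cases hji : j = i
      · subst hji; rw [Function.update_self]; exact hgm
      · rw [Function.update_of_ne hji]; exact hF j (by simp [hji, hj]))
    have h2 := rel_zero ha h (Function.update F i fun x => F i x - g x) (hupd _ ((hFm i).sub hgm'))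
      (hupdb _ hdb) i (by rw [Function.update_self]; exact hg0)
    have h3 := h1.add h2
    rw [add_zero] at h3
    have hint : ∀ u : X → ℝ, Measurable u → (∃ C : ℝ, ∀ x, |u x| ≤ C) → ∀ n m,
        Integrable (fun x => ∏ j, Function.update F i u j ((T ^ cc a n m j : Equiv.Perm X) x)) μ := by
      intro u hu hub n m
      refine bdd_int (Finset.measurable_prod _ fun j _ => (hupd u hu j).comp (mp_zpow hmp hs _).measurable) ?_
      choose C hC using hupdb u hub
      refine ⟨∏ j, C j, fun x => ?_⟩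
      rw [Finset.abs_prod]
      exact Finset.prod_le_prod (fun _ _ => abs_nonneg _) fun j _ => hC j _
    have e1 : ∏ j, ∫ x, Function.update F i g j x ∂μ = ∏ j, ∫ x, F j x ∂μ := by
      refine Finset.prod_congr rfl fun j _ => ?_
      by_cases hji : j = i
      · subst hji
        rw [Function.update_self]
        have h4 := hg0 Set.univ MeasurableSet.univ
        rw [Measure.restrict_univ, integral_sub (bdd_int (hFm j) (hb j)) (bdd_int hgm' hgb)] at h4
        linarith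
      · rw [Function.update_of_ne hji]
    rw [e1] at h3
    refine h3.congr fun N => ?_
    rw [← davr_add]
    congr 1
    funext n m
    rw [← integral_add (hint g hgm' hgb n m) (hint (fun x => F i x - g x) ((hFm i).sub hgm') hdb n m)]
    congr 1
    funext x
    have e2 : ∀ u : X → ℝ, ∏ j, Function.update F i u j ((T ^ cc a n m j : Equiv.Perm X) x) =
        u ((T ^ cc a n m i : Equiv.Perm X) x) *
          ∏ j ∈ Finset.univ.erase i, F j ((T ^ cc a n m j : Equiv.Perm X) x) := by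
      intro u
      rw [← Finset.mul_prod_erase Finset.univ _ (Finset.mem_univ i), Function.update_self]
      congr 1
      refine Finset.prod_congr rfl fun j hj => ?_
      rw [Function.update_of_ne (Finset.ne_of_mem_erase hj)]
    rw [e2, e2, ← Finset.mul_prod_erase Finset.univ (fun j => F j ((T ^ cc a n m j : Equiv.Perm X) x))
      (Finset.mem_univ i)]
    ring

/-- joint ergodicity on a factor relative to which `T` is mixing of all orders gives joint ergodicity -/
theorem joint_rel (hmp : MeasurePreserving T μ μ) (hs : Measurable T.symm) {a : Fin ℓ → ℕ → ℤ} (ha : GE a)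
    (hmP : mP ≤ mX) (h : RM mP μ T)
    (hJ : ∀ f : Fin ℓ → X → ℝ, (∀ j, Measurable[mP] (f j)) → (∀ j, ∃ C : ℝ, ∀ x, |f j x| ≤ C) →
      Tendsto (fun N : ℕ => ∫ x, (((1 / (N : ℝ)) * ∑ n ∈ Finset.range N,
        ∏ j, f j ((T ^ (a j n) : Equiv.Perm X) x)) - ∏ j, ∫ y, f j y ∂μ) ^ 2 ∂μ) atTop (𝓝 0))
    (f : Fin ℓ → X → ℝ) (hf : ∀ j, Measurable (f j)) (hb : ∀ j, ∃ C : ℝ, ∀ x, |f j x| ≤ C) :
    Tendsto (fun N : ℕ => ∫ x, (((1 / (N : ℝ)) * ∑ n ∈ Finset.range N,
      ∏ j, f j ((T ^ (a j n) : Equiv.Perm X) x)) - ∏ j, ∫ y, f j y ∂μ) ^ 2 ∂μ) atTop (𝓝 0) :=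
  l2R hmp hs a (fun F hF hFb => tele hmp hs ha hmP h hJ Finset.univ F hF hFb (by simp)) f hf hb

end

end Pool.Agent.N224.PJ
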