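import Pool.Agent.Helper345.SM.spec

set_option autoImplicit false

/-!
# Correlations of an ergodic transformation along equidistributed double sequences
-/

open MeasureTheory Filter Topology
open scoped InnerProductSpace ENNReal

noncomputable section

namespace Pool.Agent.N224.PJ

open SM345.SPA (TT)

/-- double averages -/
def dav (N : ℕ) (F : ℕ → ℕ → ℂ) : ℂ :=
  (((N : ℂ) + 1) ^ 2)⁻¹ * ∑ n ∈ Finset.range (N + 1), ∑ m ∈ Finset.range (N + 1), F n m

theorem dav_add (N : ℕ) (F G : ℕ → ℕ → ℂ) : dav N (fun n m => F n m + G n m) = dav N F + dav N G := by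
  unfold dav
  simp only [Finset.sum_add_distrib]
  ring

theorem dav_smul (N : ℕ) (c : ℂ) (F : ℕ → ℕ → ℂ) : dav N (fun n m => c * F n m) = c * dav N F := by
  unfold dav
  simp only [← Finset.mul_sum]
  ring

theorem dav_const (N : ℕ) (c : ℂ) : dav N (fun _ _ => c) = c := by
  unfold dav
  have h : ((N : ℂ) + 1) ≠ 0 := by exact_mod_cast Nat.succ_ne_zero N
  simp only [Finset.sum_const, Finset.card_range, nsmul_eq_mul]
  push_cast
  field_simp

theorem norm_dav_le (N : ℕ) (F : ℕ → ℕ → ℂ) (C : ℝ) (hF : ∀ n m, ‖F n m‖ ≤ C) : ‖dav N F‖ ≤ C := by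
  unfold dav
  have h1 : ‖∑ n ∈ Finset.range (N + 1), ∑ m ∈ Finset.range (N + 1), F n m‖ ≤ ((N : ℝ) + 1) ^ 2 * C := by
    refine (norm_sum_le _ _).trans ?_
    have h2 : ∀ n ∈ Finset.range (N + 1), ‖∑ m ∈ Finset.range (N + 1), F n m‖ ≤ ((N : ℝ) + 1) * C := by
      intro n _
      refine (norm_sum_le _ _).trans ?_
      refine (Finset.sum_le_sum fun m _ => hF n m).trans ?_
      simp
    refine (Finset.sum_le_sum h2).trans ?_
    rw [Finset.sum_const, Finset.card_range, nsmul_eq_mul]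
    push_cast
    exact le_of_eq (by ring)
  have h0 : (0 : ℝ) < ((N : ℝ) + 1) ^ 2 := by positivity
  have h3 : ‖(((N : ℂ) + 1) ^ 2)⁻¹‖ = (((N : ℝ) + 1) ^ 2)⁻¹ := by
    rw [norm_inv, norm_pow]
    have : ‖((N : ℂ) + 1)‖ = (N : ℝ) + 1 := by
      have : ((N : ℂ) + 1) = (((N + 1 : ℕ)) : ℂ) := by push_cast; ring
      rw [this, Complex.norm_natCast]
      push_cast
      ring
    rw [this]
  rw [norm_mul, h3]
  calc (((N : ℝ) + 1) ^ 2)⁻¹ * ‖∑ n ∈ Finset.range (N + 1), ∑ m ∈ Finset.range (N + 1), F n m‖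
      ≤ (((N : ℝ) + 1) ^ 2)⁻¹ * (((N : ℝ) + 1) ^ 2 * C) := by gcongr
    _ = C := by field_simp

/-- the average of the powers of a point of the circle other than one tends to zero -/
theorem avg_pow {z : ℂ} (hz : ‖z‖ = 1) (h1 : z ≠ 1) :
    Tendsto (fun N : ℕ => ((N : ℂ) + 1)⁻¹ * ∑ n ∈ Finset.range (N + 1), z ^ n) atTop (𝓝 0) := by
  have h2 : ∀ N : ℕ, ‖((N : ℂ) + 1)⁻¹ * ∑ n ∈ Finset.range (N + 1), z ^ n‖ ≤
      (2 / ‖z - 1‖) * (1 / ((N : ℝ) + 1)) := by
    intro N
    rw [geom_sum_eq h1, norm_mul, norm_inv, norm_div]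
    have e1 : ‖((N : ℂ) + 1)‖ = (N : ℝ) + 1 := by
      have : ((N : ℂ) + 1) = (((N + 1 : ℕ)) : ℂ) := by push_cast; ring
      rw [this, Complex.norm_natCast]
      push_cast
      ring
    rw [e1]
    have e2 : ‖z ^ (N + 1) - 1‖ ≤ 2 := by
      refine (norm_sub_le _ _).trans ?_
      rw [norm_pow, hz]
      norm_num
    have e3 : 0 < ‖z - 1‖ := norm_pos_iff.2 (sub_ne_zero.2 h1)
    have e4 : (0 : ℝ) < (N : ℝ) + 1 := by positivity
    rw [mul_comm, one_div]
    gcongr
  refine squeeze_zero_norm h2 ?_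
  have := tendsto_one_div_add_atTop_nhds_zero_nat (𝕜 := ℝ)
  simpa using this.const_mul (2 / ‖z - 1‖)

variable {H : Type} [NormedAddCommGroup H] [InnerProductSpace ℂ H] [CompleteSpace H]

theorem fourier_ne_one {θ : TT} (h : θ ≠ 0) : (fourier 1 θ : ℂ) ≠ 1 := by
  intro h1
  apply h
  rw [fourier_one] at h1
  have h2 : AddCircle.toCircle θ = AddCircle.toCircle (0 : TT) := by
    apply Subtype.ext
    rw [h1]
    simp
  exact AddCircle.injective_toCircle one_ne_zero h2

theorem fourier_nat (n : ℕ) (θ : TT) : (fourier (n : ℤ) θ : ℂ) = (fourier 1 θ : ℂ) ^ n := by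
  induction n with
  | zero => simp
  | succ k ih =>
    rw [pow_succ, ← ih]
    push_cast
    rw [fourier_add]

/-- no atom at zero -/
theorem no_atom (U : H ≃ₗᵢ[ℂ] H) (v : H) (hv : ∀ w : H, U w = w → ⟪w, v⟫_ℂ = 0) (σ : Measure TT)
    [IsFiniteMeasure σ] (hσ : ∀ n : ℤ, ∫ z, fourier n z ∂σ = ⟪v, (U ^ n) v⟫_ℂ) : σ {0} = 0 := by
  -- the mean ergodic theorem
  have h1 := ContinuousLinearMap.tendsto_birkhoffAverage_orthogonalProjection
    (U.toLinearIsometry.toContinuousLinearMap : H →L[ℂ] H) U.toLinearIsometry.norm_toContinuousLinearMap_le v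
  have hP : ∀ (S : Submodule ℂ H) [S.HasOrthogonalProjection], (∀ w ∈ S, U w = w) →
      ((S.orthogonalProjection v : S) : H) = 0 := by
    intro S _ hS
    have : S.orthogonalProjection v = 0 := by
      rw [Submodule.orthogonalProjection_eq_zero_iff]
      rw [Submodule.mem_orthogonal]
      intro w hw
      exact hv w (hS w hw)
    rw [this]
    rfl
  rw [hP _ (fun w hw => hw)] at h1
  have hU : ∀ n : ℕ, (⇑(U.toLinearIsometry.toContinuousLinearMap : H →L[ℂ] H))^[n] v = (U ^ (n : ℤ)) v := by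
    intro n
    induction n with
    | zero => simp
    | succ k ih =>
      rw [Function.iterate_succ_apply', ih]
      have : (U ^ ((k + 1 : ℕ) : ℤ)) = U * U ^ (k : ℤ) := by
        rw [← zpow_one_add]
        congr 1
        push_cast
        ring
      rw [this]
      rfl
  have h2 : Tendsto (fun N : ℕ => ((N : ℂ) + 1)⁻¹ * ∑ n ∈ Finset.range (N + 1), ⟪v, (U ^ (n : ℤ)) v⟫_ℂ) atTop
      (𝓝 0) := by
    have h3 := (h1.comp (tendsto_add_atTop_nat 1))
    have h4 : Tendsto (fun x : H => ⟪v, x⟫_ℂ) (𝓝 0) (𝓝 ⟪v, (0 : H)⟫_ℂ) :=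
      (Continuous.inner continuous_const continuous_id).tendsto 0
    rw [inner_zero_right] at h4
    refine (h4.comp h3).congr fun N => ?_
    simp only [Function.comp, birkhoffAverage, birkhoffSum, id]
    rw [inner_smul_right, inner_sum]
    push_cast
    congr 1
    refine Finset.sum_congr rfl fun n _ => ?_
    rw [hU]
  -- dominated convergence
  have h5 : Tendsto (fun N : ℕ => ∫ z, ((N : ℂ) + 1)⁻¹ * ∑ n ∈ Finset.range (N + 1), (fourier (n : ℤ) z : ℂ) ∂σ)
      atTop (𝓝 (∫ z, Set.indicator {(0 : TT)} (fun _ => (1 : ℂ)) z ∂σ)) := by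
    refine tendsto_integral_of_dominated_convergence (fun _ => (1 : ℝ)) ?_ (integrable_const _) ?_ ?_
    · intro N
      refine Measurable.aestronglyMeasurable ?_
      refine Measurable.const_mul ?_ _
      exact Finset.measurable_sum _ fun n _ => (fourier (n : ℤ)).continuous.measurable
    · intro N
      refine Eventually.of_forall fun z => ?_
      rw [norm_mul, norm_inv]
      have e1 : ‖((N : ℂ) + 1)‖ = (N : ℝ) + 1 := by
        have : ((N : ℂ) + 1) = (((N + 1 : ℕ)) : ℂ) := by push_cast; ring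
        rw [this, Complex.norm_natCast]
        push_cast
        ring
      rw [e1]
      have e2 : ‖∑ n ∈ Finset.range (N + 1), (fourier (n : ℤ) z : ℂ)‖ ≤ (N : ℝ) + 1 := by
        refine (norm_sum_le _ _).trans ?_
        refine (Finset.sum_le_sum (g := fun _ => (1 : ℝ)) fun n _ => ?_).trans ?_
        · rw [fourier_apply]
          simp
        · simp
      have e4 : (0 : ℝ) < (N : ℝ) + 1 := by positivity
      calc ((N : ℝ) + 1)⁻¹ * ‖∑ n ∈ Finset.range (N + 1), (fourier (n : ℤ) z : ℂ)‖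
          ≤ ((N : ℝ) + 1)⁻¹ * ((N : ℝ) + 1) := by gcongr
        _ = 1 := inv_mul_cancel₀ e4.ne'
    · refine Eventually.of_forall fun z => ?_
      by_cases hz : z = 0
      · subst hz
        rw [Set.indicator_of_mem (Set.mem_singleton _)]
        refine tendsto_const_nhds.congr fun N => ?_
        have h : ((N : ℂ) + 1) ≠ 0 := by exact_mod_cast Nat.succ_ne_zero N
        simp [h]
      · rw [Set.indicator_of_notMem (by simpa using hz)]
        refine (avg_pow (z := (fourier 1 z : ℂ)) ?_ (fourier_ne_one hz)).congr fun N => ?_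
        · rw [fourier_apply]
          simp
        · simp only [fourier_nat]
  have h6 : ∀ N : ℕ, ∫ z, ((N : ℂ) + 1)⁻¹ * ∑ n ∈ Finset.range (N + 1), (fourier (n : ℤ) z : ℂ) ∂σ =
      ((N : ℂ) + 1)⁻¹ * ∑ n ∈ Finset.range (N + 1), ⟪v, (U ^ (n : ℤ)) v⟫_ℂ := by
    intro N
    rw [integral_const_mul, integral_finset_sum]
    · congr 1
      exact Finset.sum_congr rfl fun n _ => hσ n
    · intro n _
      exact (fourier (n : ℤ)).continuous.integrable_of_hasCompactSupport (HasCompactSupport.of_compactSpace _)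
  simp_rw [h6] at h5
  have h7 := tendsto_nhds_unique h5 h2
  rw [integral_indicator (measurableSet_singleton _), integral_const] at h7
  simp only [measureReal_restrict_apply_univ] at h7
  have h8 : σ.real {0} = 0 := by
    have : ((σ.real {0} : ℝ) : ℂ) = 0 := by simpa using h7
    exact_mod_cast this
  rw [measureReal_def, ENNReal.toReal_eq_zero_iff] at h8
  rcases h8 with h | h
  · exact h
  · exact absurd h (measure_ne_top _ _)

/-- correlations of a vector orthogonal to the invariant vectors -/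
theorem corr_diag (U : H ≃ₗᵢ[ℂ] H) (v : H) (hv : ∀ w : H, U w = w → ⟪w, v⟫_ℂ = 0) (k : ℕ → ℕ → ℤ)
    (hk : ∀ θ : TT, θ ≠ 0 → Tendsto (fun N => dav N fun n m => (fourier (k n m) θ : ℂ)) atTop (𝓝 0)) :
    Tendsto (fun N => dav N fun n m => ⟪v, (U ^ k n m) v⟫_ℂ) atTop (𝓝 0) := by
  obtain ⟨σ, hfin, hσ⟩ := SM345.SPA.herglotz U v
  have h0 := no_atom U v hv σ hσ
  have h1 : Tendsto (fun N : ℕ => ∫ z, dav N (fun n m => (fourier (k n m) z : ℂ)) ∂σ) atTop
      (𝓝 (∫ _, (0 : ℂ) ∂σ)) := by
    refine tendsto_integral_of_dominated_convergence (fun _ => (1 : ℝ)) ?_ (integrable_const _) ?_ ?_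
    · intro N
      refine Measurable.aestronglyMeasurable ?_
      unfold dav
      refine Measurable.const_mul ?_ _
      exact Finset.measurable_sum _ fun n _ => Finset.measurable_sum _ fun m _ =>
        (fourier (k n m)).continuous.measurable
    · intro N
      refine Eventually.of_forall fun z => norm_dav_le _ _ _ fun n m => ?_
      rw [fourier_apply]
      simp
    · have h2 : ∀ᵐ z ∂σ, z ≠ (0 : TT) := by
        rw [ae_iff]
        simpa using h0
      filter_upwards [h2] with z hz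
      exact hk z hz
  rw [integral_zero] at h1
  refine h1.congr fun N => ?_
  unfold dav
  rw [integral_const_mul, integral_finset_sum]
  · congr 1
    refine Finset.sum_congr rfl fun n _ => ?_
    rw [integral_finset_sum]
    · exact Finset.sum_congr rfl fun m _ => hσ _
    · intro m _
      exact (fourier _).continuous.integrable_of_hasCompactSupport (HasCompactSupport.of_compactSpace _)
  · intro n _
    refine integrable_finset_sum _ fun m _ => ?_
    exact (fourier _).continuous.integrable_of_hasCompactSupport (HasCompactSupport.of_compactSpace _)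

/-- polarization -/
theorem corr (U : H ≃ₗᵢ[ℂ] H) (f g : H) (hf : ∀ w : H, U w = w → ⟪w, f⟫_ℂ = 0)
    (hg : ∀ w : H, U w = w → ⟪w, g⟫_ℂ = 0) (k : ℕ → ℕ → ℤ)
    (hk : ∀ θ : TT, θ ≠ 0 → Tendsto (fun N => dav N fun n m => (fourier (k n m) θ : ℂ)) atTop (𝓝 0)) :
    Tendsto (fun N => dav N fun n m => ⟪f, (U ^ k n m) g⟫_ℂ) atTop (𝓝 0) := by
  have key : ∀ s : ℂ, Tendsto (fun N => dav N fun n m => ⟪f + s • g, (U ^ k n m) (f + s • g)⟫_ℂ) atTop (𝓝 0) := by
    intro s
    refine corr_diag U _ (fun w hw => ?_) k hk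
    rw [inner_add_right, inner_smul_right, hf w hw, hg w hw, mul_zero, add_zero]
  have h1 := (((key 1).sub (key (-1))).sub (((key Complex.I).sub (key (-Complex.I))).const_mul Complex.I)).const_mul
    (1 / 4 : ℂ)
  simp only [sub_zero, mul_zero] at h1
  refine h1.congr fun N => ?_
  unfold dav
  simp only [Finset.mul_sum, ← Finset.sum_sub_distrib]
  refine Finset.sum_congr rfl fun n _ => Finset.sum_congr rfl fun m _ => ?_
  simp only [map_add, map_smul, inner_add_left, inner_add_right, inner_smul_left, inner_smul_right, map_neg,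
    Complex.conj_I, map_one]
  linear_combination (-(((N : ℂ) + 1) ^ 2)⁻¹ * ⟪f, (U ^ k n m) g⟫_ℂ / 2 + (((N : ℂ) + 1) ^ 2)⁻¹ *
    ⟪g, (U ^ k n m) f⟫_ℂ / 2) * Complex.I_sq

end Pool.Agent.N224.PJ
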