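import Pool.Agent.N224.PJ.Spec

set_option autoImplicit false

/-!
# Correlations of an ergodic transformation along equidistributed double sequences: functions
-/

open MeasureTheory Filter Topology
open scoped InnerProductSpace ENNReal

noncomputable section

namespace Pool.Agent.N224.PJ

open SM345.SPA (TT)

variable {X : Type} [MeasurableSpace X] {μ : Measure X} [IsProbabilityMeasure μ] {T : Equiv.Perm X}

omit [IsProbabilityMeasure μ] in
theorem mp_symm (hT : MeasurePreserving T μ μ) (hs : Measurable T.symm) : MeasurePreserving T.symm μ μ := by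
  let e : X ≃ᵐ X := ⟨T, hT.measurable, hs⟩
  exact MeasurePreserving.symm e hT

omit [IsProbabilityMeasure μ] in
theorem mp_zpow (hT : MeasurePreserving T μ μ) (hs : Measurable T.symm) (k : ℤ) :
    MeasurePreserving (T ^ k : Equiv.Perm X) μ μ := by
  have hpow : ∀ (S : Equiv.Perm X), MeasurePreserving S μ μ → ∀ n : ℕ,
      MeasurePreserving (S ^ n : Equiv.Perm X) μ μ := by
    intro S hS n
    rw [← Equiv.Perm.iterate_eq_pow]
    exact hS.iterate n
  obtain ⟨n, rfl | rfl⟩ := k.eq_nat_or_neg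
  · rw [zpow_natCast]
    exact hpow T hT n
  · rw [zpow_neg, zpow_natCast, ← inv_pow]
    exact hpow T⁻¹ (mp_symm hT hs) n

/-- the Koopman operator -/
def koop (hT : MeasurePreserving T μ μ) (hs : Measurable T.symm) : Lp ℂ 2 μ ≃ₗᵢ[ℂ] Lp ℂ 2 μ :=
  LinearIsometryEquiv.ofSurjective (Lp.compMeasurePreservingₗᵢ ℂ T hT) (by
    intro F
    refine ⟨Lp.compMeasurePreservingₗᵢ ℂ T.symm (mp_symm hT hs) F, ?_⟩
    apply Lp.ext
    have h1 : (Lp.compMeasurePreservingₗᵢ ℂ T hT (Lp.compMeasurePreservingₗᵢ ℂ T.symm (mp_symm hT hs) F) :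
        X → ℂ) =ᵐ[μ] fun x => (Lp.compMeasurePreservingₗᵢ ℂ T.symm (mp_symm hT hs) F : X → ℂ) (T x) :=
      Lp.coeFn_compMeasurePreserving _ hT
    have h2 : (Lp.compMeasurePreservingₗᵢ ℂ T.symm (mp_symm hT hs) F : X → ℂ) =ᵐ[μ]
        fun x => (F : X → ℂ) (T.symm x) := Lp.coeFn_compMeasurePreserving _ _
    have h3 := hT.quasiMeasurePreserving.ae_eq_comp h2
    refine h1.trans (h3.trans (Eventually.of_forall fun x => ?_))
    simp)

theorem koop_coe (hT : MeasurePreserving T μ μ) (hs : Measurable T.symm) (F : Lp ℂ 2 μ) :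
    (koop hT hs F : X → ℂ) =ᵐ[μ] fun x => (F : X → ℂ) (T x) :=
  Lp.coeFn_compMeasurePreserving _ hT

theorem koop_zpow (hT : MeasurePreserving T μ μ) (hs : Measurable T.symm) (F : Lp ℂ 2 μ) (k : ℤ) :
    (((koop hT hs) ^ k) F : X → ℂ) =ᵐ[μ] fun x => (F : X → ℂ) ((T ^ k : Equiv.Perm X) x) := by
  have hnat : ∀ (n : ℕ) (F : Lp ℂ 2 μ), (((koop hT hs) ^ n) F : X → ℂ) =ᵐ[μ]
      fun x => (F : X → ℂ) ((T ^ n : Equiv.Perm X) x) := by
    intro n
    induction n with
    | zero => intro F; simp only [pow_zero]; exact Eventually.of_forall fun x => rfl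
    | succ k ih =>
      intro F
      have h1 : ((koop hT hs) ^ (k + 1)) F = ((koop hT hs) ^ k) (koop hT hs F) := by
        rw [pow_succ]; rfl
      rw [h1]
      refine (ih _).trans ?_
      have h2 := (mp_zpow hT hs (k : ℤ)).quasiMeasurePreserving.ae_eq_comp (koop_coe hT hs F)
      rw [zpow_natCast] at h2
      refine h2.trans (Eventually.of_forall fun x => ?_)
      have h3 : (T ^ (k + 1) : Equiv.Perm X) = T * T ^ k := by rw [pow_succ']
      rw [h3]
      rfl
  obtain ⟨n, rfl | rfl⟩ := k.eq_nat_or_neg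
  · simp only [zpow_natCast]
    exact hnat n F
  · -- `G = U^(-n) F` satisfies `U^n G = F`
    set G := ((koop hT hs) ^ (-(n : ℤ))) F with hG
    have h1 : ((koop hT hs) ^ n) G = F := by
      rw [hG]
      have : ((koop hT hs) ^ n) * ((koop hT hs) ^ (-(n : ℤ))) = 1 := by
        rw [← zpow_natCast, ← zpow_add, add_neg_cancel, zpow_zero]
      have h2 := congrArg (fun V : Lp ℂ 2 μ ≃ₗᵢ[ℂ] Lp ℂ 2 μ => V F) this
      exact h2
    have h2 := hnat n G
    rw [h1] at h2
    have h3 := (mp_zpow hT hs (-(n : ℤ))).quasiMeasurePreserving.ae_eq_comp h2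
    refine EventuallyEq.symm (h3.trans (Eventually.of_forall fun x => ?_))
    have h4 : (T ^ n : Equiv.Perm X) ((T ^ (-(n : ℤ)) : Equiv.Perm X) x) = x := by
      rw [zpow_neg, zpow_natCast]
      exact (T ^ n).apply_symm_apply x
    show (G : X → ℂ) ((T ^ n : Equiv.Perm X) ((T ^ (-(n : ℤ)) : Equiv.Perm X) x)) = _
    rw [h4]

/-- correlations along an equidistributed double sequence -/
theorem corr_fun (hT : Ergodic T μ) (hs : Measurable T.symm) {f g : X → ℂ} (hf : Measurable f) (hg : Measurable g)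
    {C D : ℝ} (hfC : ∀ x, ‖f x‖ ≤ C) (hgD : ∀ x, ‖g x‖ ≤ D) (k : ℕ → ℕ → ℤ)
    (hk : ∀ θ : TT, θ ≠ 0 → Tendsto (fun N => dav N fun n m => (fourier (k n m) θ : ℂ)) atTop (𝓝 0)) :
    Tendsto (fun N => dav N fun n m => ∫ x, f x * g ((T ^ k n m : Equiv.Perm X) x) ∂μ) atTop
      (𝓝 ((∫ x, f x ∂μ) * ∫ x, g x ∂μ)) := by
  have hmp := hT.toMeasurePreserving
  set a := ∫ x, f x ∂μ with ha
  set b := ∫ x, g x ∂μ with hb
  -- `conj f - conj a` and `g - b`
  have hfm : MemLp (fun x => (starRingEnd ℂ) (f x - a)) 2 μ := by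
    refine MemLp.of_bound (Complex.continuous_conj.measurable.comp (hf.sub_const a)).aestronglyMeasurable
      (C + ‖a‖) (Eventually.of_forall fun x => ?_)
    show ‖(starRingEnd ℂ) (f x - a)‖ ≤ C + ‖a‖
    rw [RCLike.norm_conj]
    exact (norm_sub_le _ _).trans (by linarith [hfC x])
  have hgm : MemLp (fun x => g x - b) 2 μ := by
    refine MemLp.of_bound (hg.sub_const b).aestronglyMeasurable (D + ‖b‖) (Eventually.of_forall fun x => ?_)
    exact (norm_sub_le _ _).trans (by linarith [hgD x])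
  have hfi : Integrable f μ := (MemLp.of_bound hf.aestronglyMeasurable C (Eventually.of_forall hfC) :
    MemLp f 1 μ).integrable le_rfl
  have hgi : Integrable g μ := (MemLp.of_bound hg.aestronglyMeasurable D (Eventually.of_forall hgD) :
    MemLp g 1 μ).integrable le_rfl
  -- invariant vectors are constant
  have hinv : ∀ (v : Lp ℂ 2 μ) (u : X → ℂ), (v : X → ℂ) =ᵐ[μ] u → ∫ x, u x ∂μ = 0 →
      ∀ w : Lp ℂ 2 μ, koop hmp hs w = w → ⟪w, v⟫_ℂ = 0 := by
    intro v u huv hu w hw
    have h1 : (w : X → ℂ) ∘ T =ᵐ[μ] (w : X → ℂ) := by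
      have h2 := koop_coe hmp hs w
      rw [hw] at h2
      exact h2.symm
    obtain ⟨c, hc⟩ := hT.ae_eq_const_of_ae_eq_comp_ae (Lp.aestronglyMeasurable w) h1
    rw [L2.inner_def]
    have h3 : ∀ᵐ x ∂μ, ⟪(w : X → ℂ) x, (v : X → ℂ) x⟫_ℂ = u x * (starRingEnd ℂ) c := by
      filter_upwards [hc, huv] with x h4 h5
      rw [h4, h5]
      simp [Function.const, RCLike.inner_apply]
    rw [integral_congr_ae h3, integral_mul_const, hu, zero_mul]
  have hf0 : ∫ x, (starRingEnd ℂ) (f x - a) ∂μ = 0 := by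
    rw [integral_conj, integral_sub hfi (integrable_const _)]
    simp [ha]
  have hg0 : ∫ x, (g x - b) ∂μ = 0 := by
    rw [integral_sub hgi (integrable_const _)]
    simp [hb]
  have h1 := corr (koop hmp hs) (hfm.toLp _) (hgm.toLp _) (hinv _ _ hfm.coeFn_toLp hf0)
    (hinv _ _ hgm.coeFn_toLp hg0) k hk
  have h2 := h1.add_const (a * b)
  rw [zero_add] at h2
  refine h2.congr fun N => ?_
  have h3 : ∀ n m, ∫ x, f x * g ((T ^ k n m : Equiv.Perm X) x) ∂μ =
      ⟪hfm.toLp _, ((koop hmp hs) ^ k n m) (hgm.toLp _)⟫_ℂ + a * b := by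
    intro n m
    have hS := mp_zpow hmp hs (k n m)
    rw [L2.inner_def]
    have h4 : ∀ᵐ x ∂μ, ⟪(hfm.toLp _ : X → ℂ) x, (((koop hmp hs) ^ k n m) (hgm.toLp _) : X → ℂ) x⟫_ℂ =
        f x * g ((T ^ k n m : Equiv.Perm X) x) - a * g ((T ^ k n m : Equiv.Perm X) x) - f x * b + a * b := by
      have h5 := hS.quasiMeasurePreserving.ae_eq_comp hgm.coeFn_toLp
      filter_upwards [hfm.coeFn_toLp, koop_zpow hmp hs (hgm.toLp _) (k n m), h5] with x h6 h7 h8
      rw [h7]
      have h9 : (hgm.toLp _ : X → ℂ) ((T ^ k n m : Equiv.Perm X) x) = g ((T ^ k n m : Equiv.Perm X) x) - b := h8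
      rw [h6, h9, RCLike.inner_apply]
      simp only [map_sub, Complex.conj_conj]
      ring
    rw [integral_congr_ae h4]
    have i1 : Integrable (fun x => g ((T ^ k n m : Equiv.Perm X) x)) μ := hS.integrable_comp_of_integrable hgi
    have i2 : Integrable (fun x => f x * g ((T ^ k n m : Equiv.Perm X) x)) μ :=
      (MemLp.of_bound (hf.mul (hg.comp hS.measurable)).aestronglyMeasurable (C * D)
        (Eventually.of_forall fun x => by
          show ‖f x * g ((T ^ k n m : Equiv.Perm X) x)‖ ≤ C * D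
          rw [norm_mul]
          exact mul_le_mul (hfC x) (hgD _) (norm_nonneg _) ((norm_nonneg _).trans (hfC x))) :
        MemLp _ 1 μ).integrable le_rfl
    have e1 : ∫ x, g ((T ^ k n m : Equiv.Perm X) x) ∂μ = b := hS.integral_comp' (f := (⟨T ^ k n m, hS.measurable,
      by
        have := (mp_zpow hmp hs (-(k n m))).measurable
        rw [zpow_neg] at this
        exact this⟩ : X ≃ᵐ X)) g
    rw [integral_add, integral_sub, integral_sub, integral_const_mul, integral_mul_const, integral_const, e1]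
    · simp [ha]
    · exact i2
    · exact i1.const_mul a
    · exact i2.sub (i1.const_mul a)
    · exact hfi.mul_const b
    · exact (i2.sub (i1.const_mul a)).sub (hfi.mul_const b)
    · exact integrable_const _
  simp only [h3]
  rw [dav_add, dav_const]

end Pool.Agent.N224.PJ
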