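import Pool.Agent.N224.PJ.Lim

set_option autoImplicit false

/-!
# The exponential double averages, and eigenfunctions
-/

open MeasureTheory Filter Topology
open scoped InnerProductSpace ENNReal

noncomputable section

namespace Pool.Agent.N224.PJ

open SM345.SPA (TT)

section W

variable {ℓ : ℕ} (a : Fin ℓ → ℕ → ℤ)

/-- the exponentials -/
def ee (t : Fin ℓ → ℝ) (n : ℕ) : ℂ :=
  Complex.exp (2 * (Real.pi : ℂ) * Complex.I * ((∑ j, (a j n : ℝ) * t j : ℝ) : ℂ))

/-- good for equidistribution -/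
def GE : Prop := ∀ t : Fin ℓ → ℝ, (∃ j, Int.fract (t j) ≠ 0) →
  Tendsto (fun N : ℕ => (1 / (N : ℂ)) * ∑ n ∈ Finset.range N, ee a t n) atTop (𝓝 0)

theorem norm_ee (t : Fin ℓ → ℝ) (n : ℕ) : ‖ee a t n‖ = 1 := by
  unfold ee
  have : 2 * (Real.pi : ℂ) * Complex.I * ((∑ j, (a j n : ℝ) * t j : ℝ) : ℂ) =
      ((2 * Real.pi * (∑ j, (a j n : ℝ) * t j) : ℝ) : ℂ) * Complex.I := by push_cast; ring
  rw [this, Complex.norm_exp_ofReal_mul_I]

theorem dav_mul (F G : ℕ → ℂ) (N : ℕ) : dav N (fun n m => F n * G m) =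
    (((N : ℂ) + 1)⁻¹ * ∑ n ∈ Finset.range (N + 1), F n) *
      (((N : ℂ) + 1)⁻¹ * ∑ m ∈ Finset.range (N + 1), G m) := by
  unfold dav
  rw [← Finset.sum_mul_sum, ← inv_pow]
  ring

theorem norm_avg_le (F : ℕ → ℂ) (hF : ∀ n, ‖F n‖ ≤ 1) (N : ℕ) :
    ‖((N : ℂ) + 1)⁻¹ * ∑ n ∈ Finset.range (N + 1), F n‖ ≤ 1 := by
  have h1 : ((N : ℂ) + 1)⁻¹ * ∑ n ∈ Finset.range (N + 1), F n = dav N (fun n m => F n * 1) := by
    rw [dav_mul]
    have h : ((N : ℂ) + 1) ≠ 0 := by exact_mod_cast Nat.succ_ne_zero N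
    simp [h]
  rw [h1]
  exact norm_dav_le N _ 1 fun n m => by simpa using hF n

theorem lemW (ha : GE a) (s : Fin ℓ ⊕ Fin ℓ → ℝ) (hs : ∃ i, Int.fract (s i) ≠ 0) :
    Tendsto (fun N => dav N fun n m =>
      Complex.exp (2 * (Real.pi : ℂ) * Complex.I * ((∑ i, (cc a n m i : ℝ) * s i : ℝ) : ℂ))) atTop (𝓝 0) := by
  have h1 : ∀ n m, Complex.exp (2 * (Real.pi : ℂ) * Complex.I * ((∑ i, (cc a n m i : ℝ) * s i : ℝ) : ℂ)) =
      ee a (fun j => s (Sum.inl j)) n * ee a (fun j => s (Sum.inr j)) m := by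
    intro n m
    unfold ee
    rw [← Complex.exp_add, Fintype.sum_sum_type]
    congr 1
    simp only [cc, Sum.elim_inl, Sum.elim_inr]
    push_cast
    ring
  simp only [h1, dav_mul]
  have h2 : ∀ t : Fin ℓ → ℝ, (∃ j, Int.fract (t j) ≠ 0) →
      Tendsto (fun N : ℕ => ((N : ℂ) + 1)⁻¹ * ∑ n ∈ Finset.range (N + 1), ee a t n) atTop (𝓝 0) := by
    intro t ht
    refine ((ha t ht).comp (tendsto_add_atTop_nat 1)).congr fun N => ?_
    simp only [Function.comp]
    push_cast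
    rw [one_div]
  obtain ⟨i, hi⟩ := hs
  rcases i with j | j
  · have h3 := (h2 (fun j => s (Sum.inl j)) ⟨j, hi⟩).norm
    rw [norm_zero] at h3
    refine squeeze_zero_norm (fun N => ?_) h3
    rw [norm_mul]
    exact mul_le_of_le_one_right (norm_nonneg _) (norm_avg_le _ (fun n => (norm_ee a _ n).le) N)
  · have h3 := (h2 (fun j => s (Sum.inr j)) ⟨j, hi⟩).norm
    rw [norm_zero] at h3
    refine squeeze_zero_norm (fun N => ?_) h3
    rw [norm_mul]
    exact mul_le_of_le_one_left (norm_nonneg _) (norm_avg_le _ (fun n => (norm_ee a _ n).le) N)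

theorem lemk (ha : GE a) {i j : Fin ℓ ⊕ Fin ℓ} (hij : i ≠ j) (θ : TT) (hθ : θ ≠ 0) :
    Tendsto (fun N => dav N fun n m => (fourier (cc a n m j - cc a n m i) θ : ℂ)) atTop (𝓝 0) := by
  classical
  obtain ⟨t, rfl⟩ := QuotientAddGroup.mk_surjective θ
  have ht : Int.fract t ≠ 0 := by
    intro h
    apply hθ
    obtain ⟨z, hz⟩ := Int.fract_eq_zero_iff.1 h
    rw [← hz]
    have h1 : ((z : ℝ) : AddCircle (1 : ℝ)) = 0 := by
      rw [AddCircle.coe_eq_zero_iff]
      exact ⟨z, by simp⟩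
    exact h1
  have h0 := lemW a ha (fun l => if l = j then t else if l = i then -t else 0) ⟨j, by simpa using ht⟩
  refine h0.congr fun N => ?_
  congr 1
  funext n m
  have e1 : (fourier (cc a n m j - cc a n m i) (QuotientAddGroup.mk t : TT) : ℂ) =
      Complex.exp (2 * Real.pi * Complex.I * ((cc a n m j - cc a n m i : ℤ) : ℂ) * t / (1 : ℝ)) :=
    fourier_coe_apply
  rw [e1]
  congr 1
  have e2 : (∑ l, (cc a n m l : ℝ) * (if l = j then t else if l = i then -t else 0)) =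
      (cc a n m j : ℝ) * t - (cc a n m i : ℝ) * t := by
    rw [Fintype.sum_eq_add j i hij.symm]
    · simp [hij]
      ring
    · rintro x ⟨h1, h2⟩
      simp [h1, h2]
  rw [e2]
  push_cast
  ring

end W

section eig

variable {X : Type} [MeasurableSpace X] {μ : Measure X} {T : Equiv.Perm X}

/-- powers on eigenfunctions -/
theorem eig_zpow (hT : MeasurePreserving T μ μ) (hs : Measurable T.symm) {φ : X → ℂ} {t : ℝ}
    (h : ∀ᵐ x ∂μ, φ (T x) = Complex.exp (2 * (Real.pi : ℂ) * Complex.I * (t : ℂ)) * φ x) (k : ℤ) :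
    ∀ᵐ x ∂μ, φ ((T ^ k : Equiv.Perm X) x) =
      Complex.exp (2 * (Real.pi : ℂ) * Complex.I * ((k : ℂ) * (t : ℂ))) * φ x := by
  have hnat : ∀ n : ℕ, ∀ᵐ x ∂μ, φ ((T ^ (n : ℤ) : Equiv.Perm X) x) =
      Complex.exp (2 * (Real.pi : ℂ) * Complex.I * ((n : ℂ) * (t : ℂ))) * φ x := by
    intro n
    induction n with
    | zero => exact Eventually.of_forall fun x => by simp
    | succ k ih =>
      have h1 := (mp_zpow hT hs (k : ℤ)).quasiMeasurePreserving.ae h
      filter_upwards [ih, h1] with x h2 h3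
      have h4 : (T ^ ((k + 1 : ℕ) : ℤ) : Equiv.Perm X) = T * T ^ (k : ℤ) := by
        rw [← zpow_one_add]
        congr 1
        push_cast
        ring
      rw [h4, Equiv.Perm.mul_apply, h3, h2, ← mul_assoc, ← Complex.exp_add]
      congr 2
      push_cast
      ring
  obtain ⟨n, rfl | rfl⟩ := k.eq_nat_or_neg
  · simpa using hnat n
  · have h1 := (mp_zpow hT hs (-(n : ℤ))).quasiMeasurePreserving.ae (hnat n)
    filter_upwards [h1] with x h2
    have h3 : (T ^ (n : ℤ) : Equiv.Perm X) ((T ^ (-(n : ℤ)) : Equiv.Perm X) x) = x := by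
      rw [zpow_neg]
      exact (T ^ (n : ℤ)).apply_symm_apply x
    rw [h3] at h2
    rw [h2, ← mul_assoc, ← Complex.exp_add]
    have h4 : 2 * (Real.pi : ℂ) * Complex.I * (((-(n : ℤ) : ℤ) : ℂ) * (t : ℂ)) +
        2 * (Real.pi : ℂ) * Complex.I * ((n : ℂ) * (t : ℂ)) = 0 := by
      push_cast
      ring
    rw [h4, Complex.exp_zero, one_mul]

end eig

end Pool.Agent.N224.PJ
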